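import Pool.Agent.Work.MP_3edda8_gt.SK.Defs

/-!
# Colourings of Morse words by keis (involutory quandles): definitions and first lemmas

A colouring is a function `c : ℕ → Q` : `c n` is the colour of the `n`-th minimum (cup) of the
word.  States are functions `ℕ → Q` (colour of the strand with number `j`; the positions beyond the
number of strands are never touched by a typed word).
-/

namespace Pool.Agent.Work.MP_3edda8_gt

variable {Q : Type}

/-- insert two strands of colour `c` at position `i` -/
def ins2 (i : ℕ) (c : Q) (s : ℕ → Q) : ℕ → Q :=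
  fun j => if j < i then s j else if j < i + 2 then c else s (j - 2)

/-- remove the strands `i` and `i + 1` -/
def del2 (i : ℕ) (s : ℕ → Q) : ℕ → Q :=
  fun j => if j < i then s j else s (j + 2)

/-- positive crossing: the strand `i + 1` goes over -/
def crP (op : Q → Q → Q) (i : ℕ) (s : ℕ → Q) : ℕ → Q :=
  fun j => if j = i then s (i + 1) else if j = i + 1 then op (s i) (s (i + 1)) else s j

/-- negative crossing: the strand `i` goes over -/
def crN (op : Q → Q → Q) (i : ℕ) (s : ℕ → Q) : ℕ → Q :=
  fun j => if j = i then op (s (i + 1)) (s i) else if j = i + 1 then s i else s j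

/-- number of cups of a word -/
def cups : List Ev → ℕ
  | [] => 0
  | ⟨.cup, _⟩ :: w => cups w + 1
  | ⟨.cap, _⟩ :: w => cups w
  | ⟨.pos, _⟩ :: w => cups w
  | ⟨.neg, _⟩ :: w => cups w

/-- final state of the word `w` from the state `s` with cup colours `c` -/
def run (op : Q → Q → Q) : List Ev → (ℕ → Q) → (ℕ → Q) → (ℕ → Q)
  | [], s, _ => s
  | ⟨.cup, i⟩ :: w, s, c => run op w (ins2 i (c 0) s) (fun n => c (n + 1))
  | ⟨.cap, i⟩ :: w, s, c => run op w (del2 i s) c
  | ⟨.pos, i⟩ :: w, s, c => run op w (crP op i s) c
  | ⟨.neg, i⟩ :: w, s, c => run op w (crN op i s) c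

/-- all caps of `w` join strands of equal colours -/
def ok (op : Q → Q → Q) : List Ev → (ℕ → Q) → (ℕ → Q) → Prop
  | [], _, _ => True
  | ⟨.cup, i⟩ :: w, s, c => ok op w (ins2 i (c 0) s) (fun n => c (n + 1))
  | ⟨.cap, i⟩ :: w, s, c => s i = s (i + 1) ∧ ok op w (del2 i s) c
  | ⟨.pos, i⟩ :: w, s, c => ok op w (crP op i s) c
  | ⟨.neg, i⟩ :: w, s, c => ok op w (crN op i s) c

/-- weighted number of colourings with a final weight `k` of the final state -/
noncomputable def cntK [Fintype Q] (op : Q → Q → Q) :
    List Ev → (ℕ → Q) → ((ℕ → Q) → ℕ) → ℕ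
  | [], s, k => k s
  | ⟨.cup, i⟩ :: w, s, k => ∑ c : Q, cntK op w (ins2 i c s) k
  | ⟨.cap, i⟩ :: w, s, k => open Classical in if s i = s (i + 1) then cntK op w (del2 i s) k else 0
  | ⟨.pos, i⟩ :: w, s, k => cntK op w (crP op i s) k
  | ⟨.neg, i⟩ :: w, s, k => cntK op w (crN op i s) k

/-- involutory quandles -/
structure IsKei (op : Q → Q → Q) : Prop where
  idem : ∀ a, op a a = a
  invol : ∀ a b, op (op a b) b = a
  dist : ∀ a b c, op (op a b) c = op (op a c) (op b c)

/-- The colourings of a closed word, with base colour `b`. -/
def Col (op : Q → Q → Q) (b : Q) (D : List Ev) : Set (ℕ → Q) :=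
  {c | (∀ n, cups D ≤ n → c n = b) ∧ ok op D (fun _ => b) c}

/-- The number of colourings of a closed word. -/
noncomputable def num (op : Q → Q → Q) (b : Q) (D : List Ev) : ℕ := (Col op b D).ncard

/-- the trivial kei -/
def tri (x _y : Q) : Q := x

/-- the dihedral kei of a commutative ring -/
def fox {R : Type} [CommRing R] (x y : R) : R := 2 * y - x

/-- the even part of a character -/
def chi {p : ℕ} {R : Type} [CommRing R] (ψ : AddChar (ZMod p) R) (d : ZMod p) : R := ψ d + ψ (-d)

/-- the kei of affine reflections: `ZMod p × R` -/
def cop {p : ℕ} {R : Type} [CommRing R] (ψ : AddChar (ZMod p) R) (x y : ZMod p × R) :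
    ZMod p × R := (2 * y.1 - x.1, chi ψ (y.1 - x.1) * y.2 - x.2)

/-! ## First lemmas -/

@[simp] theorem cups_append (u v : List Ev) : cups (u ++ v) = cups u + cups v := by
  induction u with
  | nil => simp [cups]
  | cons e u ih =>
    rcases e with ⟨_ | _ | _ | _, i⟩ <;> (simp [cups, ih]; try omega)

theorem run_append (op : Q → Q → Q) (u v : List Ev) (s c : ℕ → Q) :
    run op (u ++ v) s c = run op v (run op u s c) (fun n => c (cups u + n)) := by
  induction u generalizing s c with
  | nil => simp [run, cups]
  | cons e u ih =>
    rcases e with ⟨_ | _ | _ | _, i⟩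
    · simp only [List.cons_append, run, ih, cups]
      congr 1
      funext n
      congr 1
      omega
    · simp only [List.cons_append, run, ih, cups]
    · simp only [List.cons_append, run, ih, cups]
    · simp only [List.cons_append, run, ih, cups]

theorem ok_append (op : Q → Q → Q) (u v : List Ev) (s c : ℕ → Q) :
    ok op (u ++ v) s c ↔ ok op u s c ∧ ok op v (run op u s c) (fun n => c (cups u + n)) := by
  induction u generalizing s c with
  | nil => simp [ok, run, cups]
  | cons e u ih =>
    rcases e with ⟨_ | _ | _ | _, i⟩
    · simp only [List.cons_append, run, ok, ih, cups]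
      have : (fun n => c (cups u + n + 1)) = (fun n => c (cups u + 1 + n)) := by
        funext n
        congr 1
        omega
      rw [this]
    · simp only [List.cons_append, run, ok, ih, cups, and_assoc]
    · simp only [List.cons_append, run, ok, ih, cups]
    · simp only [List.cons_append, run, ok, ih, cups]

theorem cntK_append [Fintype Q] (op : Q → Q → Q) (u v : List Ev) (s : ℕ → Q)
    (k : (ℕ → Q) → ℕ) :
    cntK op (u ++ v) s k = cntK op u s (fun s' => cntK op v s' k) := by
  induction u generalizing s with
  | nil => simp [cntK]
  | cons e u ih =>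
    rcases e with ⟨_ | _ | _ | _, i⟩ <;> simp only [List.cons_append, cntK, ih]

/-- only the colours of the cups matter -/
theorem run_congr (op : Q → Q → Q) (w : List Ev) (s c c' : ℕ → Q)
    (h : ∀ n < cups w, c n = c' n) : run op w s c = run op w s c' := by
  induction w generalizing s c c' with
  | nil => rfl
  | cons e w ih =>
    rcases e with ⟨_ | _ | _ | _, i⟩
    · simp only [run]
      rw [h 0 (by simp [cups])]
      exact ih _ _ _ fun n hn => h (n + 1) (by simp [cups]; omega)
    all_goals
      simp only [run]
      exact ih _ _ _ fun n hn => h n (by simpa [cups] using hn)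

theorem ok_congr (op : Q → Q → Q) (w : List Ev) (s c c' : ℕ → Q)
    (h : ∀ n < cups w, c n = c' n) : ok op w s c ↔ ok op w s c' := by
  induction w generalizing s c c' with
  | nil => rfl
  | cons e w ih =>
    rcases e with ⟨_ | _ | _ | _, i⟩
    · simp only [ok]
      rw [h 0 (by simp [cups])]
      exact ih _ _ _ fun n hn => h (n + 1) (by simp [cups]; omega)
    · simp only [ok]
      exact and_congr_right fun _ => ih _ _ _ fun n hn => h n (by simpa [cups] using hn)
    all_goals
      simp only [ok]
      exact ih _ _ _ fun n hn => h n (by simpa [cups] using hn)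

@[simp] theorem sh_append (a : ℕ) (u v : List Ev) : sh a (u ++ v) = sh a u ++ sh a v := by
  simp [sh]

@[simp] theorem sh_nil (a : ℕ) : sh a [] = [] := rfl

@[simp] theorem sh_cons (a : ℕ) (e : Ev) (w : List Ev) :
    sh a (e :: w) = ⟨e.kind, a + e.loc⟩ :: sh a w := rfl

@[simp] theorem cups_sh (a : ℕ) (w : List Ev) : cups (sh a w) = cups w := by
  induction w with
  | nil => rfl
  | cons e w ih =>
    rcases e with ⟨_ | _ | _ | _, i⟩ <;> simp [cups, ih]

theorem typed_append {u v : List Ev} {m k : ℕ} :
    Typed (u ++ v) m k ↔ ∃ l, Typed u m l ∧ Typed v l k := by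
  induction u generalizing m with
  | nil => simp [Typed]
  | cons e u ih => simp only [List.cons_append, Typed, ih]; tauto

theorem typed_width {w : List Ev} {m k : ℕ} (h : Typed w m k) : width w m = k := by
  induction w generalizing m with
  | nil => exact h
  | cons e w ih => exact ih h.2

theorem width_append (u v : List Ev) (m : ℕ) : width (u ++ v) m = width v (width u m) := by
  induction u generalizing m with
  | nil => rfl
  | cons e u ih => exact ih _

theorem typed_sh {w : List Ev} {m k : ℕ} (h : Typed w m k) (a r : ℕ) :
    Typed (sh a w) (a + m + r) (a + k + r) := by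
  induction w generalizing m with
  | nil => simp only [Typed] at h; subst h; rfl
  | cons e w ih =>
    have h1 := h.1
    have h2 := ih h.2
    rw [sh_cons]
    refine ⟨by simp only; omega, ?_⟩
    have h3 : a + m + r - e.kind.inp + e.kind.out = a + (m - e.kind.inp + e.kind.out) + r := by
      omega
    simp only [h3]
    exact h2

/-- A tangle without lower end points can be placed at `a` iff there are at least `a` strands. -/
theorem typed_sh_iff {T : List Ev} {n : ℕ} (h : Typed T 0 (2 * n)) (hn : 1 ≤ n) (a W k : ℕ) :
    Typed (sh a T) W k ↔ a ≤ W ∧ k = W + 2 * n := by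
  have key : a ≤ W → Typed (sh a T) W (W + 2 * n) := by
    intro ha
    have := typed_sh h a (W - a)
    convert this using 1 <;> omega
  constructor
  · intro h'
    have ha : a ≤ W := by
      cases T with
      | nil => simp only [Typed] at h; omega
      | cons e T =>
        have := h'.1
        simp only at this
        have h0 := h.1
        omega
    refine ⟨ha, ?_⟩
    have h1 := typed_width h'
    have h2 := typed_width (key ha)
    omega
  · rintro ⟨ha, rfl⟩
    exact key ha

/-- homomorphisms of keis map colourings to colourings -/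
theorem run_map {Q' : Type} (op : Q → Q → Q) (op' : Q' → Q' → Q') (φ : Q → Q')
    (hφ : ∀ x y, φ (op x y) = op' (φ x) (φ y)) (w : List Ev) (s c : ℕ → Q) :
    (fun j => φ (run op w s c j)) = run op' w (fun j => φ (s j)) (fun n => φ (c n)) := by
  induction w generalizing s c with
  | nil => rfl
  | cons e w ih =>
    rcases e with ⟨_ | _ | _ | _, i⟩
    · simp only [run, ih]
      congr 1
      funext j
      simp only [ins2]
      split_ifs <;> rfl
    · simp only [run, ih]
      congr 1
      funext j
      simp only [del2]
      split_ifs <;> rfl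
    · simp only [run, ih]
      congr 1
      funext j
      simp only [crP]
      split_ifs <;> simp [hφ]
    · simp only [run, ih]
      congr 1
      funext j
      simp only [crN]
      split_ifs <;> simp [hφ]

theorem ok_map {Q' : Type} (op : Q → Q → Q) (op' : Q' → Q' → Q') (φ : Q → Q')
    (hφ : ∀ x y, φ (op x y) = op' (φ x) (φ y)) (w : List Ev) (s c : ℕ → Q)
    (h : ok op w s c) : ok op' w (fun j => φ (s j)) (fun n => φ (c n)) := by
  induction w generalizing s c with
  | nil => trivial
  | cons e w ih =>
    rcases e with ⟨_ | _ | _ | _, i⟩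
    · simp only [ok] at h ⊢
      have := ih _ _ h
      convert this using 1
      funext j
      simp only [ins2]
      split_ifs <;> rfl
    · simp only [ok] at h ⊢
      refine ⟨by rw [h.1], ?_⟩
      have := ih _ _ h.2
      convert this using 1
      funext j
      simp only [del2]
      split_ifs <;> rfl
    · simp only [ok] at h ⊢
      have := ih _ _ h
      convert this using 1
      funext j
      simp only [crP]
      split_ifs <;> simp [hφ]
    · simp only [ok] at h ⊢
      have := ih _ _ h
      convert this using 1
      funext j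
      simp only [crN]
      split_ifs <;> simp [hφ]

end Pool.Agent.Work.MP_3edda8_gt
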