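import Pool.Agent.Work.MP_3edda8_gt.SK.Inv

/-!
MODULE Count (S-M): colourings as a set and as a count.

PROOF.
* `col_finite`: the set is contained in the image of `Fin (cups D) → Q` under extension by `b`
  (`Set.Finite.subset (Set.finite_range (fun g : Fin (cups D) → Q => fun n => if h : n < cups D
  then g ⟨n, h⟩ else b))`).  `set_finite` is the same for a word with an arbitrary state.
* `card_eq`: induction on `w`, `s` general.  nil: the set is `{fun _ => b}` (`cups [] = 0`).
  cup: `c ↦ (c 0, fun n => c (n+1))` is a bijection of the set with the disjoint union over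
  `x : Q` of the sets for `w`, `ins2 i x s`; e.g. `Set.ncard` of a finite disjoint union
  (`Set.ncard_iUnion..` / `Finset.card_biUnion` / `Nat.card_sigma` through
  `Nat.card_coe_set_eq`).  cap: if the condition holds the sets agree, otherwise the set is empty.
  crossings: the sets agree.
* `num_local`: from `num_eq`, `cntK_append` twice and `cntK_local`.
* `num_reid`: induction on `Relation.EqvGen`.
-/

namespace Pool.Agent.Work.MP_3edda8_gt

variable {Q : Type}

private theorem supp_finite [Finite Q] (b : Q) (m : ℕ) :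
    {c : ℕ → Q | ∀ n, m ≤ n → c n = b}.Finite := by
  refine Set.Finite.subset (Set.finite_range (fun g : Fin m → Q => fun n =>
    if h : n < m then g ⟨n, h⟩ else b)) fun c hc => ?_
  refine ⟨fun j => c j.1, ?_⟩
  funext n
  by_cases h : n < m
  · exact dif_pos h
  · exact (dif_neg h).trans (hc n (by omega)).symm

theorem set_finite [Finite Q] (op : Q → Q → Q) (b : Q) (w : List Ev) (s : ℕ → Q) :
    {c : ℕ → Q | (∀ n, cups w ≤ n → c n = b) ∧ ok op w s c}.Finite :=
  (supp_finite b (cups w)).subset fun _ hc => hc.1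

theorem col_finite [Finite Q] (op : Q → Q → Q) (b : Q) (D : List Ev) : (Col op b D).Finite :=
  set_finite op b D fun _ => b

/-- prepend a value -/
private def pre (x : Q) (c : ℕ → Q) : ℕ → Q := fun n => Nat.casesOn n x c

private def eqvCup (op : Q → Q → Q) (b : Q) (w : List Ev) (i : ℕ) (s : ℕ → Q) :
    {c : ℕ → Q | (∀ n, cups w + 1 ≤ n → c n = b) ∧
      ok op w (ins2 i (c 0) s) (fun n => c (n + 1))} ≃
    (Σ x : Q, {c : ℕ → Q | (∀ n, cups w ≤ n → c n = b) ∧ ok op w (ins2 i x s) c}) where
  toFun c := ⟨c.1 0, ⟨fun n => c.1 (n + 1), fun n hn => c.2.1 (n + 1) (by omega), c.2.2⟩⟩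
  invFun q := ⟨pre q.1 q.2.1, by
    refine ⟨fun n hn => ?_, q.2.2.2⟩
    obtain ⟨n, rfl⟩ : ∃ k, n = k + 1 := ⟨n - 1, by omega⟩
    exact q.2.2.1 n (by omega)⟩
  left_inv c := by
    apply Subtype.ext
    funext n
    cases n <;> rfl
  right_inv q := by
    obtain ⟨x, c, hc⟩ := q
    rfl

theorem card_eq [Fintype Q] (op : Q → Q → Q) (b : Q) (w : List Ev) (s : ℕ → Q) :
    {c : ℕ → Q | (∀ n, cups w ≤ n → c n = b) ∧ ok op w s c}.ncard =
      cntK op w s (fun _ => 1) := by
  induction w generalizing s with
  | nil =>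
    have h1 : {c : ℕ → Q | (∀ n, cups [] ≤ n → c n = b) ∧ ok op [] s c} = {fun _ => b} := by
      ext c
      constructor
      · rintro ⟨h, -⟩
        rw [Set.mem_singleton_iff]
        funext n
        exact h n (Nat.zero_le n)
      · rintro rfl
        exact ⟨fun _ _ => rfl, trivial⟩
    rw [h1, Set.ncard_singleton]
    rfl
  | cons e w ih =>
    rcases e with ⟨_ | _ | _ | _, i⟩
    · have h1 := Nat.card_congr (eqvCup op b w i s)
      have h2 : ∀ x : Q, Finite
          {c : ℕ → Q | (∀ n, cups w ≤ n → c n = b) ∧ ok op w (ins2 i x s) c} :=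
        fun x => (set_finite op b w (ins2 i x s)).to_subtype
      rw [Nat.card_sigma, Nat.card_coe_set_eq] at h1
      show {c : ℕ → Q | (∀ n, cups w + 1 ≤ n → c n = b) ∧
        ok op w (ins2 i (c 0) s) (fun n => c (n + 1))}.ncard = _
      rw [h1]
      show _ = ∑ x : Q, cntK op w (ins2 i x s) fun _ => 1
      refine Finset.sum_congr rfl fun x _ => ?_
      rw [Nat.card_coe_set_eq, ih]
    · show {c : ℕ → Q | (∀ n, cups w ≤ n → c n = b) ∧ s i = s (i + 1) ∧
        ok op w (del2 i s) c}.ncard = _
      rw [cntK]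
      split_ifs with hs
      · rw [← ih (del2 i s)]
        congr 1
        ext c
        exact ⟨fun h => ⟨h.1, h.2.2⟩, fun h => ⟨h.1, hs, h.2⟩⟩
      · have h1 : {c : ℕ → Q | (∀ n, cups w ≤ n → c n = b) ∧ s i = s (i + 1) ∧
            ok op w (del2 i s) c} = ∅ := by
          ext c
          exact ⟨fun h => hs h.2.1, fun h => h.elim⟩
        rw [h1, Set.ncard_empty]
    · exact ih (crP op i s)
    · exact ih (crN op i s)

theorem num_eq [Fintype Q] (op : Q → Q → Q) (b : Q) (D : List Ev) :
    num op b D = cntK op D (fun _ => b) (fun _ => 1) :=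
  card_eq op b D fun _ => b

theorem num_local [Finite Q] {op : Q → Q → Q} (hop : IsKei op) (b : Q) {r r' : List Ev}
    (h : LocalMove r r') (u v : List Ev) : num op b (u ++ r ++ v) = num op b (u ++ r' ++ v) := by
  have := Fintype.ofFinite Q
  rw [num_eq, num_eq, cntK_append, cntK_append, cntK_append op (u ++ r'), cntK_append op u r']
  congr 1
  funext s'
  exact cntK_local hop h s' _

theorem num_reid [Finite Q] {op : Q → Q → Q} (hop : IsKei op) (b : Q) {D D' : Diagram}
    (h : Relation.EqvGen ReidStep D D') : num op b D.1 = num op b D'.1 := by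
  induction h with
  | rel x y h =>
    obtain ⟨u, v, r, r', hl, h1, h2⟩ := h
    rw [h1, h2]
    exact num_local hop b hl u v
  | refl x => rfl
  | symm x y _ ih => exact ih.symm
  | trans x y z _ _ ih1 ih2 => exact ih1.trans ih2

end Pool.Agent.Work.MP_3edda8_gt
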