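import Pool.Agent.Work.MP_3edda8_gt.SK.Base

/-!
MODULE Lin (M): linearity of the colourings.

PROOF.  All by induction on `w` (states and colours general), the four kinds; `funext`,
`split_ifs`, `ring` (unfold `fox`, `cop`).
* `cop_fst`: `run_map` with `φ = Prod.fst`.
* `cop_run_lin`: the coefficient `chi ψ (..)` of a crossing only depends on the colours
  (first components), which are the same for all three runs.
* `cop_zero_ok`: `ok_map` for `φ x = (x, 0)`, a homomorphism from `fox` to `cop ψ`, and for
  `φ = Prod.fst` backwards; `cop_zero_run`: `run_map`.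
* `cop_const`: induction on `w` with `m` general: as long as all strands `< m` and all cups have
  the first component `κ`, the crossings act on the second components by
  `chi ψ 0 * y - x = 2 * y - x`.  In a typed word only strands `< m` take part.
-/

namespace Pool.Agent.Work.MP_3edda8_gt

private theorem ins2_lin_pf {R : Type} [CommRing R] (i : ℕ) (c c' a b : R) (s s' : ℕ → R) :
    ins2 i (a * c + b * c') (fun j => a * s j + b * s' j) =
      fun j => a * ins2 i c s j + b * ins2 i c' s' j := by
  funext j
  simp only [ins2]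
  split_ifs <;> rfl

private theorem del2_lin_pf {R : Type} [CommRing R] (i : ℕ) (a b : R) (s s' : ℕ → R) :
    del2 i (fun j => a * s j + b * s' j) = fun j => a * del2 i s j + b * del2 i s' j := by
  funext j
  simp only [del2]
  split_ifs <;> rfl

private theorem crP_lin_pf {R : Type} [CommRing R] (i : ℕ) (a b : R) (s s' : ℕ → R) :
    crP fox i (fun j => a * s j + b * s' j) =
      fun j => a * crP fox i s j + b * crP fox i s' j := by
  funext j
  simp only [crP, fox]
  split_ifs
  · rfl
  · ring
  · rfl

private theorem crN_lin_pf {R : Type} [CommRing R] (i : ℕ) (a b : R) (s s' : ℕ → R) :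
    crN fox i (fun j => a * s j + b * s' j) =
      fun j => a * crN fox i s j + b * crN fox i s' j := by
  funext j
  simp only [crN, fox]
  split_ifs
  · ring
  · rfl
  · rfl

theorem fox_run_lin {R : Type} [CommRing R] (w : List Ev) (s s' c c' : ℕ → R) (a b : R) :
    run fox w (fun j => a * s j + b * s' j) (fun n => a * c n + b * c' n) =
      fun j => a * run fox w s c j + b * run fox w s' c' j := by
  induction w generalizing s s' c c' with
  | nil => rfl
  | cons e w ih =>
    rcases e with ⟨_ | _ | _ | _, i⟩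
    · simp only [run]
      rw [ins2_lin_pf]
      exact ih _ _ (fun n => c (n + 1)) (fun n => c' (n + 1))
    · simp only [run]
      rw [del2_lin_pf]
      exact ih _ _ _ _
    · simp only [run]
      rw [crP_lin_pf]
      exact ih _ _ _ _
    · simp only [run]
      rw [crN_lin_pf]
      exact ih _ _ _ _

theorem fox_ok_lin {R : Type} [CommRing R] (w : List Ev) (s s' c c' : ℕ → R) (a b : R)
    (h : ok fox w s c) (h' : ok fox w s' c') :
    ok fox w (fun j => a * s j + b * s' j) (fun n => a * c n + b * c' n) := by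
  induction w generalizing s s' c c' with
  | nil => trivial
  | cons e w ih =>
    rcases e with ⟨_ | _ | _ | _, i⟩
    · simp only [ok] at h h' ⊢
      rw [ins2_lin_pf]
      exact ih _ _ (fun n => c (n + 1)) (fun n => c' (n + 1)) h h'
    · simp only [ok] at h h' ⊢
      refine ⟨by rw [h.1, h'.1], ?_⟩
      rw [del2_lin_pf]
      exact ih _ _ _ _ h.2 h'.2
    · simp only [ok] at h h' ⊢
      rw [crP_lin_pf]
      exact ih _ _ _ _ h h'
    · simp only [ok] at h h' ⊢
      rw [crN_lin_pf]
      exact ih _ _ _ _ h h'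

variable {p : ℕ} {R : Type} [CommRing R] (ψ : AddChar (ZMod p) R)

theorem cop_fst (w : List Ev) (s c : ℕ → ZMod p × R) (j : ℕ) :
    (run (cop ψ) w s c j).1 = run fox w (fun j => (s j).1) (fun n => (c n).1) j :=
  congrFun (run_map (cop ψ) fox Prod.fst (fun _ _ => rfl) w s c) j

theorem cop_ok_fst (w : List Ev) (s c : ℕ → ZMod p × R) (h : ok (cop ψ) w s c) :
    ok fox w (fun j => (s j).1) (fun n => (c n).1) :=
  ok_map (cop ψ) fox Prod.fst (fun _ _ => rfl) w s c h

private theorem cop_lin_pf (w : List Ev) (s s' t c c' e : ℕ → ZMod p × R) (a b : R)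
    (hs : ∀ j, (s' j).1 = (s j).1 ∧ (t j).1 = (s j).1 ∧ (t j).2 = a * (s j).2 + b * (s' j).2)
    (hc : ∀ j, (c' j).1 = (c j).1 ∧ (e j).1 = (c j).1 ∧ (e j).2 = a * (c j).2 + b * (c' j).2) :
    (∀ j, (run (cop ψ) w t e j).2 =
      a * (run (cop ψ) w s c j).2 + b * (run (cop ψ) w s' c' j).2) ∧
    (ok (cop ψ) w s c → ok (cop ψ) w s' c' → ok (cop ψ) w t e) := by
  induction w generalizing s s' t c c' e with
  | nil => exact ⟨fun j => (hs j).2.2, fun _ _ => trivial⟩
  | cons ev w ih =>
    rcases ev with ⟨_ | _ | _ | _, i⟩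
    · simp only [run, ok]
      refine ih _ _ _ _ _ _ (fun j => ?_) (fun j => hc (j + 1))
      simp only [ins2]
      split_ifs
      · exact hs j
      · exact hc 0
      · exact hs (j - 2)
    · simp only [run, ok]
      have h1 := ih (del2 i s) (del2 i s') (del2 i t) c c' e (fun j => by
        simp only [del2]
        split_ifs
        · exact hs j
        · exact hs (j + 2)) hc
      refine ⟨h1.1, fun h h' => ⟨?_, h1.2 h.2 h'.2⟩⟩
      apply Prod.ext
      · rw [(hs i).2.1, (hs (i + 1)).2.1, h.1]
      · rw [(hs i).2.2, (hs (i + 1)).2.2, h.1, h'.1]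
    · simp only [run, ok]
      refine ih _ _ _ _ _ _ (fun j => ?_) hc
      simp only [crP, cop]
      split_ifs
      · exact hs (i + 1)
      · obtain ⟨h1, h2, h3⟩ := hs i
        obtain ⟨h4, h5, h6⟩ := hs (i + 1)
        refine ⟨by simp only [h1, h4], by simp only [h2, h5], ?_⟩
        simp only [h1, h2, h3, h4, h5, h6]
        ring
      · exact hs j
    · simp only [run, ok]
      refine ih _ _ _ _ _ _ (fun j => ?_) hc
      simp only [crN, cop]
      split_ifs
      · obtain ⟨h1, h2, h3⟩ := hs i
        obtain ⟨h4, h5, h6⟩ := hs (i + 1)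
        refine ⟨by simp only [h1, h4], by simp only [h2, h5], ?_⟩
        simp only [h1, h2, h3, h4, h5, h6]
        ring
      · exact hs i
      · exact hs j

theorem cop_run_lin (w : List Ev) (α γ : ℕ → ZMod p) (x x' d d' : ℕ → R) (a b : R) (j : ℕ) :
    (run (cop ψ) w (fun j => (α j, a * x j + b * x' j)) (fun n => (γ n, a * d n + b * d' n)) j).2 =
      a * (run (cop ψ) w (fun j => (α j, x j)) (fun n => (γ n, d n)) j).2 +
      b * (run (cop ψ) w (fun j => (α j, x' j)) (fun n => (γ n, d' n)) j).2 :=
  (cop_lin_pf ψ w (fun j => (α j, x j)) (fun j => (α j, x' j))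
    (fun j => (α j, a * x j + b * x' j)) (fun n => (γ n, d n)) (fun n => (γ n, d' n))
    (fun n => (γ n, a * d n + b * d' n)) a b (fun _ => ⟨rfl, rfl, rfl⟩)
    (fun _ => ⟨rfl, rfl, rfl⟩)).1 j

theorem cop_ok_lin (w : List Ev) (α γ : ℕ → ZMod p) (x x' d d' : ℕ → R) (a b : R)
    (h : ok (cop ψ) w (fun j => (α j, x j)) (fun n => (γ n, d n)))
    (h' : ok (cop ψ) w (fun j => (α j, x' j)) (fun n => (γ n, d' n))) :
    ok (cop ψ) w (fun j => (α j, a * x j + b * x' j)) (fun n => (γ n, a * d n + b * d' n)) :=
  (cop_lin_pf ψ w (fun j => (α j, x j)) (fun j => (α j, x' j))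
    (fun j => (α j, a * x j + b * x' j)) (fun n => (γ n, d n)) (fun n => (γ n, d' n))
    (fun n => (γ n, a * d n + b * d' n)) a b (fun _ => ⟨rfl, rfl, rfl⟩)
    (fun _ => ⟨rfl, rfl, rfl⟩)).2 h h'

theorem cop_zero_run (w : List Ev) (α γ : ℕ → ZMod p) :
    run (cop ψ) w (fun j => (α j, 0)) (fun n => (γ n, 0)) = fun j => (run fox w α γ j, 0) :=
  (run_map fox (cop ψ) (fun x : ZMod p => ((x, 0) : ZMod p × R))
    (fun x y => by simp [cop, fox]) w α γ).symm

theorem cop_zero_ok (w : List Ev) (α γ : ℕ → ZMod p) :
    ok (cop ψ) w (fun j => (α j, 0)) (fun n => (γ n, 0)) ↔ ok fox w α γ :=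
  ⟨fun h => cop_ok_fst ψ w _ _ h,
    fun h => ok_map fox (cop ψ) (fun x : ZMod p => ((x, 0) : ZMod p × R))
      (fun x y => by simp [cop, fox]) w α γ h⟩

private theorem cop_same_pf (κ : ZMod p) (u v : R) : cop ψ (κ, u) (κ, v) = (κ, fox u v) := by
  simp only [cop, fox, chi]
  apply Prod.ext
  · show 2 * κ - κ = κ
    ring
  · show (ψ (κ - κ) + ψ (-(κ - κ))) * v - u = 2 * v - u
    rw [sub_self, neg_zero, AddChar.map_zero_eq_one]
    ring

theorem cop_const {w : List Ev} {m k : ℕ} (h : Typed w m k) (κ : ZMod p)
    (s : ℕ → ZMod p × R) (x : ℕ → R) (hs : ∀ j < m, s j = (κ, x j))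
    (c : ℕ → ZMod p × R) (d : ℕ → R) (hc : ∀ n < cups w, c n = (κ, d n)) :
    (ok (cop ψ) w s c ↔ ok fox w x d) ∧
    ∀ j < k, run (cop ψ) w s c j = (κ, run fox w x d j) := by
  induction w generalizing m s x c d with
  | nil =>
    simp only [Typed] at h
    subst h
    exact ⟨Iff.rfl, hs⟩
  | cons e w ih =>
    obtain ⟨h1, h2⟩ := h
    rcases e with ⟨_ | _ | _ | _, i⟩
    · simp only [Kind.inp, Kind.out] at h1 h2
      simp only [run, ok]
      refine ih h2 _ _ (fun j hj => ?_) _ _ (fun n hn => hc (n + 1) (by simp only [cups]; omega))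
      simp only [ins2]
      split_ifs
      · exact hs j (by omega)
      · exact hc 0 (by simp only [cups]; omega)
      · exact hs (j - 2) (by omega)
    · simp only [Kind.inp, Kind.out] at h1 h2
      simp only [run, ok]
      have h3 := ih h2 (del2 i s) (del2 i x) (fun j hj => by
        simp only [del2]
        split_ifs
        · exact hs j (by omega)
        · exact hs (j + 2) (by omega)) c d (fun n hn => hc n (by simpa only [cups] using hn))
      refine ⟨?_, h3.2⟩
      rw [h3.1, hs i (by omega), hs (i + 1) (by omega)]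
      refine and_congr ?_ Iff.rfl
      constructor
      · intro h4
        exact congrArg Prod.snd h4
      · intro h4
        rw [h4]
    · simp only [Kind.inp, Kind.out] at h1 h2
      simp only [run, ok]
      refine ih h2 _ _ (fun j hj => ?_) _ _ (fun n hn => hc n (by simpa only [cups] using hn))
      simp only [crP]
      split_ifs
      · exact hs (i + 1) (by omega)
      · rw [hs i (by omega), hs (i + 1) (by omega)]
        exact cop_same_pf ψ κ _ _
      · exact hs j (by omega)
    · simp only [Kind.inp, Kind.out] at h1 h2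
      simp only [run, ok]
      refine ih h2 _ _ (fun j hj => ?_) _ _ (fun n hn => hc n (by simpa only [cups] using hn))
      simp only [crN]
      split_ifs
      · rw [hs i (by omega), hs (i + 1) (by omega)]
        exact cop_same_pf ψ κ _ _
      · exact hs i (by omega)
      · exact hs j (by omega)

end Pool.Agent.Work.MP_3edda8_gt
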