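import Pool.Agent.Work.MP_3edda8_gt.SK.PersDef
import Pool.Agent.Work.MP_3edda8_gt.SK.Lin
import Pool.Agent.Work.MP_3edda8_gt.SK.Count

/-!
MODULE Sing (M): a diagram containing a persistent tangle has at least `p ^ 2` colourings.

PROOF.  Let `K = u ++ sh a T ++ v`, `c` from `Pers` (without loss of generality `c t = 0` for
`t ≥ cups T`: `run_congr`, `ok_congr`).
* For `x y : ZMod p` let `g x y n = x * e n + y * z n` where `e n = 1` for `n < cups K`, `0`
  otherwise, and `z = repl (cups u) (cups T) (fun _ => 0) c`.  `e` is a colouring (`const_word`,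
  the constant colour `1`), `z` is a colouring (`repl_ok` applied to the zero colouring: the zero
  state stays zero, `fox_run_lin` with coefficients `0`, or `const_word`), so `g x y ∈ Col fox 0 K`
  by `fox_ok_lin` (base state `0 = x * 0 + y * 0`).
* `g` is injective: if `g x y = g x' y'`, then the states after `u ++ sh a T` are equal; the strand
  `a` of this level (first end point of `T`, there are `2 n ≥ 2`) has colour `x` resp. `x'`
  (`run_append`, `tangle_run`, `fox_run_lin`: on `T` the colouring is `x * 1 + y * c`, with boundary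
  `x`).  So `x = x'` and then `y * c t = y' * c t` with `c t ≠ 0`.
  (Simpler: restrict `g x y` to `T`: `fun n => x * 1 + y * c n` on the cups of `T`, and take
  `run fox T (fun _ => 0) _ 0`.)
* `pers_num`: `p ^ 2 = card (ZMod p × ZMod p) ≤ ncard Col` (`Set.ncard_le_ncard`,
  `Set.ncard_image_of_injective` / `Set.ncard_range..`, `col_finite`).
* `pers_col`: if the number is `≤ p ^ 2` then `Col` is the range of `g` (finite sets,
  `Set.eq_of_subset_of_ncard_le`), and `κ = x` for `f = g x y`: outside of `T` the value is `x`,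
  the boundary value of the restriction to `T` is `x`.
-/

namespace Pool.Agent.Work.MP_3edda8_gt

private def sgG {p : ℕ} (U C N : ℕ) (c : ℕ → ZMod p) (xy : ZMod p × ZMod p) (n : ℕ) : ZMod p :=
  if n < N then xy.1 + xy.2 * (if U ≤ n ∧ n < U + C then c (n - U) else 0) else 0

private theorem sg_idem {p : ℕ} (x : ZMod p) : fox x x = x := by
  unfold fox
  ring

private theorem sg_mem {p n : ℕ} {u T v : List Ev} {a : ℕ}
    (hT : Typed T 0 (2 * n)) (hK : Typed (u ++ sh a T ++ v) 0 0) {c : ℕ → ZMod p}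
    (h1 : ok fox T (fun _ => 0) c) (h2 : ∀ j < 2 * n, run fox T (fun _ => 0) c j = 0)
    (xy : ZMod p × ZMod p) :
    sgG (cups u) (cups T) (cups (u ++ sh a T ++ v)) c xy ∈
      Col fox (0 : ZMod p) (u ++ sh a T ++ v) := by
  refine ⟨fun m hm => ?_, ?_⟩
  · unfold sgG
    rw [if_neg (by omega)]
  · have e1 : ok fox (u ++ sh a T ++ v) (fun _ => (0 : ZMod p)) (fun _ => 1) :=
      (const_word fox hK (1 : ZMod p) (sg_idem 1) (fun _ => 0) (fun _ => 1)
        (fun j hj => absurd hj (Nat.not_lt_zero _)) (fun _ _ => rfl)).1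
    have e0 : ok fox (u ++ sh a T ++ v) (fun _ => (0 : ZMod p)) (fun _ => 0) :=
      (const_word fox hK (0 : ZMod p) (sg_idem 0) (fun _ => 0) (fun _ => 0)
        (fun j hj => absurd hj (Nat.not_lt_zero _)) (fun _ _ => rfl)).1
    have e2 : ∀ j < 2 * n, run fox T (fun _ => (0 : ZMod p)) (fun _ => 0) j = 0 :=
      (const_word fox hT (0 : ZMod p) (sg_idem 0) (fun _ => 0) (fun _ => 0)
        (fun j hj => absurd hj (Nat.not_lt_zero _)) (fun _ _ => rfl)).2
    have e3 := repl_ok fox hT a (fun _ => (0 : ZMod p)) (fun _ => 0) (fun _ => 0) c e0 h1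
      (fun j hj => by rw [h2 j hj, e2 j hj])
    have e4 := fox_ok_lin (u ++ sh a T ++ v) (fun _ => (0 : ZMod p)) (fun _ => 0) (fun _ => 1)
      (repl (cups u) (cups T) (fun _ => 0) c) xy.1 xy.2 e1 e3
    have e5 : (fun _ : ℕ => xy.1 * (0 : ZMod p) + xy.2 * 0) = fun _ => 0 := by
      funext j
      ring
    rw [e5] at e4
    refine (ok_congr fox _ _ _ _ fun m hm => ?_).1 e4
    unfold sgG repl
    rw [if_pos hm, mul_one]

private theorem sg_bd {p n : ℕ} {T : List Ev} (hT : Typed T 0 (2 * n)) {c : ℕ → ZMod p}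
    (h2 : ∀ j < 2 * n, run fox T (fun _ => 0) c j = 0) (U N : ℕ) (hN : U + cups T ≤ N)
    (xy : ZMod p × ZMod p) (j : ℕ) (hj : j < 2 * n) :
    run fox T (fun _ => 0) (fun t => sgG U (cups T) N c xy (U + t)) j = xy.1 := by
  have e1 : ∀ j < 2 * n, run fox T (fun _ => (0 : ZMod p)) (fun _ => 1) j = 1 :=
    (const_word fox hT (1 : ZMod p) (sg_idem 1) (fun _ => 0) (fun _ => 1)
      (fun j hj => absurd hj (Nat.not_lt_zero _)) (fun _ _ => rfl)).2
  have e2 : run fox T (fun _ => 0) (fun t => sgG U (cups T) N c xy (U + t)) =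
      run fox T (fun _ => 0) (fun t => xy.1 * 1 + xy.2 * c t) := by
    refine run_congr fox T _ _ _ fun m hm => ?_
    unfold sgG
    rw [if_pos (by omega), if_pos (by omega), mul_one, Nat.add_sub_cancel_left]
  have e3 := fox_run_lin T (fun _ => (0 : ZMod p)) (fun _ => 0) (fun _ => 1) c xy.1 xy.2
  have e5 : (fun _ : ℕ => xy.1 * (0 : ZMod p) + xy.2 * 0) = fun _ => 0 := by
    funext j
    ring
  rw [e5] at e3
  rw [e2, e3]
  simp only
  rw [e1 j hj, h2 j hj]
  ring

private theorem sg_inj {p n : ℕ} [Fact p.Prime] (hn : 1 ≤ n) {T : List Ev}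
    (hT : Typed T 0 (2 * n)) {c : ℕ → ZMod p}
    (h2 : ∀ j < 2 * n, run fox T (fun _ => 0) c j = 0) (h3 : ∃ t < cups T, c t ≠ 0)
    (U N : ℕ) (hN : U + cups T ≤ N) : Function.Injective (sgG U (cups T) N c) := by
  intro xy xy' h
  have hx : xy.1 = xy'.1 := by
    have e1 := sg_bd hT h2 U N hN xy 0 (by omega)
    have e2 := sg_bd hT h2 U N hN xy' 0 (by omega)
    rw [← e1, ← e2, h]
  obtain ⟨t, ht, hct⟩ := h3
  have hy : xy.2 = xy'.2 := by
    have e1 := congrFun h (U + t)
    unfold sgG at e1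
    rw [if_pos (by omega), if_pos (by omega), if_pos (by omega), Nat.add_sub_cancel_left, hx] at e1
    exact mul_right_cancel₀ hct (add_left_cancel e1)
  exact Prod.ext hx hy

private theorem sg_card {p n : ℕ} [Fact p.Prime] (hn : 1 ≤ n) {T : List Ev}
    (hT : Typed T 0 (2 * n)) {c : ℕ → ZMod p}
    (h2 : ∀ j < 2 * n, run fox T (fun _ => 0) c j = 0) (h3 : ∃ t < cups T, c t ≠ 0)
    (U N : ℕ) (hN : U + cups T ≤ N) : (Set.range (sgG U (cups T) N c)).ncard = p ^ 2 := by
  rw [← Set.image_univ, Set.ncard_image_of_injective _ (sg_inj hn hT h2 h3 U N hN),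
    Set.ncard_univ, Nat.card_prod, Nat.card_zmod, sq]

theorem pers_num {p n : ℕ} [Fact p.Prime] (hn : 1 ≤ n) {u T v : List Ev} {a : ℕ}
    (hT : Typed T 0 (2 * n)) (hK : Typed (u ++ sh a T ++ v) 0 0) (hP : Pers p n T) :
    p ^ 2 ≤ num fox (0 : ZMod p) (u ++ sh a T ++ v) := by
  obtain ⟨c, h1, h2, h3⟩ := hP
  have hN : cups u + cups T ≤ cups (u ++ sh a T ++ v) := by
    rw [cups_append, cups_append, cups_sh]
    omega
  rw [← sg_card hn hT h2 h3 (cups u) _ hN]
  refine Set.ncard_le_ncard ?_ (col_finite fox 0 _)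
  rintro _ ⟨xy, rfl⟩
  exact sg_mem hT hK h1 h2 xy

theorem pers_col {p n : ℕ} [Fact p.Prime] (hn : 1 ≤ n) {u T v : List Ev} {a : ℕ}
    (hT : Typed T 0 (2 * n)) (hK : Typed (u ++ sh a T ++ v) 0 0) (hP : Pers p n T)
    (hle : num fox (0 : ZMod p) (u ++ sh a T ++ v) ≤ p ^ 2) (f : ℕ → ZMod p)
    (hf : f ∈ Col fox (0 : ZMod p) (u ++ sh a T ++ v)) :
    ∃ κ, (∀ t < cups u, f t = κ) ∧ (∀ t < cups v, f (cups u + cups T + t) = κ) ∧
      ∀ j < 2 * n, run fox T (fun _ => 0) (fun t => f (cups u + t)) j = κ := by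
  obtain ⟨c, h1, h2, h3⟩ := hP
  have hN' : cups (u ++ sh a T ++ v) = cups u + cups T + cups v := by
    rw [cups_append, cups_append, cups_sh]
  have hN : cups u + cups T ≤ cups (u ++ sh a T ++ v) := by
    rw [hN']
    omega
  have hcard := sg_card hn hT h2 h3 (cups u) _ hN
  have hsub : Set.range (sgG (cups u) (cups T) (cups (u ++ sh a T ++ v)) c) ⊆
      Col fox (0 : ZMod p) (u ++ sh a T ++ v) := by
    rintro _ ⟨xy, rfl⟩
    exact sg_mem hT hK h1 h2 xy
  have heq := Set.eq_of_subset_of_ncard_le hsub (by rw [hcard]; exact hle) (col_finite fox 0 _)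
  rw [← heq] at hf
  obtain ⟨xy, rfl⟩ := hf
  refine ⟨xy.1, fun t ht => ?_, fun t ht => ?_, fun j hj => sg_bd hT h2 _ _ hN xy j hj⟩
  · unfold sgG
    rw [if_pos (by omega), if_neg (by omega)]
    ring
  · unfold sgG
    rw [if_pos (by omega), if_neg (by omega)]
    ring

end Pool.Agent.Work.MP_3edda8_gt
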