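import Pool.Agent.Work.MP_3edda8_gt.SK.IsoB
import Pool.Agent.Work.MP_3edda8_gt.SK.Sing

/-!
MODULE BdCard (M): the boundary values of the lifts of a fixed colouring form an isotropic space.

PROOF.  Let `K = u ++ sh a S ++ v`, `Typed u 0 W`, `a ≤ W`, `Typed v (W + 2 N) 0`
(`typed_append`, `typed_sh_iff`).  `pers_col` gives `κ`: all colours of `f` outside of `S` and on
the boundary of `S` are `κ`.  For `d : ℕ → ZMod q` with `fun n => (f n, d n)` a lift (`ok` on `K`,
`d n = 0` for `n ≥ cups K`) let `β_d j` be the second component of the state of `S` at `j < 2 N`.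
The set of these `d` is closed under linear combinations (`cop_ok_lin`) and contains `0`
(`cop_zero_ok`), and `β` is linear (`cop_run_lin`), so the `β_d` (as vectors
`Fin (2 N) → ZMod q`) form a `Submodule` `V`; the set of the theorem is this `V`.
`V` is isotropic: let `d1`, `d2` be two lifts.  As in ThinA: by `glue_iff` and `cop_const` the
second components on `u` and on `v` are `fox` colourings: with `s_i = run fox u 0 d_i` (only
`j < W` matters), `ok fox u 0 d_i`, and `ok fox v (insN a (2 N) β_i s_i) (d_i shifted)`.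
`alt_run` for `u`: `alt s_i W = 0`; for `v`: `alt (insN ..) (W + 2 N) = alt _ 0 = 0`, so
`alt β_i (2 N) = 0` by `alt_insN`.  `omg_run` for `u`: `omg W s_1 s_2 = 0`; for `v`:
`omg (W + 2 N) (insN .. β_1 s_1) (insN .. β_2 s_2) = 0`; by `omg_insN`
`omg (2 N) β_1 β_2 = 0`.  (`omg 0 = 0`, empty sum.)  `isotropic_card` finishes; `extz` and the
actual state agree for `j < 2 N` (`omg_congr`).
-/

namespace Pool.Agent.Work.MP_3edda8_gt

theorem bd_card {p q N : ℕ} [Fact p.Prime] [Fact q.Prime] (ψ : AddChar (ZMod p) (ZMod q))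
    (hN : 1 ≤ N) {u S v : List Ev} {a : ℕ} (hS : Typed S 0 (2 * N))
    (hK : Typed (u ++ sh a S ++ v) 0 0) (hP : Pers p N S)
    (hp : num fox (0 : ZMod p) (u ++ sh a S ++ v) ≤ p ^ 2) (f : ℕ → ZMod p)
    (hf : f ∈ Col fox (0 : ZMod p) (u ++ sh a S ++ v)) :
    {β : Fin (2 * N) → ZMod q | ∃ g ∈ Col (cop ψ) (0, 0) (u ++ sh a S ++ v),
      (∀ n, (g n).1 = f n) ∧ ∀ j : Fin (2 * N),
        β j = (run (cop ψ) S (fun _ => (0, 0)) (fun n => g (cups u + n)) j).2}.ncard ≤ q ^ N := by
  classical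
  obtain ⟨l, hl1, hTv⟩ := typed_append.1 hK
  obtain ⟨W, hTu, hTs⟩ := typed_append.1 hl1
  obtain ⟨haW, rfl⟩ := (typed_sh_iff hS hN a W l).1 hTs
  obtain ⟨κ, hκu, hκv, hκS⟩ := pers_col hN hS hK hP hp f hf
  let L : (ℕ → ZMod q) → Prop := fun d => (∀ n, cups (u ++ sh a S ++ v) ≤ n → d n = 0) ∧
    ok (cop ψ) (u ++ sh a S ++ v) (fun _ => (0, 0)) (fun n => (f n, d n))
  let β : (ℕ → ZMod q) → ℕ → ZMod q := fun d j =>
    (run (cop ψ) S (fun _ => (0, 0)) (fun n => (f (cups u + n), d (cups u + n))) j).2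
  have e0 : ∀ x y : ZMod q,
      (fun _ : ℕ => ((0 : ZMod p), x * (0 : ZMod q) + y * 0)) = fun _ => (0, 0) := by
    intro x y
    funext _
    rw [mul_zero, mul_zero, add_zero]
  have hlin : ∀ (x y : ZMod q) (d d' : ℕ → ZMod q), L d → L d' →
      L (fun n => x * d n + y * d' n) := by
    intro x y d d' h h'
    refine ⟨?_, ?_⟩
    · intro n hn
      show x * d n + y * d' n = 0
      rw [h.1 n hn, h'.1 n hn]
      ring
    · have h3 := cop_ok_lin ψ (u ++ sh a S ++ v) (fun _ => 0) f (fun _ => 0)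
        (fun _ => 0) d d' x y h.2 h'.2
      rw [e0] at h3
      exact h3
  have hβ : ∀ (x y : ZMod q) (d d' : ℕ → ZMod q) (j : ℕ),
      β (fun n => x * d n + y * d' n) j = x * β d j + y * β d' j := by
    intro x y d d' j
    have h1 := cop_run_lin ψ S (fun _ => 0) (fun n => f (cups u + n)) (fun _ => 0)
      (fun _ => 0) (fun n => d (cups u + n)) (fun n => d' (cups u + n)) x y j
    rw [e0] at h1
    exact h1
  have h0 : L (fun _ => 0) :=
    ⟨fun _ _ => rfl, (cop_zero_ok ψ (u ++ sh a S ++ v) (fun _ => 0) f).2 hf.2⟩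
  let V : Submodule (ZMod q) (Fin (2 * N) → ZMod q) :=
    { carrier := {b | ∃ d, L d ∧ ∀ j : Fin (2 * N), b j = β d j}
      add_mem' := by
        rintro b b' ⟨d, hd, hb⟩ ⟨d', hd', hb'⟩
        refine ⟨fun n => 1 * d n + 1 * d' n, hlin 1 1 d d' hd hd', fun j => ?_⟩
        rw [hβ, Pi.add_apply, hb, hb']
        ring
      zero_mem' := by
        refine ⟨fun _ => 0, h0, fun j => ?_⟩
        show 0 = (run (cop ψ) S (fun _ => (0, 0)) (fun n => (f (cups u + n), 0)) j).2
        have h1 := cop_zero_run ψ S (fun _ => 0) (fun n => f (cups u + n))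
        rw [h1]
      smul_mem' := by
        rintro x b ⟨d, hd, hb⟩
        refine ⟨fun n => x * d n + 0 * d n, hlin x 0 d d hd hd, fun j => ?_⟩
        rw [hβ, Pi.smul_apply, hb, smul_eq_mul]
        ring }
  have hset : {b : Fin (2 * N) → ZMod q | ∃ g ∈ Col (cop ψ) (0, 0) (u ++ sh a S ++ v),
      (∀ n, (g n).1 = f n) ∧ ∀ j : Fin (2 * N),
        b j = (run (cop ψ) S (fun _ => (0, 0)) (fun n => g (cups u + n)) j).2} =
      (V : Set (Fin (2 * N) → ZMod q)) := by
    ext b
    constructor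
    · rintro ⟨g, hg, hgf, hgb⟩
      have hge : g = fun n => (f n, (g n).2) := by
        funext n
        exact Prod.ext (hgf n) rfl
      refine ⟨fun n => (g n).2, ⟨fun n hn => ?_, ?_⟩, fun j => ?_⟩
      · show (g n).2 = 0
        rw [hg.1 n hn]
      · have h1 := hg.2
        rw [hge] at h1
        exact h1
      · rw [hgb j]
        show _ = (run (cop ψ) S (fun _ => (0, 0))
          (fun n => (f (cups u + n), (g (cups u + n)).2)) j).2
        have h2 : (fun n => (f (cups u + n), (g (cups u + n)).2)) =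
            fun n => g (cups u + n) := by
          funext n
          exact Prod.ext (hgf _).symm rfl
        rw [h2]
    · rintro ⟨d, hd, hb⟩
      refine ⟨fun n => (f n, d n), ⟨fun n hn => ?_, hd.2⟩, fun n => rfl, fun j => hb j⟩
      show (f n, d n) = (0, 0)
      rw [hf.1 n hn, hd.1 n hn]
  have hpart : ∀ d, L d → ok fox u (fun _ => 0) d ∧
      ok fox v (insN a (2 * N) (β d) (run fox u (fun _ => 0) d))
        (fun n => d (cups u + cups S + n)) := by
    intro d hd
    obtain ⟨hDu, -, hDv⟩ :=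
      (glue_iff (cop ψ) hS a (fun _ => (0, 0)) (fun _ => (0, 0)) (fun n => (f n, d n))).1 hd.2
    obtain ⟨hu1, hu2⟩ := cop_const ψ hTu κ (fun _ => (0, 0)) (fun _ => 0)
      (fun j hj => absurd hj (Nat.not_lt_zero j)) (fun n => (f n, d n)) d
      (fun n hn => Prod.ext (hκu n hn) rfl)
    have hSrun : ∀ j < 2 * N, run (cop ψ) S (fun _ => (0, 0))
        (fun n => (f (cups u + n), d (cups u + n))) j = (κ, β d j) := by
      intro j hj
      refine Prod.ext ?_ rfl
      rw [cop_fst]
      exact hκS j hj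
    have hsv : ∀ j < W + 2 * N, insN a (2 * N) (run (cop ψ) S (fun _ => (0, 0))
        (fun n => (f (cups u + n), d (cups u + n))))
        (run (cop ψ) u (fun _ => (0, 0)) (fun n => (f n, d n))) j =
        (κ, insN a (2 * N) (β d) (run fox u (fun _ => 0) d) j) := by
      intro j hj
      unfold insN
      by_cases h1 : j < a
      · rw [if_pos h1, if_pos h1]
        exact hu2 j (by omega)
      · rw [if_neg h1, if_neg h1]
        by_cases h2 : j < a + 2 * N
        · rw [if_pos h2, if_pos h2]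
          exact hSrun (j - a) (by omega)
        · rw [if_neg h2, if_neg h2]
          exact hu2 (j - 2 * N) (by omega)
    obtain ⟨hv1, -⟩ := cop_const ψ hTv κ _ (insN a (2 * N) (β d) (run fox u (fun _ => 0) d)) hsv
      (fun n => (f (cups u + cups S + n), d (cups u + cups S + n)))
      (fun n => d (cups u + cups S + n)) (fun n hn => Prod.ext (hκv n hn) rfl)
    exact ⟨hu1.1 hDu, hv1.1 hDv⟩
  have hz : ∀ x : ℕ → ZMod q, alt x 0 = 0 := by
    intro x
    unfold alt
    rw [Finset.range_zero, Finset.sum_empty]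
  have hoz : ∀ x y : ℕ → ZMod q, omg 0 x y = 0 := by
    intro x y
    unfold omg
    rw [Finset.range_zero, Finset.sum_empty]
  have halt : ∀ d, L d → alt (β d) (2 * N) = 0 := by
    intro d hd
    obtain ⟨h1, h2⟩ := hpart d hd
    have h3 := alt_run hTu _ _ h1
    have h4 := alt_run hTv _ _ h2
    rw [hz] at h3 h4
    rw [alt_insN haW, h3, zero_add] at h4
    have h5 : ((-1 : ZMod q) ^ a) * (-1) ^ a = 1 := by
      rw [← mul_pow]
      simp
    calc alt (β d) (2 * N) = (((-1 : ZMod q) ^ a) * (-1) ^ a) * alt (β d) (2 * N) := by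
          rw [h5, one_mul]
      _ = (-1) ^ a * ((-1) ^ a * alt (β d) (2 * N)) := by ring
      _ = 0 := by rw [← h4, mul_zero]
  rw [hset, ← Nat.card_coe_set_eq]
  refine isotropic_card V ?_
  rintro x ⟨d1, hd1, hx⟩ y ⟨d2, hd2, hy⟩
  obtain ⟨h1, h2⟩ := hpart d1 hd1
  obtain ⟨h3, h4⟩ := hpart d2 hd2
  have h5 := omg_run hTu _ _ _ _ h1 h3
  have h6 := omg_run hTv _ _ _ _ h2 h4
  rw [hoz] at h5 h6
  rw [omg_insN haW _ _ _ _ (halt d1 hd1) (halt d2 hd2), h5, zero_add] at h6
  rw [omg_congr (extz x) (β d1) (extz y) (β d2) ?_ ?_, ← h6]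
  · intro j hj
    unfold extz
    rw [dif_pos hj]
    exact hx ⟨j, hj⟩
  · intro j hj
    unfold extz
    rw [dif_pos hj]
    exact hy ⟨j, hj⟩

end Pool.Agent.Work.MP_3edda8_gt
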