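import Pool.Agent.Work.MP_3edda8_gt.SK.Loc

/-!
MODULE KnotIff (M): connectedness of a diagram in terms of colourings by the trivial kei.

PROOF.
* `knot_const`: let `κ : Q` and `f t j := decide (run tri (D.take t) (fun _ => b) c j = κ)`
  (classical).  `IsLabelling D f`: `D.take (t+1) = D.take t ++ [D[t]]`, `run_append`, and for the
  single event look at `ins2`, `del2`, `crP`, `crN` (`tri x y = x`; for the cap the condition is
  part of `ok`, use `ok_append` for `D = D.take t ++ D[t] :: ..`).  If the `n`-th cup is the event
  with index `t` then the strand `D[t].loc` at level `t + 1` has colour `c n` and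
  `D[t].loc < width (D.take (t+1)) 0` (typed).  (Existence of such a `t` for `n < cups D`:
  induction on the word, or `n = cups (D.take t)`.)  Now `connected` for `κ = c n'` gives
  `c n = c n'`.
* `isKnot_of`: let `f` be a labelling.  Define `c n` as the value of `f` at the `n`-th cup, that
  is: for the cup with index `t` and `n = cups (D.take t)` put `c n = f (t+1) D[t].loc`
  (for instance by `Classical` choice or by `Nat.find`; or do an induction on suffixes: for a
  typed word `w` from `m` strands and a labelling `f` of `w`, for every state `s` with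
  `s j = f 0 j` for `j < m` there is `c` such that `ok tri w s c` and
  `run tri (w.take t) s c j = f t j` for all `t` and all `j < width (w.take t) m`; this induction
  is easy: shift `f` by one level).  Then all `c n`, `n < cups D`, are equal, say `κ` and
  `const_word` applied to `D.take t` (typed from `0` to `width (D.take t) 0`) gives
  `f t j = κ` for all `j < width (D.take t) 0`.  (If `D` has no cup then all widths are `0`.)
-/

namespace Pool.Agent.Work.MP_3edda8_gt

variable {Q : Type}

private theorem cup_at (w : List Ev) (n : ℕ) (h : n < cups w) :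
    ∃ u i v, w = u ++ ⟨.cup, i⟩ :: v ∧ cups u = n := by
  induction w generalizing n with
  | nil => exact absurd h (Nat.not_lt_zero _)
  | cons e w ih =>
    rcases e with ⟨_ | _ | _ | _, i⟩
    · cases n with
      | zero => exact ⟨[], i, w, rfl, rfl⟩
      | succ n =>
        obtain ⟨u, i', v, h1, h2⟩ := ih n (by simp only [cups] at h; omega)
        exact ⟨⟨.cup, i⟩ :: u, i', v, by rw [h1]; rfl, by simp only [cups]; omega⟩
    · obtain ⟨u, i', v, h1, h2⟩ := ih n (by simpa only [cups] using h)
      exact ⟨⟨.cap, i⟩ :: u, i', v, by rw [h1]; rfl, by simp only [cups]; omega⟩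
    · obtain ⟨u, i', v, h1, h2⟩ := ih n (by simpa only [cups] using h)
      exact ⟨⟨.pos, i⟩ :: u, i', v, by rw [h1]; rfl, by simp only [cups]; omega⟩
    · obtain ⟨u, i', v, h1, h2⟩ := ih n (by simpa only [cups] using h)
      exact ⟨⟨.neg, i⟩ :: u, i', v, by rw [h1]; rfl, by simp only [cups]; omega⟩

private theorem label_step (g : Q → Bool) (e : Ev) (v : List Ev) (S c : ℕ → Q)
    (hok : ok tri (e :: v) S c) :
    LabelStep e (fun j => g (S j)) (fun j => g (run tri [e] S c j)) := by
  rcases e with ⟨_ | _ | _ | _, i⟩
  · refine ⟨?_, ?_, ?_⟩
    · intro j hj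
      have hj' : j < i := hj
      refine congrArg g ?_
      show ins2 i (c 0) S j = S j
      simp only [ins2]
      rw [if_pos hj']
    · intro j
      refine congrArg g ?_
      show ins2 i (c 0) S (i + 2 + j) = S (i + 0 + j)
      simp only [ins2]
      rw [if_neg (by omega), if_neg (by omega), show i + 2 + j - 2 = i + 0 + j by omega]
    · refine congrArg g ?_
      show ins2 i (c 0) S i = ins2 i (c 0) S (i + 1)
      simp only [ins2]
      rw [if_neg (by omega), if_pos (by omega), if_neg (by omega), if_pos (by omega)]
  · refine ⟨?_, ?_, ?_⟩
    · intro j hj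
      have hj' : j < i := hj
      refine congrArg g ?_
      show del2 i S j = S j
      simp only [del2]
      rw [if_pos hj']
    · intro j
      refine congrArg g ?_
      show del2 i S (i + 0 + j) = S (i + 2 + j)
      simp only [del2]
      rw [if_neg (by omega), show i + 0 + j + 2 = i + 2 + j by omega]
    · exact congrArg g hok.1
  · refine ⟨?_, ?_, ?_⟩
    · intro j hj
      have hj' : j < i := hj
      refine congrArg g ?_
      show crP tri i S j = S j
      simp only [crP]
      rw [if_neg (by omega), if_neg (by omega)]
    · intro j
      refine congrArg g ?_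
      show crP tri i S (i + 2 + j) = S (i + 2 + j)
      simp only [crP]
      rw [if_neg (by omega), if_neg (by omega)]
    · refine ⟨congrArg g ?_, congrArg g ?_⟩
      · show crP tri i S i = S (i + 1)
        simp [crP]
      · show crP tri i S (i + 1) = S i
        simp [crP, tri]
  · refine ⟨?_, ?_, ?_⟩
    · intro j hj
      have hj' : j < i := hj
      refine congrArg g ?_
      show crN tri i S j = S j
      simp only [crN]
      rw [if_neg (by omega), if_neg (by omega)]
    · intro j
      refine congrArg g ?_
      show crN tri i S (i + 2 + j) = S (i + 2 + j)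
      simp only [crN]
      rw [if_neg (by omega), if_neg (by omega)]
    · refine ⟨congrArg g ?_, congrArg g ?_⟩
      · show crN tri i S i = S (i + 1)
        simp [crN, tri]
      · show crN tri i S (i + 1) = S i
        simp [crN]

/-- every labelling comes from a colouring -/
private theorem lab_col (w : List Ev) (m k : ℕ) (hw : Typed w m k) (f : ℕ → ℕ → Bool)
    (hf : IsLabelling w f) (s : ℕ → Bool) (hs : ∀ j < m, s j = f 0 j) :
    ∃ c : ℕ → Bool, ok tri w s c ∧ ∀ t ≤ w.length, ∀ j < width (w.take t) m,
      run tri (w.take t) s c j = f t j := by
  induction w generalizing m f s with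
  | nil =>
    refine ⟨fun _ => false, trivial, ?_⟩
    intro t ht j hj
    have ht0 : t = 0 := by simpa using ht
    subst ht0
    exact hs j hj
  | cons e w ih =>
    have h0 : LabelStep e (f 0) (f 1) := hf 0 (by simp)
    have hf' : IsLabelling w (fun t => f (t + 1)) := by
      intro t ht
      exact hf (t + 1) (by simpa using ht)
    obtain ⟨h1, h2⟩ := hw
    rcases e with ⟨_ | _ | _ | _, i⟩
    · obtain ⟨l1, l2, l3⟩ := h0
      simp only [Kind.inp, Kind.out] at h1 h2 l1 l2 l3
      obtain ⟨c, c1, c2⟩ := ih (m - 0 + 2) h2 (fun t => f (t + 1)) hf' (ins2 i (f 1 i) s) (by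
        intro j hj
        simp only [ins2]
        by_cases a1 : j < i
        · rw [if_pos a1, l1 j a1]
          exact hs j (by omega)
        · rw [if_neg a1]
          by_cases a2 : j < i + 2
          · rw [if_pos a2]
            rcases (show j = i ∨ j = i + 1 by omega) with h | h
            · rw [h]
            · rw [h, ← l3]
          · rw [if_neg a2, hs _ (by omega)]
            have := l2 (j - 2 - i)
            rw [show i + 2 + (j - 2 - i) = j by omega,
              show i + 0 + (j - 2 - i) = j - 2 by omega] at this
            exact this.symm)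
      refine ⟨fun n => if n = 0 then f 1 i else c (n - 1), ?_, ?_⟩
      · simp only [ok]
        exact c1
      · intro t ht j hj
        cases t with
        | zero => exact hs j hj
        | succ t =>
          have := c2 t (by simpa using ht) j hj
          rw [← this]
          rfl
    · obtain ⟨l1, l2, l3⟩ := h0
      simp only [Kind.inp, Kind.out] at h1 h2 l1 l2 l3
      obtain ⟨c, c1, c2⟩ := ih (m - 2 + 0) h2 (fun t => f (t + 1)) hf' (del2 i s) (by
        intro j hj
        simp only [del2]
        by_cases a1 : j < i
        · rw [if_pos a1, l1 j a1]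
          exact hs j (by omega)
        · rw [if_neg a1, hs _ (by omega)]
          have := l2 (j - i)
          rw [show i + 0 + (j - i) = j by omega, show i + 2 + (j - i) = j + 2 by omega] at this
          exact this.symm)
      refine ⟨c, ⟨?_, c1⟩, ?_⟩
      · rw [hs i (by omega), hs (i + 1) (by omega)]
        exact l3
      · intro t ht j hj
        cases t with
        | zero => exact hs j hj
        | succ t => exact c2 t (by simpa using ht) j hj
    · obtain ⟨l1, l2, l3⟩ := h0
      simp only [Kind.inp, Kind.out] at h1 h2 l1 l2 l3
      obtain ⟨c, c1, c2⟩ := ih (m - 2 + 2) h2 (fun t => f (t + 1)) hf' (crP tri i s) (by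
        intro j hj
        simp only [crP, tri]
        by_cases a1 : j = i
        · rw [if_pos a1, hs _ (by omega), a1]
          exact l3.1.symm
        · rw [if_neg a1]
          by_cases a2 : j = i + 1
          · rw [if_pos a2, hs _ (by omega), a2]
            exact l3.2.symm
          · rw [if_neg a2, hs _ (by omega)]
            by_cases a3 : j < i
            · exact (l1 j a3).symm
            · have := l2 (j - 2 - i)
              rw [show i + 2 + (j - 2 - i) = j by omega] at this
              exact this.symm)
      refine ⟨c, c1, ?_⟩
      intro t ht j hj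
      cases t with
      | zero => exact hs j hj
      | succ t => exact c2 t (by simpa using ht) j hj
    · obtain ⟨l1, l2, l3⟩ := h0
      simp only [Kind.inp, Kind.out] at h1 h2 l1 l2 l3
      obtain ⟨c, c1, c2⟩ := ih (m - 2 + 2) h2 (fun t => f (t + 1)) hf' (crN tri i s) (by
        intro j hj
        simp only [crN, tri]
        by_cases a1 : j = i
        · rw [if_pos a1, hs _ (by omega), a1]
          exact l3.1.symm
        · rw [if_neg a1]
          by_cases a2 : j = i + 1
          · rw [if_pos a2, hs _ (by omega), a2]
            exact l3.2.symm
          · rw [if_neg a2, hs _ (by omega)]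
            by_cases a3 : j < i
            · exact (l1 j a3).symm
            · have := l2 (j - 2 - i)
              rw [show i + 2 + (j - 2 - i) = j by omega] at this
              exact this.symm)
      refine ⟨c, c1, ?_⟩
      intro t ht j hj
      cases t with
      | zero => exact hs j hj
      | succ t => exact c2 t (by simpa using ht) j hj

theorem knot_const {D : List Ev} (hD : IsKnot D) (b : Q) (c : ℕ → Q)
    (hc : ok tri D (fun _ => b) c) : ∀ n < cups D, ∀ n' < cups D, c n = c n' := by
  classical
  have hlab : ∀ κ : Q, IsLabelling D
      (fun t j => decide (run tri (D.take t) (fun _ => b) c j = κ)) := by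
    intro κ t ht
    have h1 : D.take (t + 1) = D.take t ++ [D[t]] := (List.take_append_getElem ht).symm
    have h2 : D = D.take t ++ (D[t] :: D.drop (t + 1)) := by
      rw [← List.drop_eq_getElem_cons ht, List.take_append_drop]
    have h3 : ok tri (D[t] :: D.drop (t + 1)) (run tri (D.take t) (fun _ => b) c)
        (fun n => c (cups (D.take t) + n)) := by
      have h4 := hc
      rw [h2, ok_append] at h4
      exact h4.2
    have h5 := label_step (fun x => decide (x = κ)) _ _ _ _ h3
    rw [← run_append, ← h1] at h5
    exact h5
  have hval : ∀ n < cups D, ∃ t j, j < width (D.take t) 0 ∧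
      run tri (D.take t) (fun _ => b) c j = c n := by
    intro n hn
    obtain ⟨u, i, v, h1, h2⟩ := cup_at D n hn
    have h3 : D.take (u.length + 1) = u ++ [⟨.cup, i⟩] := by
      rw [h1, List.take_append]
      simp
    refine ⟨u.length + 1, i, ?_, ?_⟩
    · rw [h3, width_append]
      have h4 := hD.typed
      rw [h1] at h4
      obtain ⟨l, h5, h6⟩ := typed_append.1 h4
      rw [typed_width h5]
      have h7 : i + 0 ≤ l := h6.1
      show i < l - 0 + 2
      omega
    · rw [h3, run_append]
      simp only [run, ins2]
      rw [if_neg (by omega), if_pos (by omega), h2]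
      rfl
  intro n hn n' hn'
  obtain ⟨t, j, h1, h2⟩ := hval n hn
  obtain ⟨t', j', h1', h2'⟩ := hval n' hn'
  have h3 := hD.connected _ (hlab (c n')) t j t' j' h1 h1'
  simp only [h2, h2', decide_true, decide_eq_true_eq] at h3
  exact h3

theorem isKnot_of {D : List Ev} (ht : Typed D 0 0) (hne : D ≠ [])
    (h : ∀ c : ℕ → Bool, ok tri D (fun _ => false) c →
      ∀ n < cups D, ∀ n' < cups D, c n = c n') : IsKnot D := by
  refine ⟨ht, hne, ?_⟩
  intro f hf
  obtain ⟨c, c1, c2⟩ := lab_col D 0 0 ht f hf (fun _ => false)
    (fun j hj => absurd hj (Nat.not_lt_zero _))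
  have key : ∀ t j, j < width (D.take t) 0 → f t j = c 0 := by
    intro t j hj
    have htl : t ≤ D.length := by
      by_contra hcon
      rw [List.take_of_length_le (by omega), typed_width ht] at hj
      exact absurd hj (Nat.not_lt_zero _)
    rw [← c2 t htl j hj]
    have h2 : D = D.take t ++ D.drop t := (List.take_append_drop t D).symm
    have h3 : ∃ l, Typed (D.take t) 0 l := by
      have h4 := ht
      rw [h2] at h4
      obtain ⟨l, h5, -⟩ := typed_append.1 h4
      exact ⟨l, h5⟩
    obtain ⟨l, h5⟩ := h3
    rw [typed_width h5] at hj
    have hcups : cups (D.take t) ≤ cups D := by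
      conv_rhs => rw [h2]
      rw [cups_append]
      omega
    exact (const_word tri h5 (c 0) rfl (fun _ => false) c
      (fun j hj => absurd hj (Nat.not_lt_zero _))
      (fun n hn => h c c1 n (by omega) 0 (by omega))).2 j hj
  intro t j t' j' hj hj'
  rw [key t j hj, key t' j' hj']

end Pool.Agent.Work.MP_3edda8_gt
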