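import Pool.Agent.Work.MP_3edda8_gt.SK.PersDef
import Pool.Agent.Work.MP_3edda8_gt.SK.KnotIff

/-!
MODULE InsLem (S-M): inserting twist regions whose effect on colours is trivial.

PROOF.  Induction on `Relation.ReflTransGen`; one step: `w = w1 ++ w2`,
`w' = w1 ++ replicate m ⟨pos, i⟩ ++ w2`, `run_append`, `ok_append`, `ok_tw`, `cups_tw`, `run_tw`
and `hper`: the state after the inserted part is the state before it.
`ins_num`: the sets `Col` are equal.  `ins_knot`: `isKnot_of` with the trivial kei
(`tri_period`), `knot_const` for `D`.  `ins_append`: both sides.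
-/

namespace Pool.Agent.Work.MP_3edda8_gt

variable {Q : Type}

private theorem run_rep (op : Q → Q → Q) {m : ℕ} (hper : ∀ x y, tw op m x y = (x, y)) (i : ℕ)
    (s c : ℕ → Q) : run op (List.replicate m ⟨.pos, i⟩) s c = s := by
  rw [run_tw]
  funext j
  rw [hper]
  by_cases h1 : j = i
  · rw [if_pos h1, h1]
  · rw [if_neg h1]
    by_cases h2 : j = i + 1
    · rw [if_pos h2, h2]
    · rw [if_neg h2]

private theorem step_ok (op : Q → Q → Q) {m : ℕ} (hper : ∀ x y, tw op m x y = (x, y))
    {w w' : List Ev} (h : InsStep m w w') (s c : ℕ → Q) :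
    (ok op w' s c ↔ ok op w s c) ∧ run op w' s c = run op w s c := by
  obtain ⟨w1, w2, i, rfl, rfl⟩ := h
  have e1 : run op (w1 ++ List.replicate m ⟨.pos, i⟩) s c = run op w1 s c := by
    rw [run_append, run_rep op hper]
  have e2 : (fun n => c (cups (w1 ++ List.replicate m ⟨.pos, i⟩) + n)) =
      fun n => c (cups w1 + n) := by
    rw [cups_append, cups_tw, add_zero]
  constructor
  · rw [ok_append, ok_append op w1 w2, ok_append op w1 (List.replicate m _), e1, e2]
    constructor
    · rintro ⟨⟨h1, -⟩, h2⟩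
      exact ⟨h1, h2⟩
    · rintro ⟨h1, h2⟩
      exact ⟨⟨h1, ok_tw op m i _ _⟩, h2⟩
  · rw [run_append, run_append op w1 w2, e1, e2]

private theorem step_right {m : ℕ} {u u' : List Ev} (h : InsStep m u u') (X : List Ev) :
    InsStep m (u ++ X) (u' ++ X) := by
  obtain ⟨w1, w2, i, rfl, rfl⟩ := h
  exact ⟨w1, w2 ++ X, i, by simp [List.append_assoc], by simp [List.append_assoc]⟩

private theorem step_left {m : ℕ} {u u' : List Ev} (h : InsStep m u u') (X : List Ev) :
    InsStep m (X ++ u) (X ++ u') := by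
  obtain ⟨w1, w2, i, rfl, rfl⟩ := h
  exact ⟨X ++ w1, w2, i, by simp [List.append_assoc], by simp [List.append_assoc]⟩

private theorem ins_len {m : ℕ} {w w' : List Ev} (h : Ins m w w') : w.length ≤ w'.length := by
  induction h with
  | refl => exact le_rfl
  | tail _ h2 ih =>
    obtain ⟨w1, w2, i, rfl, rfl⟩ := h2
    refine ih.trans ?_
    simp only [List.length_append, List.length_replicate]
    omega

theorem ins_cups {m : ℕ} {w w' : List Ev} (h : Ins m w w') : cups w' = cups w := by
  induction h with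
  | refl => rfl
  | tail _ h2 ih =>
    obtain ⟨w1, w2, i, rfl, rfl⟩ := h2
    rw [← ih, cups_append, cups_append, cups_tw, cups_append, add_zero]

theorem ins_ok (op : Q → Q → Q) {m : ℕ} (hper : ∀ x y, tw op m x y = (x, y)) {w w' : List Ev}
    (h : Ins m w w') (s c : ℕ → Q) :
    (ok op w' s c ↔ ok op w s c) ∧ run op w' s c = run op w s c := by
  induction h with
  | refl => exact ⟨Iff.rfl, rfl⟩
  | tail _ h2 ih =>
    obtain ⟨h3, h4⟩ := step_ok op hper h2 s c
    exact ⟨h3.trans ih.1, h4.trans ih.2⟩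

theorem ins_append {m : ℕ} {u u' v v' : List Ev} (hu : Ins m u u') (hv : Ins m v v')
    (S : List Ev) : Ins m (u ++ S ++ v) (u' ++ S ++ v') := by
  have h1 : Ins m (u ++ (S ++ v)) (u' ++ (S ++ v)) :=
    Relation.ReflTransGen.lift (fun w => w ++ (S ++ v)) (fun _ _ h => step_right h _) _ _ hu
  have h2 : Ins m ((u' ++ S) ++ v) ((u' ++ S) ++ v') :=
    Relation.ReflTransGen.lift (fun w => (u' ++ S) ++ w) (fun _ _ h => step_left h _) _ _ hv
  rw [← List.append_assoc, ← List.append_assoc] at h1
  exact Relation.ReflTransGen.trans h1 h2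

theorem ins_num (op : Q → Q → Q) {m : ℕ} (hper : ∀ x y, tw op m x y = (x, y))
    {D D' : List Ev} (h : Ins m D D') (b : Q) : num op b D' = num op b D := by
  have h1 : Col op b D' = Col op b D := by
    ext c
    unfold Col
    rw [Set.mem_ofPred_eq, Set.mem_ofPred_eq, ins_cups h, (ins_ok op hper h (fun _ => b) c).1]
  unfold num
  rw [h1]

theorem ins_knot {m : ℕ} (hm : 2 ∣ m) {D D' : List Ev} (h : Ins m D D') (hD : IsKnot D)
    (ht : Typed D' 0 0) : IsKnot D' := by
  refine isKnot_of ht ?_ ?_
  · intro h0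
    apply hD.nonempty
    have := ins_len h
    rw [h0] at this
    exact List.length_eq_zero_iff.1 (Nat.le_zero.1 this)
  · intro c hc n hn n' hn'
    rw [ins_cups h] at hn hn'
    exact knot_const hD false c ((ins_ok tri (fun x y => tri_period hm x y) h _ _).1.1 hc) n hn n' hn'

end Pool.Agent.Work.MP_3edda8_gt
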