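import Pool.Agent.Work.MP_3edda8_gt.SK.PersDef
import Pool.Agent.Work.MP_3edda8_gt.SK.KnotIff
import Pool.Agent.Work.MP_3edda8_gt.SK.Lin

/-!
MODULE Level (M): a non-constant colouring shows two different neighbouring colours at a level
outside a non-persistent tangle.

PROOF.  Assume that there is no such level.  Then
(1) at every level of `u` (that is after `u1` with `u = u1 ++ u2`) and of `v` (after
    `u ++ sh a S ++ v1`, `v = v1 ++ v2`) all strands (numbers `<` width) have the same colour.
(2) a crossing of two strands of equal colour acts in the same way for `fox` and for `tri`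
    (`2 * x - x = x`).  Lemma (private, induction on the word): if for every splitting
    `w = w1 ++ w2` of a typed word `w` from `m` strands all neighbouring strands of
    `run fox w1 s c` (numbers `<` width) are equal then `ok tri w s c ↔ ok fox w s c` and
    `run tri w s c = run fox w s c`.
(3) At the level after `u ++ sh a S` (this is the case `v1 = []`; there are `W + 2 N ≥ 2` strands,
    and the end points of `S` are the strands `a, ..., a + 2 N - 1` of this level,
    `tangle_run`) all strands have one colour `κ`.  So `f` restricted to `S`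
    (`c := fun n => f (cups u + n)`) is a colouring of `S` with all boundary colours `κ`;
    subtract the constant colouring `κ` (`const_word` for `T = S`, `m = 0`, and `fox_ok_lin`,
    `fox_run_lin` with coefficients `1, -1`; the base state `0` is replaced using `loc` or
    `tangle_ok`, `tangle_run` with `a = 0`): the difference vanishes on the boundary, hence by
    `hnp` it vanishes on all cups of `S`: `f (cups u + n) = κ` for `n < cups S`.
(4) So on `S` the colouring is constant and `tri` and `fox` agree on `S` too (`const_word` for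
    `tri` and for `fox`).  By `glue_iff` for both keis: `ok tri (u ++ sh a S ++ v) (fun _ => 0) f`.
(5) `knot_const`: `f n = f n'` for all `n, n' < cups`.  Contradiction.
-/

namespace Pool.Agent.Work.MP_3edda8_gt

private theorem all_eq {Q : Type} {g : ℕ → Q} {W : ℕ} (h : ∀ i, i + 2 ≤ W → g i = g (i + 1)) :
    ∀ j < W, g j = g 0 := by
  intro j
  induction j with
  | zero => intro _; rfl
  | succ j ih =>
    intro hj
    rw [← h j (by omega)]
    exact ih (by omega)

private theorem tri_fox {R : Type} [CommRing R] (w : List Ev) :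
    ∀ (m k : ℕ) (s c : ℕ → R), Typed w m k →
    (∀ w1 w2 W i, w = w1 ++ w2 → Typed w1 m W → i + 2 ≤ W →
      run fox w1 s c i = run fox w1 s c (i + 1)) →
    (ok tri w s c ↔ ok fox w s c) ∧ run tri w s c = run fox w s c := by
  induction w with
  | nil => intro m k s c _ _; exact ⟨Iff.rfl, rfl⟩
  | cons e w ih =>
    intro m k s c ht H
    rcases e with ⟨_ | _ | _ | _, i⟩
    · have := ih _ k (ins2 i (c 0) s) (fun n => c (n + 1)) ht.2 (by
        intro w1 w2 W i' e h1 h2
        exact H (⟨.cup, i⟩ :: w1) w2 W i' (by rw [e]; rfl) ⟨ht.1, h1⟩ h2)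
      exact this
    · have := ih _ k (del2 i s) c ht.2 (by
        intro w1 w2 W i' e h1 h2
        exact H (⟨.cap, i⟩ :: w1) w2 W i' (by rw [e]; rfl) ⟨ht.1, h1⟩ h2)
      exact ⟨and_congr_right fun _ => this.1, this.2⟩
    · have h0 : s i = s (i + 1) := H [] _ m i rfl rfl ht.1
      have e0 : crP tri i s = crP fox i s := by
        funext j
        simp only [crP, tri, fox, ← h0]
        split_ifs
        · rfl
        · ring
        · rfl
      have := ih _ k (crP fox i s) c ht.2 (by
        intro w1 w2 W i' e h1 h2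
        exact H (⟨.pos, i⟩ :: w1) w2 W i' (by rw [e]; rfl) ⟨ht.1, h1⟩ h2)
      simp only [ok, run, e0]
      exact this
    · have h0 : s i = s (i + 1) := H [] _ m i rfl rfl ht.1
      have e0 : crN tri i s = crN fox i s := by
        funext j
        simp only [crN, tri, fox, ← h0]
        split_ifs
        · ring
        · rfl
        · rfl
      have := ih _ k (crN fox i s) c ht.2 (by
        intro w1 w2 W i' e h1 h2
        exact H (⟨.neg, i⟩ :: w1) w2 W i' (by rw [e]; rfl) ⟨ht.1, h1⟩ h2)
      simp only [ok, run, e0]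
      exact this

private theorem insN_congr {Q : Type} {a m : ℕ} {x x' s : ℕ → Q} (h : ∀ j < m, x j = x' j) :
    insN a m x s = insN a m x' s := by
  funext j
  simp only [insN]
  split_ifs with h1 h2
  · rfl
  · exact h _ (by omega)
  · rfl

theorem exists_level {p N : ℕ} [Fact p.Prime] (hN : 1 ≤ N) {u S v : List Ev} {a : ℕ}
    (hS : Typed S 0 (2 * N)) (hK : IsKnot (u ++ sh a S ++ v)) (hnp : ¬ Pers p N S)
    (f : ℕ → ZMod p) (hf : ok fox (u ++ sh a S ++ v) (fun _ => 0) f)
    (hne : ∃ n < cups (u ++ sh a S ++ v), ∃ n' < cups (u ++ sh a S ++ v), f n ≠ f n') :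
    (∃ u1 u2 W i, u = u1 ++ u2 ∧ Typed u1 0 W ∧ i + 2 ≤ W ∧
      run fox u1 (fun _ => 0) f i ≠ run fox u1 (fun _ => 0) f (i + 1)) ∨
    (∃ v1 v2 W i, v = v1 ++ v2 ∧ Typed (u ++ sh a S ++ v1) 0 W ∧ i + 2 ≤ W ∧
      run fox (u ++ sh a S ++ v1) (fun _ => 0) f i ≠
        run fox (u ++ sh a S ++ v1) (fun _ => 0) f (i + 1)) := by
  by_contra hcon
  have H1 : ∀ u1 u2 W i, u = u1 ++ u2 → Typed u1 0 W → i + 2 ≤ W →
      run fox u1 (fun _ => 0) f i = run fox u1 (fun _ => 0) f (i + 1) := by
    intro u1 u2 W i h1 h2 h3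
    by_contra h4
    exact hcon (Or.inl ⟨u1, u2, W, i, h1, h2, h3, h4⟩)
  have H2 : ∀ v1 v2 W i, v = v1 ++ v2 → Typed (u ++ sh a S ++ v1) 0 W → i + 2 ≤ W →
      run fox (u ++ sh a S ++ v1) (fun _ => 0) f i =
        run fox (u ++ sh a S ++ v1) (fun _ => 0) f (i + 1) := by
    intro v1 v2 W i h1 h2 h3
    by_contra h4
    exact hcon (Or.inr ⟨v1, v2, W, i, h1, h2, h3, h4⟩)
  obtain ⟨l, hl, htv⟩ := typed_append.1 hK.typed
  obtain ⟨l', htu, htS⟩ := typed_append.1 hl
  obtain ⟨ha, rfl⟩ := (typed_sh_iff hS hN a l' l).1 htS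
  obtain ⟨gu, gS, gv⟩ := (glue_iff fox hS a (fun _ => 0) (fun _ => 0) f).1 hf
  -- the state after `u ++ sh a S`
  have est : run fox (u ++ sh a S) (fun _ => 0) f =
      insN a (2 * N) (run fox S (fun _ => 0) (fun n => f (cups u + n)))
        (run fox u (fun _ => 0) f) := by
    rw [run_append, tangle_run fox hS a _ (fun _ => 0)]
    rfl
  have h3 : ∀ j < l' + 2 * N, run fox (u ++ sh a S) (fun _ => 0) f j =
      run fox (u ++ sh a S) (fun _ => 0) f 0 := by
    apply all_eq
    intro i hi
    have := H2 [] v (l' + 2 * N) i rfl (by rw [List.append_nil]; exact hl) hi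
    rw [List.append_nil] at this
    exact this
  obtain ⟨κ, hκ⟩ : ∃ κ, κ = run fox (u ++ sh a S) (fun _ => 0) f 0 := ⟨_, rfl⟩
  rw [← hκ] at h3
  have h4 : ∀ j < 2 * N, run fox S (fun _ => 0) (fun n => f (cups u + n)) j = κ := by
    intro j hj
    have := h3 (a + j) (by omega)
    rw [est] at this
    simp only [insN] at this
    rw [if_neg (by omega), if_pos (by omega)] at this
    rw [← this]
    congr 1
    omega
  have hfid : ∀ x : ZMod p, fox x x = x := fun x => by simp only [fox]; ring
  obtain ⟨k1, k2⟩ := const_word (w := S) (m := 0) (k := 2 * N) (fox : ZMod p → ZMod p → ZMod p)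
    hS κ (hfid κ) (fun _ => 0) (fun _ => κ) (fun j hj => absurd hj (by omega)) (fun _ _ => rfl)
  have h5 : ∀ t < cups S, f (cups u + t) = κ := by
    intro t ht
    by_contra hne'
    refine hnp ⟨fun n => f (cups u + n) - κ, ?_, ?_, t, ht, sub_ne_zero.2 hne'⟩
    · have := fox_ok_lin S _ _ _ _ (1 : ZMod p) (-1) gS k1
      have e1 : (fun _ : ℕ => (1 : ZMod p) * 0 + -1 * 0) = fun _ => 0 := by
        funext j; ring
      have e2 : (fun n : ℕ => (1 : ZMod p) * f (cups u + n) + -1 * κ) =
          fun n => f (cups u + n) - κ := by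
        funext n; ring
      rw [e1, e2] at this
      exact this
    · intro j hj
      have := congrFun (fox_run_lin S (fun _ => 0) (fun _ => 0) (fun n => f (cups u + n))
        (fun _ => κ) (1 : ZMod p) (-1)) j
      have e1 : (fun _ : ℕ => (1 : ZMod p) * 0 + -1 * 0) = fun _ => 0 := by
        funext j; ring
      have e2 : (fun n : ℕ => (1 : ZMod p) * f (cups u + n) + -1 * κ) =
          fun n => f (cups u + n) - κ := by
        funext n; ring
      rw [e1, e2, h4 j hj, k2 j hj] at this
      rw [this]
      ring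
  obtain ⟨t1, t2⟩ := const_word (w := S) (m := 0) (k := 2 * N) (tri : ZMod p → ZMod p → ZMod p)
    hS κ rfl (fun _ => 0) (fun n => f (cups u + n)) (fun j hj => absurd hj (by omega)) h5
  have hu := tri_fox u 0 l' (fun _ => 0) f htu H1
  have hv := tri_fox v (l' + 2 * N) 0 (run fox (u ++ sh a S) (fun _ => 0) f)
    (fun n => f (cups u + cups S + n)) htv (by
      intro v1 v2 W i h1 h2 h3
      have := H2 v1 v2 W i h1 (typed_append.2 ⟨_, hl, h2⟩) h3
      rw [run_append fox (u ++ sh a S) v1, cups_append, cups_sh] at this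
      exact this)
  have hok : ok tri (u ++ sh a S ++ v) (fun _ => 0) f := by
    refine (glue_iff tri hS a (fun _ => 0) (fun _ => 0) f).2 ⟨hu.1.2 gu, t1, ?_⟩
    rw [hu.2, insN_congr (x' := run fox S (fun _ => 0) (fun n => f (cups u + n)))
      (fun j hj => (t2 j hj).trans (h4 j hj).symm), ← est]
    refine hv.1.2 ?_
    rw [est]
    exact gv
  obtain ⟨n, hn, n', hn', hnn⟩ := hne
  exact hnn (knot_const hK 0 f hok n hn n' hn')

end Pool.Agent.Work.MP_3edda8_gt
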