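import Pool.Agent.Work.MP_3edda8_gt.SK.Iso
import Pool.Agent.Work.MP_3edda8_gt.SK.Level
import Pool.Agent.Work.MP_3edda8_gt.SK.InsLem
import Pool.Agent.Work.MP_3edda8_gt.SK.Count

/-!
MODULE Modify (M): inserting `m`-fold crossings outside of a non-persistent tangle until only
constant `p`-colourings are left.

PROOF.  Strong induction on `num fox (0 : ZMod p) (u ++ sh a S ++ v)`.  If it is `≤ p`: take
`u' = u`, `v' = v`.  Otherwise there is `f ∈ Col` which is not constant on the cups (at most `p`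
elements of `Col` are constant on the cups; `f n = 0` for `n ≥ cups`).  `exists_level` gives a
place and `i`.
Case `u = u1 ++ u2`: let `u'' = u1 ++ replicate m ⟨pos, i⟩ ++ u2`.  With `B = u1`,
`U = u2 ++ sh a S ++ v`, `insert_lemma` shows: every `g ∈ Col` of the new word lies in `Col` of
the old word (the number of cups is the same) and satisfies
`run fox u1 0 g i = run fox u1 0 g (i+1)`, which fails for `f`: the new set of colourings is a
proper subset (`Set.ncard_lt_ncard`, `col_finite`).  `(m : ZMod p) ≠ 0` from `¬ p ∣ m`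
(`ZMod.natCast_eq_zero_iff`).  The new word is typed (`typed_append`; the inserted crossings keep
`W` strands, `i + 2 ≤ W`; private lemma `Typed (replicate m ⟨pos, i⟩) W W`) and is a knot diagram
(`ins_knot`, as `2 ∣ m`).  Apply the induction hypothesis and `Relation.ReflTransGen.head`.
Typing for an arbitrary `S'` : by `typed_append` and `typed_sh_iff` the word `u ++ sh a S' ++ v`
is typed `0 0` iff there is `W` with `Typed u 0 W`, `a ≤ W`, `Typed v (W + 2 * N) 0`; this
condition does not depend on `S'` (for `1 ≤ N`), and it is kept by the insertions.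
Case `v = v1 ++ v2`: the same with `B = u ++ sh a S ++ v1`, `U = v2`.
(It is convenient to carry through the induction the statement
`∀ W, Typed u 0 W → Typed u' 0 W` and `∀ W, Typed v (W + 2 N) 0 → Typed v' (W + 2 N) 0` for the
`W` of the word.)
-/

namespace Pool.Agent.Work.MP_3edda8_gt

private theorem mo_rep (m i W : ℕ) (h : i + 2 ≤ W) :
    Typed (List.replicate m (⟨.pos, i⟩ : Ev)) W W := by
  induction m with
  | zero => rfl
  | succ m ih =>
    rw [List.replicate_succ]
    refine ⟨h, ?_⟩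
    have e : W - Kind.pos.inp + Kind.pos.out = W := by
      simp only [Kind.inp, Kind.out]
      omega
    simp only [e]
    exact ih

private theorem mo_typed {B U : List Ev} {W i m : ℕ} (hB : Typed B 0 W) (hi : i + 2 ≤ W)
    (h : Typed (B ++ U) 0 0) : Typed (B ++ List.replicate m ⟨.pos, i⟩ ++ U) 0 0 := by
  obtain ⟨l, h1, h2⟩ := typed_append.1 h
  have hl : l = W := by rw [← typed_width h1, typed_width hB]
  subst hl
  exact typed_append.2 ⟨l, typed_append.2 ⟨l, h1, mo_rep m i l hi⟩, h2⟩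

private theorem mo_ncard {p : ℕ} [Fact p.Prime] {B U : List Ev} {W i m : ℕ} (hB : Typed B 0 W)
    (hU : Typed U W 0) (hi : i + 2 ≤ W) (hpm : ¬ p ∣ m) (f : ℕ → ZMod p)
    (hf : f ∈ Col fox (0 : ZMod p) (B ++ U))
    (hne : run fox B (fun _ => 0) f i ≠ run fox B (fun _ => 0) f (i + 1)) :
    num fox (0 : ZMod p) (B ++ List.replicate m ⟨.pos, i⟩ ++ U) <
      num fox (0 : ZMod p) (B ++ U) := by
  have hm0 : (m : ZMod p) ≠ 0 := fun h => hpm ((ZMod.natCast_eq_zero_iff m p).1 h)
  have hcups : cups (B ++ List.replicate m ⟨.pos, i⟩ ++ U) = cups (B ++ U) := by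
    rw [cups_append, cups_append, cups_tw, cups_append, add_zero]
  unfold num
  apply Set.ncard_lt_ncard _ (col_finite fox (0 : ZMod p) (B ++ U))
  refine ⟨?_, ?_⟩
  · intro g hg
    refine ⟨fun n hn => hg.1 n (by rw [hcups]; exact hn), ?_⟩
    exact (insert_lemma hB hU hi hm0 f g hf.2 hne hg.2).1
  · intro hsub
    exact hne (insert_lemma hB hU hi hm0 f f hf.2 hne (hsub hf).2).2

private theorem mo_exists {p : ℕ} [Fact p.Prime] (K : List Ev)
    (h : p < num fox (0 : ZMod p) K) : ∃ f ∈ Col fox (0 : ZMod p) K,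
      ∃ n < cups K, ∃ n' < cups K, f n ≠ f n' := by
  by_contra hcon
  push Not at hcon
  have hsub : Col fox (0 : ZMod p) K ⊆
      (fun x : ZMod p => fun n : ℕ => if n < cups K then x else 0) '' Set.univ := by
    intro f hf
    refine ⟨f 0, Set.mem_univ _, ?_⟩
    funext n
    show (if n < cups K then f 0 else 0) = f n
    by_cases hn : n < cups K
    · rw [if_pos hn]
      exact hcon f hf 0 (by omega) n hn
    · rw [if_neg hn]
      exact (hf.1 n (by omega)).symm
  have h1 : num fox (0 : ZMod p) K ≤ p := by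
    unfold num
    calc (Col fox (0 : ZMod p) K).ncard
        ≤ ((fun x : ZMod p => fun n : ℕ => if n < cups K then x else 0) '' Set.univ).ncard :=
          Set.ncard_le_ncard hsub ((Set.finite_univ).image _)
      _ ≤ (Set.univ : Set (ZMod p)).ncard := Set.ncard_image_le Set.finite_univ
      _ = p := by rw [Set.ncard_univ, Nat.card_zmod]
  omega

private theorem mo_step {p N m : ℕ} [Fact p.Prime] (hN : 1 ≤ N) (hpm : ¬ p ∣ m) (hm : 2 ∣ m)
    {u S v : List Ev} {a : ℕ} (hS : Typed S 0 (2 * N)) (hK : IsKnot (u ++ sh a S ++ v))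
    (hnp : ¬ Pers p N S) (hnum : p < num fox (0 : ZMod p) (u ++ sh a S ++ v)) :
    ∃ u' v', Ins m u u' ∧ Ins m v v' ∧
      (∀ S', Typed S' 0 (2 * N) → Typed (u ++ sh a S' ++ v) 0 0 →
        Typed (u' ++ sh a S' ++ v') 0 0) ∧
      IsKnot (u' ++ sh a S ++ v') ∧
      num fox (0 : ZMod p) (u' ++ sh a S ++ v') < num fox (0 : ZMod p) (u ++ sh a S ++ v) := by
  obtain ⟨f, hf, n, hn, n', hn', hne⟩ := mo_exists _ hnum
  have key : ∀ u' v', Ins m u u' → Ins m v v' →
      (∀ S', Typed S' 0 (2 * N) → Typed (u ++ sh a S' ++ v) 0 0 →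
        Typed (u' ++ sh a S' ++ v') 0 0) → IsKnot (u' ++ sh a S ++ v') :=
    fun u' v' h1 h2 h3 => ins_knot hm (ins_append h1 h2 (sh a S)) hK (h3 S hS hK.typed)
  rcases exists_level hN hS hK hnp f hf.2 ⟨n, hn, n', hn', hne⟩ with
    ⟨u1, u2, W, i, rfl, hT, hi, hd⟩ | ⟨v1, v2, W, i, rfl, hT, hi, hd⟩
  · have hI : Ins m (u1 ++ u2) (u1 ++ List.replicate m ⟨.pos, i⟩ ++ u2) :=
      Relation.ReflTransGen.single ⟨u1, u2, i, rfl, rfl⟩
    have hty : ∀ S', Typed S' 0 (2 * N) → Typed (u1 ++ u2 ++ sh a S' ++ v) 0 0 →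
        Typed (u1 ++ List.replicate m ⟨.pos, i⟩ ++ u2 ++ sh a S' ++ v) 0 0 := by
      intro S' _ h
      have e1 : u1 ++ u2 ++ sh a S' ++ v = u1 ++ (u2 ++ sh a S' ++ v) := by
        simp only [List.append_assoc]
      have e2 : u1 ++ List.replicate m ⟨.pos, i⟩ ++ u2 ++ sh a S' ++ v =
          u1 ++ List.replicate m ⟨.pos, i⟩ ++ (u2 ++ sh a S' ++ v) := by
        simp only [List.append_assoc]
      rw [e1] at h
      rw [e2]
      exact mo_typed hT hi h
    refine ⟨u1 ++ List.replicate m ⟨.pos, i⟩ ++ u2, v, hI, Relation.ReflTransGen.refl, hty,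
      key _ _ hI Relation.ReflTransGen.refl hty, ?_⟩
    have e1 : u1 ++ u2 ++ sh a S ++ v = u1 ++ (u2 ++ sh a S ++ v) := by
      simp only [List.append_assoc]
    have e2 : u1 ++ List.replicate m ⟨.pos, i⟩ ++ u2 ++ sh a S ++ v =
        u1 ++ List.replicate m ⟨.pos, i⟩ ++ (u2 ++ sh a S ++ v) := by
      simp only [List.append_assoc]
    rw [e1] at hf
    have hTK := hK.typed
    rw [e1] at hTK
    obtain ⟨l, h1, h2⟩ := typed_append.1 hTK
    have hl : l = W := by rw [← typed_width h1, typed_width hT]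
    subst hl
    rw [e1, e2]
    exact mo_ncard hT h2 hi hpm f hf hd
  · have hI : Ins m (v1 ++ v2) (v1 ++ List.replicate m ⟨.pos, i⟩ ++ v2) :=
      Relation.ReflTransGen.single ⟨v1, v2, i, rfl, rfl⟩
    have hty : ∀ S', Typed S' 0 (2 * N) → Typed (u ++ sh a S' ++ (v1 ++ v2)) 0 0 →
        Typed (u ++ sh a S' ++ (v1 ++ List.replicate m ⟨.pos, i⟩ ++ v2)) 0 0 := by
      intro S' hS' h
      have e1 : u ++ sh a S' ++ (v1 ++ v2) = (u ++ sh a S' ++ v1) ++ v2 := by
        simp only [List.append_assoc]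
      have e2 : u ++ sh a S' ++ (v1 ++ List.replicate m ⟨.pos, i⟩ ++ v2) =
          (u ++ sh a S' ++ v1) ++ List.replicate m ⟨.pos, i⟩ ++ v2 := by
        simp only [List.append_assoc]
      rw [e1] at h
      rw [e2]
      refine mo_typed ?_ hi h
      obtain ⟨l, h1, h2⟩ := typed_append.1 h
      obtain ⟨l', h3, h4⟩ := typed_append.1 h1
      obtain ⟨W0, h5, h6⟩ := typed_append.1 h3
      obtain ⟨k', g3, g4⟩ := typed_append.1 hT
      obtain ⟨W1, g5, g6⟩ := typed_append.1 g3
      have hW : W0 = W1 := by rw [← typed_width h5, typed_width g5]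
      subst hW
      have r1 := (typed_sh_iff hS' hN a W0 l').1 h6
      have r2 := (typed_sh_iff hS hN a W0 k').1 g6
      have hl' : l' = k' := by rw [r1.2, r2.2]
      subst hl'
      have hl : l = W := by rw [← typed_width h4, typed_width g4]
      rw [hl] at h1
      exact h1
    refine ⟨u, v1 ++ List.replicate m ⟨.pos, i⟩ ++ v2, Relation.ReflTransGen.refl, hI, hty,
      key _ _ Relation.ReflTransGen.refl hI hty, ?_⟩
    have e1 : u ++ sh a S ++ (v1 ++ v2) = (u ++ sh a S ++ v1) ++ v2 := by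
      simp only [List.append_assoc]
    have e2 : u ++ sh a S ++ (v1 ++ List.replicate m ⟨.pos, i⟩ ++ v2) =
        (u ++ sh a S ++ v1) ++ List.replicate m ⟨.pos, i⟩ ++ v2 := by
      simp only [List.append_assoc]
    rw [e1] at hf
    have hTK := hK.typed
    rw [e1] at hTK
    obtain ⟨l, h1, h2⟩ := typed_append.1 hTK
    have hl : l = W := by rw [← typed_width h1, typed_width hT]
    subst hl
    rw [e1, e2]
    exact mo_ncard hT h2 hi hpm f hf hd

theorem modify {p N m : ℕ} [Fact p.Prime] (hN : 1 ≤ N) (hpm : ¬ p ∣ m) (hm : 2 ∣ m)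
    {u S v : List Ev} {a : ℕ} (hS : Typed S 0 (2 * N)) (hK : IsKnot (u ++ sh a S ++ v))
    (hnp : ¬ Pers p N S) :
    ∃ u' v', Ins m u u' ∧ Ins m v v' ∧
      (∀ S', Typed S' 0 (2 * N) → Typed (u ++ sh a S' ++ v) 0 0 →
        Typed (u' ++ sh a S' ++ v') 0 0) ∧
      num fox (0 : ZMod p) (u' ++ sh a S ++ v') ≤ p := by
  have H : ∀ (c : ℕ) (u v : List Ev), IsKnot (u ++ sh a S ++ v) →
      num fox (0 : ZMod p) (u ++ sh a S ++ v) = c →
      ∃ u' v', Ins m u u' ∧ Ins m v v' ∧
        (∀ S', Typed S' 0 (2 * N) → Typed (u ++ sh a S' ++ v) 0 0 →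
          Typed (u' ++ sh a S' ++ v') 0 0) ∧
        num fox (0 : ZMod p) (u' ++ sh a S ++ v') ≤ p := by
    intro c
    induction c using Nat.strong_induction_on with
    | _ c ih =>
      intro u v hK hc
      by_cases h : num fox (0 : ZMod p) (u ++ sh a S ++ v) ≤ p
      · exact ⟨u, v, Relation.ReflTransGen.refl, Relation.ReflTransGen.refl,
          fun _ _ h => h, h⟩
      · obtain ⟨u1, v1, hu1, hv1, ht1, hK1, hlt⟩ := mo_step hN hpm hm hS hK hnp (by omega)
        obtain ⟨u2, v2, hu2, hv2, ht2, hle⟩ := ih _ (by rw [← hc]; exact hlt) u1 v1 hK1 rfl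
        exact ⟨u2, v2, hu1.trans hu2, hv1.trans hv2,
          fun S' hS' h => ht2 S' hS' (ht1 S' hS' h), hle⟩
  exact H _ u v hK rfl

end Pool.Agent.Work.MP_3edda8_gt
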