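import Pool.Agent.Work.MP_3edda8_gt.SK.Sing
import Pool.Agent.Work.MP_3edda8_gt.SK.Modify

/-!
MODULE CaseA (M): replacing a tangle which is not `p`-persistent does not change the numbers of
colourings by keis whose twist period divides `m`, `p ∤ m`.

PROOF.
* `sing`: induction on `Relation.EqvGen` with the statement: for all `E, E'` related by
  `EqvGen (ReidStep ∨ AppDiag M)`: `EqvGen ReidStep D E ↔ EqvGen ReidStep D E'`.  For an `AppDiag`
  step both sides are false: if `EqvGen ReidStep D E` then by `num_reid` (kei `fox`, `kei_fox`)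
  `num fox 0 E.1 = num fox 0 D.1 < p ^ 2`, but `E.1 = u ++ sh a T ++ v` with `T` persistent
  contradicts `pers_num`; the same for `E'` with `T'`.
* `caseA`: given `D.1 = u ++ sh a S ++ v` and `D'.1 = u ++ sh a S' ++ v`.  `modify` gives `u'`,
  `v'`; put `E.1 = u' ++ sh a S ++ v'`, `E'.1 = u' ++ sh a S' ++ v'`; both are knot diagrams
  (`ins_knot`, `ins_append`, typing from `modify`).  By `hrel` `E` and `E'` are equivalent, by
  `sing` (`num ≤ p < p ^ 2`) they are related by `EqvGen ReidStep`, so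
  `num op b E.1 = num op b E'.1` (`num_reid`), and `num op b E.1 = num op b D.1`,
  `num op b E'.1 = num op b D'.1` by `ins_num`.
-/

namespace Pool.Agent.Work.MP_3edda8_gt

/-- equivalence of diagrams generated by local moves and the moves of `M` -/
def EqM {n : ℕ} (M : Set (Tangle n × Tangle n)) : Diagram → Diagram → Prop :=
  Relation.EqvGen fun D D' => ReidStep D D' ∨ AppDiag M D D'

private theorem not_app {p n : ℕ} [Fact p.Prime] (hn : 1 ≤ n) {T : Tangle n}
    (hT : Pers p n T.1) {D E : Diagram} (hD : num fox (0 : ZMod p) D.1 < p ^ 2)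
    {u v : List Ev} {a : ℕ} (hE : E.1 = u ++ sh a T.1 ++ v)
    (h : Relation.EqvGen ReidStep D E) : False := by
  have h1 : num fox (0 : ZMod p) D.1 = num fox (0 : ZMod p) E.1 := num_reid kei_fox 0 h
  have hK : Typed (u ++ sh a T.1 ++ v) 0 0 := by
    rw [← hE]
    exact E.2.typed
  have h2 := pers_num hn T.2 hK hT
  rw [← hE] at h2
  omega

theorem sing {p n : ℕ} [Fact p.Prime] (hn : 1 ≤ n) (M : Set (Tangle n × Tangle n))
    (hM : ∀ T T', (T, T') ∈ M → Pers p n T.1 ∧ Pers p n T'.1) {D D' : Diagram}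
    (h : EqM M D D') (hD : num fox (0 : ZMod p) D.1 < p ^ 2) :
    Relation.EqvGen ReidStep D D' := by
  have key : ∀ E E' : Diagram, EqM M E E' →
      (Relation.EqvGen ReidStep D E ↔ Relation.EqvGen ReidStep D E') := by
    intro E E' hE
    induction hE with
    | rel E E' hs =>
      rcases hs with hs | hs
      · exact ⟨fun h1 => h1.trans _ _ _ (Relation.EqvGen.rel _ _ hs),
          fun h1 => h1.trans _ _ _ ((Relation.EqvGen.rel _ _ hs).symm _ _)⟩
      · obtain ⟨T, T', hTT, u, v, a, h1, h2⟩ := hs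
        obtain ⟨hT, hT'⟩ := hM T T' hTT
        exact ⟨fun h3 => (not_app hn hT hD h1 h3).elim, fun h3 => (not_app hn hT' hD h2 h3).elim⟩
    | refl => rfl
    | symm _ _ _ ih => exact ih.symm
    | trans _ _ _ _ _ ih1 ih2 => exact ih1.trans ih2
  exact (key D D' h).1 (Relation.EqvGen.refl D)

theorem caseA {p m n N : ℕ} [Fact p.Prime] (hpm : ¬ p ∣ m) (hm : 2 ∣ m) (hn : 1 ≤ n)
    (M : Set (Tangle n × Tangle n)) (hM : ∀ T T', (T, T') ∈ M → Pers p n T.1 ∧ Pers p n T'.1)
    (hN : 1 ≤ N) (S S' : Tangle N) (hnp : ¬ Pers p N S.1)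
    (hrel : ∀ D D' : Diagram,
      (∃ u v a, D.1 = u ++ sh a S.1 ++ v ∧ D'.1 = u ++ sh a S'.1 ++ v) → EqM M D D')
    (D D' : Diagram)
    (hDD : ∃ u v a, D.1 = u ++ sh a S.1 ++ v ∧ D'.1 = u ++ sh a S'.1 ++ v)
    {Q : Type} [Finite Q] {op : Q → Q → Q} (hop : IsKei op)
    (hper : ∀ x y, tw op m x y = (x, y)) (b : Q) : num op b D.1 = num op b D'.1 := by
  obtain ⟨u, v, a, h1, h2⟩ := hDD
  have hK : IsKnot (u ++ sh a S.1 ++ v) := by
    rw [← h1]
    exact D.2
  have hK' : IsKnot (u ++ sh a S'.1 ++ v) := by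
    rw [← h2]
    exact D'.2
  obtain ⟨u', v', hu, hv, htyp, hnum⟩ := modify hN hpm hm S.2 hK hnp
  have hE := ins_append hu hv (sh a S.1)
  have hE' := ins_append hu hv (sh a S'.1)
  have kE := ins_knot hm hE hK (htyp S.1 S.2 hK.typed)
  have kE' := ins_knot hm hE' hK' (htyp S'.1 S'.2 hK'.typed)
  have hrel' := hrel ⟨_, kE⟩ ⟨_, kE'⟩ ⟨u', v', a, rfl, rfl⟩
  have hp : p < p ^ 2 := by
    have := (Fact.out : p.Prime).two_le
    nlinarith
  have hs := sing hn M hM hrel' (lt_of_le_of_lt hnum hp)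
  have h3 := num_reid hop b hs
  have h4 := ins_num op hper hE b
  have h5 := ins_num op hper hE' b
  rw [h1, h2, ← h4, ← h5]
  exact h3

end Pool.Agent.Work.MP_3edda8_gt
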