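import Mathlib

/-!
# Skein invariants of knots: definitions (MP_3edda8_gt)

A diagram in general position with respect to the height function is written as the list of its
elementary events, read from bottom to top.  At a generic height the strands are numbered
`0, 1, 2, ...` from left to right.

* `cup` at `i`: a local minimum, creates two adjacent strands, which get the numbers `i`, `i + 1`;
* `cap` at `i`: a local maximum, joins the strands `i` and `i + 1`;
* `pos` at `i`: a crossing of the strands `i` and `i + 1`; the strand going from bottom right to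
  top left is the upper one (the one closer to the viewer);
* `neg` at `i`: a crossing of the strands `i` and `i + 1`; the strand going from bottom left to
  top right is the upper one.
-/

namespace Pool.Agent.Work.MP_3edda8_gt

/-- The four kinds of elementary events of a plane diagram in Morse position. -/
inductive Kind : Type
  | cup : Kind
  | cap : Kind
  | pos : Kind
  | neg : Kind
  deriving DecidableEq

/-- Number of strands entering an event from below. -/
def Kind.inp : Kind → ℕ
  | .cup => 0
  | .cap => 2
  | .pos => 2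
  | .neg => 2

/-- Number of strands leaving an event at the top. -/
def Kind.out : Kind → ℕ
  | .cup => 2
  | .cap => 0
  | .pos => 2
  | .neg => 2

/-- An elementary event: its kind and the number of strands to its left. -/
structure Ev : Type where
  kind : Kind
  loc : ℕ
  deriving DecidableEq

/-- `Typed w m k`: the list of events `w` is a tangle diagram (in a strip) with `m` lower and
`k` upper end points. -/
def Typed : List Ev → ℕ → ℕ → Prop
  | [], m, k => m = k
  | e :: w, m, k => e.loc + e.kind.inp ≤ m ∧ Typed w (m - e.kind.inp + e.kind.out) k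

/-- The number of strands at the top of `w` when there are `m` strands at the bottom. -/
def width : List Ev → ℕ → ℕ
  | [], m => m
  | e :: w, m => width w (m - e.kind.inp + e.kind.out)

/-- Put `a` further strands to the left of a tangle diagram. -/
def sh (a : ℕ) (w : List Ev) : List Ev := w.map fun e => ⟨e.kind, a + e.loc⟩

/-- The local moves: planar isotopies (exchange of distant events, cancellation of a minimum and
a maximum, sliding a strand over a minimum or a maximum) and the three Reidemeister moves. -/
inductive LocalMove : List Ev → List Ev → Prop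
  /-- two events far from each other are exchanged -/
  | comm (x y : Kind) (i k : ℕ) :
      LocalMove [⟨x, i⟩, ⟨y, i + x.out + k⟩] [⟨y, i + x.inp + k⟩, ⟨x, i⟩]
  /-- cancellation of a minimum and a maximum -/
  | zig (i : ℕ) : LocalMove [⟨.cup, i⟩, ⟨.cap, i + 1⟩] []
  | zag (i : ℕ) : LocalMove [⟨.cup, i + 1⟩, ⟨.cap, i⟩] []
  /-- a crossing slides through a minimum -/
  | cupPos (i : ℕ) : LocalMove [⟨.cup, i⟩, ⟨.pos, i + 1⟩] [⟨.cup, i + 1⟩, ⟨.neg, i⟩]
  | cupNeg (i : ℕ) : LocalMove [⟨.cup, i⟩, ⟨.neg, i + 1⟩] [⟨.cup, i + 1⟩, ⟨.pos, i⟩]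
  /-- a crossing slides through a maximum -/
  | capPos (i : ℕ) : LocalMove [⟨.pos, i⟩, ⟨.cap, i + 1⟩] [⟨.neg, i + 1⟩, ⟨.cap, i⟩]
  | capNeg (i : ℕ) : LocalMove [⟨.neg, i⟩, ⟨.cap, i + 1⟩] [⟨.pos, i + 1⟩, ⟨.cap, i⟩]
  /-- the first Reidemeister move -/
  | r1cupPos (i : ℕ) : LocalMove [⟨.cup, i⟩, ⟨.pos, i⟩] [⟨.cup, i⟩]
  | r1cupNeg (i : ℕ) : LocalMove [⟨.cup, i⟩, ⟨.neg, i⟩] [⟨.cup, i⟩]
  | r1capPos (i : ℕ) : LocalMove [⟨.pos, i⟩, ⟨.cap, i⟩] [⟨.cap, i⟩]
  | r1capNeg (i : ℕ) : LocalMove [⟨.neg, i⟩, ⟨.cap, i⟩] [⟨.cap, i⟩]
  /-- the second Reidemeister move -/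
  | r2a (i : ℕ) : LocalMove [⟨.pos, i⟩, ⟨.neg, i⟩] []
  | r2b (i : ℕ) : LocalMove [⟨.neg, i⟩, ⟨.pos, i⟩] []
  /-- the third Reidemeister move -/
  | r3pos (i : ℕ) : LocalMove [⟨.pos, i⟩, ⟨.pos, i + 1⟩, ⟨.pos, i⟩]
      [⟨.pos, i + 1⟩, ⟨.pos, i⟩, ⟨.pos, i + 1⟩]
  | r3neg (i : ℕ) : LocalMove [⟨.neg, i⟩, ⟨.neg, i + 1⟩, ⟨.neg, i⟩]
      [⟨.neg, i + 1⟩, ⟨.neg, i⟩, ⟨.neg, i + 1⟩]

/-- `LabelStep e s s'`: a labelling `s` of the strands below the event `e` and a labelling `s'`
of the strands above `e` fit together to a locally constant function on the curve. -/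
structure LabelStep (e : Ev) (s s' : ℕ → Bool) : Prop where
  left : ∀ j < e.loc, s' j = s j
  right : ∀ j, s' (e.loc + e.kind.out + j) = s (e.loc + e.kind.inp + j)
  mid : match e.kind with
    | .cup => s' e.loc = s' (e.loc + 1)
    | .cap => s e.loc = s (e.loc + 1)
    | .pos => s' e.loc = s (e.loc + 1) ∧ s' (e.loc + 1) = s e.loc
    | .neg => s' e.loc = s (e.loc + 1) ∧ s' (e.loc + 1) = s e.loc

/-- A locally constant function with values in `Bool` on the curve drawn by `D`:
`f t j` is the value on strand `j` after the first `t` events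
(values at `j` beyond the number of strands are irrelevant). -/
def IsLabelling (D : List Ev) (f : ℕ → ℕ → Bool) : Prop :=
  ∀ (t : ℕ) (h : t < D.length), LabelStep D[t] (f t) (f (t + 1))

/-- `D` is a knot diagram: closed, not empty, and the underlying curve is connected, that is,
every locally constant function on it is constant. -/
structure IsKnot (D : List Ev) : Prop where
  typed : Typed D 0 0
  nonempty : D ≠ []
  connected : ∀ f, IsLabelling D f → ∀ t j t' j',
    j < width (D.take t) 0 → j' < width (D.take t') 0 → f t j = f t' j'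

/-- Knot diagrams. -/
def Diagram : Type := {D : List Ev // IsKnot D}

/-- `n`-tangles: tangle diagrams in a disk with `2 * n` end points, drawn with all end points at
the top (numbered from left to right). -/
def Tangle (n : ℕ) : Type := {T : List Ev // Typed T 0 (2 * n)}

/-- One local move (planar isotopy or Reidemeister move) between knot diagrams. -/
def ReidStep (D D' : Diagram) : Prop :=
  ∃ u v r r', LocalMove r r' ∧ D.1 = u ++ r ++ v ∧ D'.1 = u ++ r' ++ v

/-- Knots: knot diagrams modulo planar isotopy and Reidemeister moves. -/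
def Knot : Type := Quot ReidStep

/-- The knot of a diagram. -/
def Diagram.knot (D : Diagram) : Knot := Quot.mk _ D

/-- `D'` arises from `D` by replacing a copy of `T` by `T'` in some disk, for a move
`(T, T')` of degree `n` in `M`. -/
def AppDiag {n : ℕ} (M : Set (Tangle n × Tangle n)) (D D' : Diagram) : Prop :=
  ∃ T T', (T, T') ∈ M ∧ ∃ u v a, D.1 = u ++ sh a T.1 ++ v ∧ D'.1 = u ++ sh a T'.1 ++ v

/-- The knot `K'` arises from `K` by one application of a move of `M`. -/
def App {n : ℕ} (M : Set (Tangle n × Tangle n)) (K K' : Knot) : Prop :=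
  ∃ D D' : Diagram, D.knot = K ∧ D'.knot = K' ∧ AppDiag M D D'

/-- The invariant `I_M` of a set `M` of moves: the projection of knots to knots modulo `M`. -/
def skeinInv {n : ℕ} (M : Set (Tangle n × Tangle n)) (K : Knot) : Quot (App M) := Quot.mk _ K

/-- Two knot invariants are identified if there is a bijection of their images that carries one
to the other. -/
def Identified {X X' : Type} (I : Knot → X) (I' : Knot → X') : Prop :=
  ∃ f : Set.range I' → Set.range I, Function.Bijective f ∧ ∀ K, I K = f ⟨I' K, K, rfl⟩

/-- `I` is a skein invariant of degree `n`: it is identified with `I_M` for some finite set `M`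
of moves of degree `n`. -/
def HasDegree {X : Type} (n : ℕ) (I : Knot → X) : Prop :=
  ∃ M : Set (Tangle n × Tangle n), M.Finite ∧ Identified I (skeinInv M)

end Pool.Agent.Work.MP_3edda8_gt
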