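import Pool.Agent.Work.MP_3edda8_gt.SK.Loc

/-!
MODULE Glue (S-M): a tangle `S` placed inside a word `u ++ sh a S ++ v`.

PROOF.  `glue_iff`: `ok_append` twice, `tangle_ok`, `tangle_run`, `cups_append`, `cups_sh`
(the colours of the part `v` are shifted by `cups u + cups S`; `Nat.add_assoc` under `funext`).
`repl_ok`: `glue_iff` in both directions; on `u` and `v` the colours did not change
(`ok_congr`, `run_congr`), the colours on `S` are those of `c'` (`ok_congr`, `run_congr`), and the
state after `S` is the same by `hb` (only the values of `run op S ..` at `j < 2 * N` enter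
`insN`).
-/

namespace Pool.Agent.Work.MP_3edda8_gt

variable {Q : Type}

/-- insert the strands `x 0, ..., x (m-1)` at position `a` -/
def insN (a m : ℕ) (x s : ℕ → Q) : ℕ → Q :=
  fun j => if j < a then s j else if j < a + m then x (j - a) else s (j - m)

/-- replace the colours of the cups `k, ..., k + n - 1` -/
def repl (k n : ℕ) (f c : ℕ → Q) : ℕ → Q :=
  fun t => if k ≤ t ∧ t < k + n then c (t - k) else f t

theorem glue_iff (op : Q → Q → Q) {u S v : List Ev} {N : ℕ} (hS : Typed S 0 (2 * N)) (a : ℕ)
    (s b f : ℕ → Q) :
    ok op (u ++ sh a S ++ v) s f ↔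
      ok op u s f ∧ ok op S b (fun n => f (cups u + n)) ∧
      ok op v (insN a (2 * N) (run op S b (fun n => f (cups u + n))) (run op u s f))
        (fun n => f (cups u + cups S + n)) := by
  have h1 : run op (u ++ sh a S) s f =
      insN a (2 * N) (run op S b (fun n => f (cups u + n))) (run op u s f) := by
    rw [run_append, tangle_run op hS a (run op u s f) b (fun n => f (cups u + n))]
    rfl
  have h2 : (fun n => f (cups (u ++ sh a S) + n)) = fun n => f (cups u + cups S + n) := by
    funext n
    rw [cups_append, cups_sh]
  rw [ok_append, ok_append, tangle_ok op hS a (run op u s f) b, h1, h2, and_assoc]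

theorem repl_ok (op : Q → Q → Q) {u S v : List Ev} {N : ℕ} (hS : Typed S 0 (2 * N)) (a : ℕ)
    (s b f c' : ℕ → Q) (hf : ok op (u ++ sh a S ++ v) s f) (hc : ok op S b c')
    (hb : ∀ j < 2 * N, run op S b c' j = run op S b (fun n => f (cups u + n)) j) :
    ok op (u ++ sh a S ++ v) s (repl (cups u) (cups S) f c') := by
  rw [glue_iff op hS a s b] at hf ⊢
  obtain ⟨h1, h2, h3⟩ := hf
  have e1 : ∀ n < cups u, repl (cups u) (cups S) f c' n = f n := by
    intro n hn
    unfold repl
    rw [if_neg (by omega)]
  have e2 : ∀ n < cups S, repl (cups u) (cups S) f c' (cups u + n) = c' n := by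
    intro n hn
    unfold repl
    rw [if_pos (by omega)]
    congr 1
    omega
  have e3 : (fun n => repl (cups u) (cups S) f c' (cups u + cups S + n)) =
      fun n => f (cups u + cups S + n) := by
    funext n
    unfold repl
    rw [if_neg (by omega)]
  have r1 : run op u s (repl (cups u) (cups S) f c') = run op u s f := run_congr op u s _ _ e1
  have r2 : run op S b (fun n => repl (cups u) (cups S) f c' (cups u + n)) = run op S b c' :=
    run_congr op S b _ _ e2
  refine ⟨(ok_congr op u s _ _ e1).2 h1, (ok_congr op S b _ _ e2).2 hc, ?_⟩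
  rw [r1, r2, e3]
  have e4 : insN a (2 * N) (run op S b c') (run op u s f) =
      insN a (2 * N) (run op S b (fun n => f (cups u + n))) (run op u s f) := by
    funext j
    unfold insN
    by_cases h4 : j < a
    · rw [if_pos h4, if_pos h4]
    · rw [if_neg h4, if_neg h4]
      by_cases h5 : j < a + 2 * N
      · rw [if_pos h5, if_pos h5, hb (j - a) (by omega)]
      · rw [if_neg h5, if_neg h5]
  rw [e4]
  exact h3

end Pool.Agent.Work.MP_3edda8_gt
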