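import Pool.Agent.Work.MP_3edda8_gt.SK.Base

/-!
MODULE Inv (M): the number of colourings by a kei is invariant under the local moves.

PROOF.  `cases h` (15 cases).  Unfold `cntK` (simp only [cntK]) and show that the states coincide:
the state identities are proved by `funext j; simp only [ins2, del2, crP, crN]; split_ifs` and
`omega` (for the index equalities use `congr 1; omega`).
* `comm x y i k`: 16 cases for `x, y`.  Use `Kind.inp`, `Kind.out` (simp).  cup / cup: exchange the
  two sums (`Finset.sum_comm`), the state after both is the same function: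
  `ins2 (i+2+k) d (ins2 i c s) = ins2 i c (ins2 (i+k) d s)`.  cap: the `if` condition reads
  strands which are not touched by the other event.  (Better: first prove, for each kind, a
  private lemma for the state, then the 16 cases.)
* `zig`: `∑ c, if (ins2 i c s) (i+1) = (ins2 i c s) (i+2) then .. else 0`; the condition is
  `c = s i`, so `Finset.sum_ite_eq`; the state is `del2 (i+1) (ins2 i (s i) s) = s`.
  `zag` the same.
* `cupPos`: the left sum over `c` has state `(c, z, op c z)` at `i, i+1, i+2` (`z = s i`), the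
  right one over `c'` has state `(op c' z, z, c')`; substitute `c = op c' z`
  (`Fintype.sum_equiv` with the involution `fun c => op c z`, `IsKei.invol`).  `cupNeg`: left
  `(c, op z c, c)`, right `(c', op z c', c')`: equal term by term (the crossing `neg` at `i+1` has
  the strand `i+1` = right leg of the cup on top; the crossing `pos` at `i` has the left leg on
  top), no substitution.
* `capPos`: strands `(x, y, z)` at `i, i+1, i+2`: left condition `op x y = z` and rest `y`; right
  condition `x = op z y`, rest `y`; equivalent by `invol`.  `capNeg`: left: `neg` at `i` gives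
  `(op y x, x, z)`, condition `x = z`, rest `op y x`; right: `pos` at `i+1` gives
  `(x, z, op y z)`, condition `x = z`, rest `op y z`.
* `r1cup..`: `idem`.  `r1capPos`: condition `y = op x y` iff `x = y` (apply `fun t => op t y` and
  use `invol`, `idem`).
* `r2`: `invol`.  `r3`: `dist`.
-/

namespace Pool.Agent.Work.MP_3edda8_gt

variable {Q : Type}

set_option linter.unusedSimpArgs false
set_option linter.unreachableTactic false
set_option linter.unusedTactic false

private theorem ii (i k : ℕ) (c d : Q) (s : ℕ → Q) :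
    ins2 (i + 2 + k) d (ins2 i c s) = ins2 i c (ins2 (i + 0 + k) d s) := by
  funext j
  simp only [ins2, del2, crP, crN]
  split_ifs <;> first | rfl | omega | (congr 1; omega) | (congr 1 <;> congr 1 <;> omega)

private theorem id_ (i k : ℕ) (c : Q) (s : ℕ → Q) :
    del2 (i + 2 + k) (ins2 i c s) = ins2 i c (del2 (i + 0 + k) s) := by
  funext j
  simp only [ins2, del2, crP, crN]
  split_ifs <;> first | rfl | omega | (congr 1; omega) | (congr 1 <;> congr 1 <;> omega)

private theorem ip (op : Q → Q → Q) (i k : ℕ) (c : Q) (s : ℕ → Q) :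
    crP op (i + 2 + k) (ins2 i c s) = ins2 i c (crP op (i + 0 + k) s) := by
  funext j
  simp only [ins2, del2, crP, crN]
  split_ifs <;> first | rfl | omega | (congr 1; omega) | (congr 1 <;> congr 1 <;> omega)

private theorem in_ (op : Q → Q → Q) (i k : ℕ) (c : Q) (s : ℕ → Q) :
    crN op (i + 2 + k) (ins2 i c s) = ins2 i c (crN op (i + 0 + k) s) := by
  funext j
  simp only [ins2, del2, crP, crN]
  split_ifs <;> first | rfl | omega | (congr 1; omega) | (congr 1 <;> congr 1 <;> omega)

private theorem di (i k : ℕ) (d : Q) (s : ℕ → Q) :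
    ins2 (i + 0 + k) d (del2 i s) = del2 i (ins2 (i + 2 + k) d s) := by
  funext j
  simp only [ins2, del2, crP, crN]
  split_ifs <;> first | rfl | omega | (congr 1; omega) | (congr 1 <;> congr 1 <;> omega)

private theorem dd (i k : ℕ) (s : ℕ → Q) :
    del2 (i + 0 + k) (del2 i s) = del2 i (del2 (i + 2 + k) s) := by
  funext j
  simp only [ins2, del2, crP, crN]
  split_ifs <;> first | rfl | omega | (congr 1; omega) | (congr 1 <;> congr 1 <;> omega)

private theorem dp (op : Q → Q → Q) (i k : ℕ) (s : ℕ → Q) :
    crP op (i + 0 + k) (del2 i s) = del2 i (crP op (i + 2 + k) s) := by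
  funext j
  simp only [ins2, del2, crP, crN]
  split_ifs <;> first | rfl | omega | (congr 1; omega) | (congr 1 <;> congr 1 <;> omega)

private theorem dn (op : Q → Q → Q) (i k : ℕ) (s : ℕ → Q) :
    crN op (i + 0 + k) (del2 i s) = del2 i (crN op (i + 2 + k) s) := by
  funext j
  simp only [ins2, del2, crP, crN]
  split_ifs <;> first | rfl | omega | (congr 1; omega) | (congr 1 <;> congr 1 <;> omega)

private theorem cPi (op : Q → Q → Q) (i k : ℕ) (d : Q) (s : ℕ → Q) :
    ins2 (i + 2 + k) d (crP op i s) = crP op i (ins2 (i + 2 + k) d s) := by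
  funext j
  simp only [ins2, del2, crP, crN]
  split_ifs <;> first | rfl | omega | (congr 1; omega) | (congr 1 <;> congr 1 <;> omega)

private theorem cPd (op : Q → Q → Q) (i k : ℕ) (s : ℕ → Q) :
    del2 (i + 2 + k) (crP op i s) = crP op i (del2 (i + 2 + k) s) := by
  funext j
  simp only [ins2, del2, crP, crN]
  split_ifs <;> first | rfl | omega | (congr 1; omega) | (congr 1 <;> congr 1 <;> omega)

private theorem cPP (op : Q → Q → Q) (i k : ℕ) (s : ℕ → Q) :
    crP op (i + 2 + k) (crP op i s) = crP op i (crP op (i + 2 + k) s) := by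
  funext j
  simp only [ins2, del2, crP, crN]
  split_ifs <;> first | rfl | omega | (congr 1; omega) | (congr 1 <;> congr 1 <;> omega)

private theorem cPN (op : Q → Q → Q) (i k : ℕ) (s : ℕ → Q) :
    crN op (i + 2 + k) (crP op i s) = crP op i (crN op (i + 2 + k) s) := by
  funext j
  simp only [ins2, del2, crP, crN]
  split_ifs <;> first | rfl | omega | (congr 1; omega) | (congr 1 <;> congr 1 <;> omega)

private theorem cNi (op : Q → Q → Q) (i k : ℕ) (d : Q) (s : ℕ → Q) :
    ins2 (i + 2 + k) d (crN op i s) = crN op i (ins2 (i + 2 + k) d s) := by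
  funext j
  simp only [ins2, del2, crP, crN]
  split_ifs <;> first | rfl | omega | (congr 1; omega) | (congr 1 <;> congr 1 <;> omega)

private theorem cNd (op : Q → Q → Q) (i k : ℕ) (s : ℕ → Q) :
    del2 (i + 2 + k) (crN op i s) = crN op i (del2 (i + 2 + k) s) := by
  funext j
  simp only [ins2, del2, crP, crN]
  split_ifs <;> first | rfl | omega | (congr 1; omega) | (congr 1 <;> congr 1 <;> omega)

private theorem cNP (op : Q → Q → Q) (i k : ℕ) (s : ℕ → Q) :
    crP op (i + 2 + k) (crN op i s) = crN op i (crP op (i + 2 + k) s) := by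
  funext j
  simp only [ins2, del2, crP, crN]
  split_ifs <;> first | rfl | omega | (congr 1; omega) | (congr 1 <;> congr 1 <;> omega)

private theorem cNN (op : Q → Q → Q) (i k : ℕ) (s : ℕ → Q) :
    crN op (i + 2 + k) (crN op i s) = crN op i (crN op (i + 2 + k) s) := by
  funext j
  simp only [ins2, del2, crP, crN]
  split_ifs <;> first | rfl | omega | (congr 1; omega) | (congr 1 <;> congr 1 <;> omega)

private theorem rIns {i j : ℕ} (c : Q) (s : ℕ → Q) (h : j < i) : ins2 i c s j = s j := by
  simp only [ins2, h, if_true]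

private theorem rIns' {i j : ℕ} (c : Q) (s : ℕ → Q) (h : i + 2 ≤ j) :
    ins2 i c s j = s (j - 2) := by
  have h1 : ¬ j < i := by omega
  have h2 : ¬ j < i + 2 := by omega
  simp only [ins2, h1, h2, if_false]

private theorem rInsM {i j : ℕ} (c : Q) (s : ℕ → Q) (h : i ≤ j) (h' : j < i + 2) :
    ins2 i c s j = c := by
  have h1 : ¬ j < i := by omega
  simp only [ins2, h1, h', if_false, if_true]

private theorem rDel {i j : ℕ} (s : ℕ → Q) (h : j < i) : del2 i s j = s j := by
  simp only [del2, h, if_true]

private theorem rDel' {i j : ℕ} (s : ℕ → Q) (h : i ≤ j) : del2 i s j = s (j + 2) := by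
  have h1 : ¬ j < i := by omega
  simp only [del2, h1, if_false]

private theorem rP {op : Q → Q → Q} {i j : ℕ} (s : ℕ → Q) (h : j < i ∨ i + 2 ≤ j) :
    crP op i s j = s j := by
  have h1 : ¬ j = i := by omega
  have h2 : ¬ j = i + 1 := by omega
  simp only [crP, h1, h2, if_false]

private theorem rN {op : Q → Q → Q} {i j : ℕ} (s : ℕ → Q) (h : j < i ∨ i + 2 ≤ j) :
    crN op i s j = s j := by
  have h1 : ¬ j = i := by omega
  have h2 : ¬ j = i + 1 := by omega
  simp only [crN, h1, h2, if_false]

private theorem rP0 {op : Q → Q → Q} {i : ℕ} (s : ℕ → Q) : crP op i s i = s (i + 1) := by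
  simp only [crP, if_true]

private theorem rP1 {op : Q → Q → Q} {i : ℕ} (s : ℕ → Q) :
    crP op i s (i + 1) = op (s i) (s (i + 1)) := by
  have h1 : ¬ i + 1 = i := by omega
  simp only [crP, h1, if_false, if_true]

private theorem rN0 {op : Q → Q → Q} {i : ℕ} (s : ℕ → Q) :
    crN op i s i = op (s (i + 1)) (s i) := by
  simp only [crN, if_true]

private theorem rN1 {op : Q → Q → Q} {i : ℕ} (s : ℕ → Q) : crN op i s (i + 1) = s i := by
  have h1 : ¬ i + 1 = i := by omega
  simp only [crN, h1, if_false, if_true]

private theorem st3 {i : ℕ} {f g : ℕ → Q} (h0 : f i = g i) (h1 : f (i + 1) = g (i + 1))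
    (h2 : f (i + 2) = g (i + 2)) (h : ∀ j, j < i ∨ i + 3 ≤ j → f j = g j) : f = g := by
  funext j
  by_cases e0 : j = i
  · rw [e0, h0]
  by_cases e1 : j = i + 1
  · rw [e1, h1]
  by_cases e2 : j = i + 2
  · rw [e2, h2]
  exact h j (by omega)

private theorem ite_iff {A B : Prop} {_ : Decidable A} {_ : Decidable B} {a b : ℕ} (h : A ↔ B)
    (h' : A → a = b) : (if A then a else 0) = if B then b else 0 := by
  by_cases hA : A
  · rw [if_pos hA, if_pos (h.1 hA), h' hA]
  · rw [if_neg hA, if_neg (fun hB => hA (h.2 hB))]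

private theorem comm_case [Fintype Q] (op : Q → Q → Q) (x y : Kind) (i k : ℕ) (s : ℕ → Q)
    (K : (ℕ → Q) → ℕ) :
    cntK op [⟨x, i⟩, ⟨y, i + x.out + k⟩] s K = cntK op [⟨y, i + x.inp + k⟩, ⟨x, i⟩] s K := by
  rcases x with _ | _ | _ | _ <;> rcases y with _ | _ | _ | _ <;>
    simp only [cntK, Kind.inp, Kind.out]
  · rw [Finset.sum_comm]
    exact Finset.sum_congr rfl fun c _ => Finset.sum_congr rfl fun d _ => by rw [ii]
  · have h1 : ∀ c : Q, ins2 i c s (i + 2 + k) = s (i + 0 + k) := fun c => by
      rw [rIns' c s (by omega)]; congr 1; omega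
    have h2 : ∀ c : Q, ins2 i c s (i + 2 + k + 1) = s (i + 0 + k + 1) := fun c => by
      rw [rIns' c s (by omega)]; congr 1; omega
    by_cases h : s (i + 0 + k) = s (i + 0 + k + 1)
    · rw [if_pos h]
      exact Finset.sum_congr rfl fun c _ => by rw [if_pos (by rw [h1, h2]; exact h), id_]
    · rw [if_neg h]
      exact Finset.sum_eq_zero fun c _ => if_neg (by rw [h1, h2]; exact h)
  · exact Finset.sum_congr rfl fun c _ => by rw [ip]
  · exact Finset.sum_congr rfl fun c _ => by rw [in_]
  · have h1 : ∀ c : Q, ins2 (i + 2 + k) c s i = s i := fun c => rIns c s (by omega)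
    have h2 : ∀ c : Q, ins2 (i + 2 + k) c s (i + 1) = s (i + 1) := fun c => rIns c s (by omega)
    by_cases h : s i = s (i + 1)
    · rw [if_pos h]
      exact Finset.sum_congr rfl fun c _ => by rw [if_pos (by rw [h1, h2]; exact h), di]
    · rw [if_neg h]
      exact (Finset.sum_eq_zero fun c _ => if_neg (by rw [h1, h2]; exact h)).symm
  · have h1 : del2 i s (i + 0 + k) = s (i + 2 + k) := by
      rw [rDel' s (by omega)]; congr 1; omega
    have h2 : del2 i s (i + 0 + k + 1) = s (i + 2 + k + 1) := by
      rw [rDel' s (by omega)]; congr 1; omega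
    have h3 : del2 (i + 2 + k) s i = s i := rDel s (by omega)
    have h4 : del2 (i + 2 + k) s (i + 1) = s (i + 1) := rDel s (by omega)
    by_cases hA : s i = s (i + 1)
    · rw [if_pos hA]
      refine ite_iff (by rw [h1, h2]) fun _ => ?_
      rw [if_pos (by rw [h3, h4]; exact hA), dd]
    · rw [if_neg hA]
      have hA' : ¬ del2 (i + 2 + k) s i = del2 (i + 2 + k) s (i + 1) := by
        rw [h3, h4]; exact hA
      rw [if_neg hA']
      split_ifs <;> rfl
  · have h3 : crP op (i + 2 + k) s i = s i := rP s (Or.inl (by omega))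
    have h4 : crP op (i + 2 + k) s (i + 1) = s (i + 1) := rP s (Or.inl (by omega))
    exact ite_iff (by rw [h3, h4]) fun _ => by rw [dp]
  · have h3 : crN op (i + 2 + k) s i = s i := rN s (Or.inl (by omega))
    have h4 : crN op (i + 2 + k) s (i + 1) = s (i + 1) := rN s (Or.inl (by omega))
    exact ite_iff (by rw [h3, h4]) fun _ => by rw [dn]
  · exact Finset.sum_congr rfl fun c _ => by rw [cPi]
  · have h3 : crP op i s (i + 2 + k) = s (i + 2 + k) := rP s (Or.inr (by omega))
    have h4 : crP op i s (i + 2 + k + 1) = s (i + 2 + k + 1) := rP s (Or.inr (by omega))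
    exact ite_iff (by rw [h3, h4]) fun _ => by rw [cPd]
  · rw [cPP]
  · rw [cPN]
  · exact Finset.sum_congr rfl fun c _ => by rw [cNi]
  · have h3 : crN op i s (i + 2 + k) = s (i + 2 + k) := rN s (Or.inr (by omega))
    have h4 : crN op i s (i + 2 + k + 1) = s (i + 2 + k + 1) := rN s (Or.inr (by omega))
    exact ite_iff (by rw [h3, h4]) fun _ => by rw [cNd]
  · rw [cNP]
  · rw [cNN]

theorem cntK_local [Fintype Q] {op : Q → Q → Q} (hop : IsKei op) {r r' : List Ev}
    (h : LocalMove r r') (s : ℕ → Q) (k : (ℕ → Q) → ℕ) : cntK op r s k = cntK op r' s k := by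
  have hid := hop.idem
  have hinv := hop.invol
  have hdist := hop.dist
  have n1 : ∀ i : ℕ, ¬ i + 1 + 1 < i := fun i => by omega
  have n2 : ∀ i : ℕ, ¬ i + 1 + 1 = i := fun i => by omega
  have n3 : ∀ i : ℕ, ¬ i = i + 1 + 1 := fun i => by omega
  have n4 : ∀ i : ℕ, ¬ i + 1 + 2 = i := fun i => by omega
  have n5 : ∀ i : ℕ, ¬ i + 2 + 2 = i := fun i => by omega
  cases h with
  | comm x y i k' => exact comm_case op x y i k' s k
  | zig i =>
    simp only [cntK]
    have h1 : ∀ c : Q, ins2 i c s (i + 1) = c := fun c => rInsM c s (by omega) (by omega)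
    have h2 : ∀ c : Q, ins2 i c s (i + 1 + 1) = s i := fun c => by
      rw [rIns' c s (by omega)]; congr 1
    have h3 : del2 (i + 1) (ins2 i (s i) s) = s := by
      funext j
      by_cases hj : j < i + 1
      · rw [rDel _ hj]
        by_cases hj' : j < i
        · exact rIns _ _ hj'
        · rw [rInsM _ _ (by omega) (by omega)]; congr 1; omega
      · rw [rDel' _ (by omega), rIns' _ _ (by omega)]; congr 1
    rw [Finset.sum_eq_single (s i)]
    · rw [h1, h2, if_pos rfl, h3]
    · intro c _ hc
      rw [h1, h2, if_neg hc]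
    · intro h; exact absurd (Finset.mem_univ _) h
  | zag i =>
    simp only [cntK]
    have h1 : ∀ c : Q, ins2 (i + 1) c s i = s i := fun c => rIns c s (by omega)
    have h2 : ∀ c : Q, ins2 (i + 1) c s (i + 1) = c := fun c => rInsM c s (by omega) (by omega)
    have h3 : del2 i (ins2 (i + 1) (s i) s) = s := by
      funext j
      by_cases hj : j < i
      · rw [rDel _ hj]
        exact rIns _ _ (by omega)
      · rw [rDel' _ (by omega)]
        by_cases hj' : j = i
        · rw [rInsM _ _ (by omega) (by omega), hj']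
        · rw [rIns' _ _ (by omega)]; congr 1
    rw [Finset.sum_eq_single (s i)]
    · rw [h1, h2, if_pos rfl, h3]
    · intro c _ hc
      rw [h1, h2, if_neg (fun h => hc h.symm)]
    · intro h; exact absurd (Finset.mem_univ _) h
  | cupPos i =>
    simp only [cntK]
    refine Fintype.sum_equiv
      (Function.Involutive.toPerm (fun c => op c (s i)) (fun c => hinv c (s i))) _ _ fun c => ?_
    show k (crP op (i + 1) (ins2 i c s)) = k (crN op i (ins2 (i + 1) (op c (s i)) s))
    congr 1
    apply st3 (i := i)
    · simp [ins2, del2, crP, crN, n1, n2, n3, n4, n5, hinv]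
    · simp [ins2, del2, crP, crN, n1, n2, n3, n4, n5]
    · simp [ins2, del2, crP, crN, n1, n2, n3, n4, n5, hinv]
    · intro j hj
      simp only [ins2, del2, crP, crN]
      split_ifs <;> first | rfl | omega | (congr 1; omega) | (congr 1 <;> congr 1 <;> omega)
  | cupNeg i =>
    simp only [cntK]
    refine Finset.sum_congr rfl fun c _ => ?_
    congr 1
    apply st3 (i := i)
    · simp [ins2, del2, crP, crN, n1, n2, n3, n4, n5]
    · simp [ins2, del2, crP, crN, n1, n2, n3, n4, n5]
    · simp [ins2, del2, crP, crN, n1, n2, n3, n4, n5]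
    · intro j hj
      simp only [ins2, del2, crP, crN]
      split_ifs <;> first | rfl | omega | (congr 1; omega) | (congr 1 <;> congr 1 <;> omega)
  | capPos i =>
    simp only [cntK]
    have h1 : crP op i s (i + 1) = op (s i) (s (i + 1)) := rP1 s
    have h2 : crP op i s (i + 1 + 1) = s (i + 2) := rP s (Or.inr (by omega))
    have h3 : crN op (i + 1) s i = s i := rN s (Or.inl (by omega))
    have h4 : crN op (i + 1) s (i + 1) = op (s (i + 2)) (s (i + 1)) := rN0 s
    rw [h1, h2, h3, h4]
    refine ite_iff ⟨fun h => ?_, fun h => ?_⟩ fun _ => ?_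
    · rw [← h, hinv]
    · rw [h, hinv]
    congr 1
    apply st3 (i := i)
    · simp [ins2, del2, crP, crN, n1, n2, n3, n4, n5]
    · simp [ins2, del2, crP, crN, n1, n2, n3, n4, n5]
    · simp [ins2, del2, crP, crN, n1, n2, n3, n4, n5]
    · intro j hj
      simp only [ins2, del2, crP, crN]
      split_ifs <;> first | rfl | omega | (congr 1; omega) | (congr 1 <;> congr 1 <;> omega)
  | capNeg i =>
    simp only [cntK]
    have h1 : crN op i s (i + 1) = s i := rN1 s
    have h2 : crN op i s (i + 1 + 1) = s (i + 2) := rN s (Or.inr (by omega))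
    have h3 : crP op (i + 1) s i = s i := rP s (Or.inl (by omega))
    have h4 : crP op (i + 1) s (i + 1) = s (i + 2) := rP0 s
    rw [h1, h2, h3, h4]
    refine ite_iff Iff.rfl fun hh => ?_
    congr 1
    apply st3 (i := i)
    · simp [ins2, del2, crP, crN, n1, n2, n3, n4, n5, hh]
    · simp [ins2, del2, crP, crN, n1, n2, n3, n4, n5]
    · simp [ins2, del2, crP, crN, n1, n2, n3, n4, n5]
    · intro j hj
      simp only [ins2, del2, crP, crN]
      split_ifs <;> first | rfl | omega | (congr 1; omega) | (congr 1 <;> congr 1 <;> omega)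
  | r1cupPos i =>
    simp only [cntK]
    refine Finset.sum_congr rfl fun c _ => ?_
    congr 1
    apply st3 (i := i)
    · simp [ins2, del2, crP, crN, n1, n2, n3, n4, n5, hid]
    · simp [ins2, del2, crP, crN, n1, n2, n3, n4, n5, hid]
    · simp [ins2, del2, crP, crN, n1, n2, n3, n4, n5]
    · intro j hj
      simp only [ins2, del2, crP, crN]
      split_ifs <;> first | rfl | omega | (congr 1; omega) | (congr 1 <;> congr 1 <;> omega)
  | r1cupNeg i =>
    simp only [cntK]
    refine Finset.sum_congr rfl fun c _ => ?_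
    congr 1
    apply st3 (i := i)
    · simp [ins2, del2, crP, crN, n1, n2, n3, n4, n5, hid]
    · simp [ins2, del2, crP, crN, n1, n2, n3, n4, n5, hid]
    · simp [ins2, del2, crP, crN, n1, n2, n3, n4, n5]
    · intro j hj
      simp only [ins2, del2, crP, crN]
      split_ifs <;> first | rfl | omega | (congr 1; omega) | (congr 1 <;> congr 1 <;> omega)
  | r1capPos i =>
    simp only [cntK]
    rw [rP0, rP1]
    refine ite_iff ⟨fun h => ?_, fun h => ?_⟩ fun _ => ?_
    · have h1 : op (s (i + 1)) (s (i + 1)) = s i := by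
        nth_rewrite 1 [h]
        exact hinv _ _
      rw [← h1, hid]
    · rw [h, hid]
    congr 1
    apply st3 (i := i)
    · simp [ins2, del2, crP, crN, n1, n2, n3, n4, n5]
    · simp [ins2, del2, crP, crN, n1, n2, n3, n4, n5]
    · simp [ins2, del2, crP, crN, n1, n2, n3, n4, n5]
    · intro j hj
      simp only [ins2, del2, crP, crN]
      split_ifs <;> first | rfl | omega | (congr 1; omega) | (congr 1 <;> congr 1 <;> omega)
  | r1capNeg i =>
    simp only [cntK]
    rw [rN0, rN1]
    refine ite_iff ⟨fun h => ?_, fun h => ?_⟩ fun _ => ?_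
    · have h1 : op (s i) (s i) = s (i + 1) := by
        nth_rewrite 1 [← h]
        exact hinv _ _
      rw [← h1, hid]
    · rw [h, hid]
    congr 1
    apply st3 (i := i)
    · simp [ins2, del2, crP, crN, n1, n2, n3, n4, n5]
    · simp [ins2, del2, crP, crN, n1, n2, n3, n4, n5]
    · simp [ins2, del2, crP, crN, n1, n2, n3, n4, n5]
    · intro j hj
      simp only [ins2, del2, crP, crN]
      split_ifs <;> first | rfl | omega | (congr 1; omega) | (congr 1 <;> congr 1 <;> omega)
  | r2a i =>
    simp only [cntK]
    congr 1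
    apply st3 (i := i)
    · simp [ins2, del2, crP, crN, n1, n2, n3, n4, n5, hinv]
    · simp [ins2, del2, crP, crN, n1, n2, n3, n4, n5, hinv]
    · simp [ins2, del2, crP, crN, n1, n2, n3, n4, n5]
    · intro j hj
      simp only [ins2, del2, crP, crN]
      split_ifs <;> first | rfl | omega | (congr 1; omega) | (congr 1 <;> congr 1 <;> omega)
  | r2b i =>
    simp only [cntK]
    congr 1
    apply st3 (i := i)
    · simp [ins2, del2, crP, crN, n1, n2, n3, n4, n5, hinv]
    · simp [ins2, del2, crP, crN, n1, n2, n3, n4, n5, hinv]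
    · simp [ins2, del2, crP, crN, n1, n2, n3, n4, n5]
    · intro j hj
      simp only [ins2, del2, crP, crN]
      split_ifs <;> first | rfl | omega | (congr 1; omega) | (congr 1 <;> congr 1 <;> omega)
  | r3pos i =>
    simp only [cntK]
    congr 1
    apply st3 (i := i)
    · simp [ins2, del2, crP, crN, n1, n2, n3, n4, n5]
    · simp [ins2, del2, crP, crN, n1, n2, n3, n4, n5]
    · simp [ins2, del2, crP, crN, n1, n2, n3, n4, n5, ← hdist]
    · intro j hj
      simp only [ins2, del2, crP, crN]
      split_ifs <;> first | rfl | omega | (congr 1; omega) | (congr 1 <;> congr 1 <;> omega)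
  | r3neg i =>
    simp only [cntK]
    congr 1
    apply st3 (i := i)
    · simp [ins2, del2, crP, crN, n1, n2, n3, n4, n5, ← hdist]
    · simp [ins2, del2, crP, crN, n1, n2, n3, n4, n5]
    · simp [ins2, del2, crP, crN, n1, n2, n3, n4, n5]
    · intro j hj
      simp only [ins2, del2, crP, crN]
      split_ifs <;> first | rfl | omega | (congr 1; omega) | (congr 1 <;> congr 1 <;> omega)

end Pool.Agent.Work.MP_3edda8_gt
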