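import Pool.Agent.Work.MP_3edda8_gt.SK.Keis

/-!
MODULE Iso (M): the colour form is isotropic; insertion of a twist region.

Let `A_j(x) = ∑_{i < j} (-1)^i x_i` and `ω_W(x, y) = ∑_{j < W} (-1)^j (A_j(x) y_j - A_j(y) x_j)`.

PROOF.
* `omg_run`: induction on the typed word `w` (from `m` to `k` strands).
  - crossing at `i` (`i + 2 ≤ m`), new states `x'`, `y'`: `A_j(x') = A_j(x)` for all
    `j ≠ i + 1` (the new pair has the same difference `x'_i - x'_{i+1} = x_i - x_{i+1}`; for `neg`
    too), so the terms `j ≠ i, i+1` of the sum do not change; the sum of the terms `i`, `i + 1` is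
    `(-1)^i (A_i(x) (y_i - y_{i+1}) - A_i(y) (x_i - x_{i+1})) - (x_i y_{i+1} - y_i x_{i+1})`
    and `x'_i y'_{i+1} - y'_i x'_{i+1} = x_i y_{i+1} - y_i x_{i+1}`.
  - cup at `i ≤ m`: `A_j(ins2 i c x) = A_j(x)` for `j ≤ i`, `A_{j+2}(ins2 i c x) = A_j(x)` for
    `j ≥ i`, and the two new terms cancel; `ω_{m+2}(ins2 i c x, ins2 i c' y) = ω_m(x, y)`.
  - cap at `i`: if `x_i = x_{i+1}` then `x = ins2 i (x i) (del2 i x)`, so this is the cup case
    read backwards.
  (Useful: split `Finset.range (i + 2 + r)` with `Finset.sum_range_succ` and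
  `Finset.sum_range_add` style lemmas.)
* `omg_bump`: linearity in the second argument; for the vector `u = e_i + e_{i+1}`:
  `ω_W(x, u) = x_{i+1} - x_i`.
* `insert_lemma`: let `x = run fox B 0 f`, `y = run fox B 0 g`,
  `z = run fox (replicate m ⟨pos, i⟩) y _` = `y` with `m (y_{i+1} - y_i)` added at `i` and `i + 1`
  (`run_tw`, `fox_tw`).  `omg_run` for `B`: `ω_W(x, y) = ω_0 = 0`.  `omg_run` for `U` (from `W` to
  `0` strands): `ω_W(x, z) = ω_0 (..) = 0` (both are `ok` on `U`).  `omg_bump`: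
  `m (y_{i+1} - y_i) (x_{i+1} - x_i) = 0`, hence `y_i = y_{i+1}`, `z = y` and `g` is `ok` on
  `B ++ U`.
-/

namespace Pool.Agent.Work.MP_3edda8_gt

/-- alternating partial sums -/
def alt {R : Type} [CommRing R] (x : ℕ → R) (j : ℕ) : R :=
  ∑ i ∈ Finset.range j, (-1) ^ i * x i

/-- the alternating form of the colours -/
def omg {R : Type} [CommRing R] (W : ℕ) (x y : ℕ → R) : R :=
  ∑ j ∈ Finset.range W, (-1) ^ j * (alt x j * y j - alt y j * x j)

private theorem alt_succ {R : Type} [CommRing R] (x : ℕ → R) (j : ℕ) :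
    alt x (j + 1) = alt x j + (-1) ^ j * x j := by
  unfold alt
  rw [Finset.sum_range_succ]

private theorem omg_succ {R : Type} [CommRing R] (W : ℕ) (x y : ℕ → R) :
    omg (W + 1) x y = omg W x y + (-1) ^ W * (alt x W * y W - alt y W * x W) := by
  unfold omg
  rw [Finset.sum_range_succ]

private theorem alt_congr {R : Type} [CommRing R] {x x' : ℕ → R} {j : ℕ}
    (h : ∀ l < j, x' l = x l) : alt x' j = alt x j := by
  unfold alt
  refine Finset.sum_congr rfl fun l hl => ?_
  rw [h l (Finset.mem_range.1 hl)]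

private theorem omg_congr {R : Type} [CommRing R] {x x' y y' : ℕ → R} {j : ℕ}
    (h : ∀ l < j, x' l = x l) (h' : ∀ l < j, y' l = y l) : omg j x' y' = omg j x y := by
  unfold omg
  refine Finset.sum_congr rfl fun l hl => ?_
  have hl' := Finset.mem_range.1 hl
  rw [h l hl', h' l hl', alt_congr fun a ha => h a (ha.trans hl'),
    alt_congr fun a ha => h' a (ha.trans hl')]

private theorem sgn_sq {R : Type} [CommRing R] (i : ℕ) : ((-1 : R) ^ i) * (-1) ^ i = 1 := by
  rw [← mul_pow]
  simp

private theorem alt_two {R : Type} [CommRing R] {x x' : ℕ → R} {i : ℕ}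
    (h : ∀ l < i, x' l = x l) (hd : x' i - x' (i + 1) = x i - x (i + 1))
    (h2 : ∀ l, x' (i + 2 + l) = x (i + 2 + l)) (r : ℕ) :
    alt x' (i + 2 + r) = alt x (i + 2 + r) := by
  induction r with
  | zero =>
    rw [add_zero, alt_succ, alt_succ, alt_succ x (i + 1), alt_succ x i, alt_congr h]
    linear_combination (-1) ^ i * hd
  | succ r ih =>
    rw [← add_assoc, alt_succ, alt_succ, ih, h2]

private theorem omg_two {R : Type} [CommRing R] {x x' y y' : ℕ → R} {i : ℕ}
    (hx : ∀ l < i, x' l = x l) (hxd : x' i - x' (i + 1) = x i - x (i + 1))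
    (hx2 : ∀ l, x' (i + 2 + l) = x (i + 2 + l))
    (hy : ∀ l < i, y' l = y l) (hyd : y' i - y' (i + 1) = y i - y (i + 1))
    (hy2 : ∀ l, y' (i + 2 + l) = y (i + 2 + l)) (r : ℕ) :
    omg (i + 2 + r) x' y' = omg (i + 2 + r) x y - (x' i * y' (i + 1) - y' i * x' (i + 1)) +
      (x i * y (i + 1) - y i * x (i + 1)) := by
  induction r with
  | zero =>
    rw [add_zero, omg_succ, omg_succ, omg_succ (i + 1) x y, omg_succ i x y, alt_succ, alt_succ,
      alt_succ x i, alt_succ y i, alt_congr hx, alt_congr hy, omg_congr hx hy]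
    have h1 := sgn_sq (R := R) i
    have h2 : (-1 : R) ^ (i + 1) = -((-1) ^ i) := by
      rw [pow_succ]
      ring
    rw [h2]
    linear_combination ((-1) ^ i * alt x i) * hyd - ((-1) ^ i * alt y i) * hxd -
      (x' i * y' (i + 1) - y' i * x' (i + 1)) * h1 + (x i * y (i + 1) - y i * x (i + 1)) * h1
  | succ r ih =>
    rw [← add_assoc, omg_succ, omg_succ, ih, hx2, hy2, alt_two hx hxd hx2, alt_two hy hyd hy2]
    ring

private theorem alt_ins {R : Type} [CommRing R] (x : ℕ → R) (c : R) (i r : ℕ) :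
    alt (ins2 i c x) (i + 2 + r) = alt x (i + r) := by
  have h0 : ∀ l < i, ins2 i c x l = x l := fun l hl => by
    simp only [ins2, if_pos hl]
  induction r with
  | zero =>
    rw [add_zero, add_zero, alt_succ, alt_succ, alt_congr h0]
    have h1 : ins2 i c x i = c := by
      simp [ins2]
    have h2 : ins2 i c x (i + 1) = c := by
      simp [ins2]
    rw [h1, h2]
    ring
  | succ r ih =>
    rw [← add_assoc, ← add_assoc, alt_succ, alt_succ, ih]
    have h1 : ins2 i c x (i + 2 + r) = x (i + r) := by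
      have h2 : ¬ i + 2 + r < i := by omega
      have h3 : ¬ i + 2 + r < i + 2 := by omega
      simp only [ins2, if_neg h2, if_neg h3]
      congr 1
      omega
    rw [h1]
    have h4 : (-1 : R) ^ (i + 2 + r) = (-1) ^ (i + r) := by
      rw [show i + 2 + r = i + r + 2 by ring, pow_add]
      ring
    rw [h4]

private theorem omg_ins {R : Type} [CommRing R] (x y : ℕ → R) (c c' : R) (i r : ℕ) :
    omg (i + 2 + r) (ins2 i c x) (ins2 i c' y) = omg (i + r) x y := by
  have h0 : ∀ (x : ℕ → R) (c : R), ∀ l < i, ins2 i c x l = x l := fun x c l hl => by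
    simp only [ins2, if_pos hl]
  have h1 : ∀ (x : ℕ → R) (c : R), ins2 i c x i = c := fun x c => by
    simp [ins2]
  have h2 : ∀ (x : ℕ → R) (c : R), ins2 i c x (i + 1) = c := fun x c => by
    simp [ins2]
  induction r with
  | zero =>
    rw [add_zero, add_zero, omg_succ, omg_succ, alt_succ, alt_succ, alt_congr (h0 x c),
      alt_congr (h0 y c'), omg_congr (h0 x c) (h0 y c'), h1, h1, h2, h2]
    ring
  | succ r ih =>
    rw [← add_assoc, ← add_assoc, omg_succ, omg_succ, ih, alt_ins, alt_ins]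
    have h3 : ∀ (x : ℕ → R) (c : R), ins2 i c x (i + 2 + r) = x (i + r) := fun x c => by
      have h2 : ¬ i + 2 + r < i := by omega
      have h3 : ¬ i + 2 + r < i + 2 := by omega
      simp only [ins2, if_neg h2, if_neg h3]
      congr 1
      omega
    have h4 : (-1 : R) ^ (i + 2 + r) = (-1) ^ (i + r) := by
      rw [show i + 2 + r = i + r + 2 by ring, pow_add]
      ring
    rw [h3, h3, h4]

private theorem ins_del {R : Type} {x : ℕ → R} {i : ℕ} (h : x i = x (i + 1)) :
    ins2 i (x i) (del2 i x) = x := by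
  funext j
  unfold ins2 del2
  by_cases h1 : j < i
  · rw [if_pos h1, if_pos h1]
  · rw [if_neg h1]
    by_cases h2 : j < i + 2
    · rw [if_pos h2]
      rcases (by omega : j = i ∨ j = i + 1) with h3 | h3
      · rw [h3]
      · rw [h3, h]
    · have h3 : ¬ j - 2 < i := by omega
      rw [if_neg h2, if_neg h3]
      congr 1
      omega

private theorem omg_crP {R : Type} [CommRing R] (x y : ℕ → R) (i r : ℕ) :
    omg (i + 2 + r) (crP fox i x) (crP fox i y) = omg (i + 2 + r) x y := by
  have h0 : ∀ x : ℕ → R, ∀ l < i, crP fox i x l = x l := fun x l hl => by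
    have h1 : l ≠ i := by omega
    have h2 : l ≠ i + 1 := by omega
    simp only [crP, if_neg h1, if_neg h2]
  have h1 : ∀ x : ℕ → R, crP fox i x i = x (i + 1) := fun x => by
    simp [crP]
  have h2 : ∀ x : ℕ → R, crP fox i x (i + 1) = 2 * x (i + 1) - x i := fun x => by
    simp [crP, fox]
  have h3 : ∀ x : ℕ → R, ∀ l, crP fox i x (i + 2 + l) = x (i + 2 + l) := fun x l => by
    have h1 : i + 2 + l ≠ i := by omega
    have h2 : i + 2 + l ≠ i + 1 := by omega
    simp only [crP, if_neg h1, if_neg h2]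
  rw [omg_two (h0 x) (by rw [h1, h2]; ring) (h3 x) (h0 y) (by rw [h1, h2]; ring) (h3 y), h1, h1,
    h2, h2]
  ring

private theorem omg_crN {R : Type} [CommRing R] (x y : ℕ → R) (i r : ℕ) :
    omg (i + 2 + r) (crN fox i x) (crN fox i y) = omg (i + 2 + r) x y := by
  have h0 : ∀ x : ℕ → R, ∀ l < i, crN fox i x l = x l := fun x l hl => by
    have h1 : l ≠ i := by omega
    have h2 : l ≠ i + 1 := by omega
    simp only [crN, if_neg h1, if_neg h2]
  have h1 : ∀ x : ℕ → R, crN fox i x i = 2 * x i - x (i + 1) := fun x => by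
    simp [crN, fox]
  have h2 : ∀ x : ℕ → R, crN fox i x (i + 1) = x i := fun x => by
    simp [crN]
  have h3 : ∀ x : ℕ → R, ∀ l, crN fox i x (i + 2 + l) = x (i + 2 + l) := fun x l => by
    have h1 : i + 2 + l ≠ i := by omega
    have h2 : i + 2 + l ≠ i + 1 := by omega
    simp only [crN, if_neg h1, if_neg h2]
  rw [omg_two (h0 x) (by rw [h1, h2]; ring) (h3 x) (h0 y) (by rw [h1, h2]; ring) (h3 y), h1, h1,
    h2, h2]
  ring

theorem omg_run {R : Type} [CommRing R] {w : List Ev} {m k : ℕ} (h : Typed w m k)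
    (s s' c c' : ℕ → R) (h1 : ok fox w s c) (h2 : ok fox w s' c') :
    omg k (run fox w s c) (run fox w s' c') = omg m s s' := by
  induction w generalizing m s s' c c' with
  | nil =>
    have h3 : m = k := h
    rw [h3]
    rfl
  | cons e w ih =>
    rcases e with ⟨_ | _ | _ | _, i⟩
    · have h3 : i ≤ m := h.1
      obtain ⟨r, rfl⟩ := Nat.exists_eq_add_of_le h3
      have h4 : Typed w (i + r + 2) k := h.2
      have h5 := ih h4 (ins2 i (c 0) s) (ins2 i (c' 0) s') (fun n => c (n + 1))
        (fun n => c' (n + 1)) h1 h2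
      rw [show i + r + 2 = i + 2 + r by ring, omg_ins] at h5
      exact h5
    · have h3 : i + 2 ≤ m := h.1
      obtain ⟨r, rfl⟩ := Nat.exists_eq_add_of_le h3
      have h4 : Typed w (i + 2 + r - 2) k := h.2
      rw [show i + 2 + r - 2 = i + r by omega] at h4
      have h5 := ih h4 (del2 i s) (del2 i s') c c' h1.2 h2.2
      rw [← omg_ins _ _ (s i) (s' i), ins_del h1.1, ins_del h2.1] at h5
      exact h5
    · have h3 : i + 2 ≤ m := h.1
      obtain ⟨r, rfl⟩ := Nat.exists_eq_add_of_le h3
      have h4 : Typed w (i + 2 + r - 2 + 2) k := h.2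
      rw [show i + 2 + r - 2 + 2 = i + 2 + r by omega] at h4
      have h5 := ih h4 (crP fox i s) (crP fox i s') c c' h1 h2
      rw [omg_crP] at h5
      exact h5
    · have h3 : i + 2 ≤ m := h.1
      obtain ⟨r, rfl⟩ := Nat.exists_eq_add_of_le h3
      have h4 : Typed w (i + 2 + r - 2 + 2) k := h.2
      rw [show i + 2 + r - 2 + 2 = i + 2 + r by omega] at h4
      have h5 := ih h4 (crN fox i s) (crN fox i s') c c' h1 h2
      rw [omg_crN] at h5
      exact h5

theorem omg_bump {R : Type} [CommRing R] {W i : ℕ} (hi : i + 2 ≤ W) (x y : ℕ → R) (κ : R) :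
    omg W x (fun j => if j = i ∨ j = i + 1 then y j + κ else y j) =
      omg W x y + κ * (x (i + 1) - x i) := by
  obtain ⟨r, rfl⟩ := Nat.exists_eq_add_of_le hi
  have h1 : (if i = i ∨ i = i + 1 then y i + κ else y i) = y i + κ := if_pos (Or.inl rfl)
  have h2 : (if i + 1 = i ∨ i + 1 = i + 1 then y (i + 1) + κ else y (i + 1)) = y (i + 1) + κ :=
    if_pos (Or.inr rfl)
  rw [omg_two (x := x) (x' := x) (y := y) (i := i) (fun _ _ => rfl) rfl (fun _ => rfl)
    (fun l hl => if_neg (by omega)) (by rw [h1, h2]; ring) (fun l => if_neg (by omega)), h1, h2]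
  ring

theorem insert_lemma {F : Type} [Field F] {B U : List Ev} {W i m : ℕ} (hB : Typed B 0 W)
    (hU : Typed U W 0) (hi : i + 2 ≤ W) (hm : (m : F) ≠ 0) (f g : ℕ → F)
    (hf : ok fox (B ++ U) (fun _ => 0) f)
    (hne : run fox B (fun _ => 0) f i ≠ run fox B (fun _ => 0) f (i + 1))
    (hg : ok fox (B ++ List.replicate m ⟨.pos, i⟩ ++ U) (fun _ => 0) g) :
    ok fox (B ++ U) (fun _ => 0) g ∧
      run fox B (fun _ => 0) g i = run fox B (fun _ => 0) g (i + 1) := by
  rw [ok_append] at hf
  rw [ok_append, ok_append, run_append, cups_append, cups_tw, add_zero] at hg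
  obtain ⟨hf1, hf2⟩ := hf
  obtain ⟨⟨hg1, -⟩, hg2⟩ := hg
  set x := run fox B (fun _ => (0 : F)) f with hx
  set y := run fox B (fun _ => (0 : F)) g with hy
  have hz : run fox (List.replicate m ⟨.pos, i⟩) y (fun n => g (cups B + n)) =
      fun j => if j = i ∨ j = i + 1 then y j + m * (y (i + 1) - y i) else y j := by
    rw [run_tw, fox_tw]
    funext j
    by_cases h1 : j = i
    · rw [if_pos h1, if_pos (Or.inl h1), h1]
    · rw [if_neg h1]
      by_cases h2 : j = i + 1
      · rw [if_pos h2, if_pos (Or.inr h2), h2]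
      · rw [if_neg h2, if_neg (by tauto)]
  rw [hz] at hg2
  have e1 : omg W x y = 0 := omg_run hB _ _ f g hf1 hg1
  have e2 := omg_run hU _ _ _ _ hf2 hg2
  rw [omg_bump hi, e1, zero_add] at e2
  have e3 : m * (y (i + 1) - y i) * (x (i + 1) - x i) = 0 := by
    rw [← e2]
    rfl
  have e4 : x (i + 1) - x i ≠ 0 := fun h => hne (sub_eq_zero.1 h).symm
  have e5 : y (i + 1) - y i = 0 := by
    rcases mul_eq_zero.1 e3 with h | h
    · rcases mul_eq_zero.1 h with h' | h'
      · exact absurd h' hm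
      · exact h'
    · exact absurd h e4
  have e6 : (fun j => if j = i ∨ j = i + 1 then y j + m * (y (i + 1) - y i) else y j) = y := by
    funext j
    rw [e5, mul_zero, add_zero, ite_self]
  rw [e6] at hg2
  refine ⟨?_, (sub_eq_zero.1 e5).symm⟩
  rw [ok_append]
  exact ⟨hg1, hg2⟩

end Pool.Agent.Work.MP_3edda8_gt
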