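import Pool.Agent.Work.MP_3edda8_gt.SK.Iso
import Pool.Agent.Work.MP_3edda8_gt.SK.Glue

/-!
MODULE IsoB (M): the alternating form and inserted strands; isotropic subspaces have at most
`q ^ n` elements.

PROOF.
* `alt_run`: induction on the typed word: a crossing of the strands `i`, `i + 1` keeps
  `x_i - x_{i+1}` (`fox`), a cup inserts `c, c`, a cap removes two equal neighbours.
* `alt_insN`: `alt (insN a (2 n) x s) (W + 2 n) = alt s a + (-1)^a alt x (2 n) + (rest of s)`
  (`Finset.sum_range_add`, parity: `(-1)^(j + 2 n) = (-1)^j`).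
* `omg_insN`: write the sum over `j < W + 2 n` as the sum over `j < a`, `a ≤ j < a + 2 n`,
  `j ≥ a + 2 n`.  With `A_j` the partial alternating sums: for `j < a` they are those of `s`; for
  `j = a + i`, `i ≤ 2 n`: `A_j = A_a(s) + (-1)^a A_i(x)`; for `j = a + 2 n + i`: `A_{a+i}(s)`
  (as `alt x (2 n) = 0`).  So the middle part is
  `∑_i (-1)^{a+i} ((A_a(s) + (-1)^a A_i(x)) y_i - (A_a(t) + (-1)^a A_i(y)) x_i)
    = (-1)^a A_a(s) alt y (2n) - (-1)^a A_a(t) alt x (2n) + omg (2 n) x y = omg (2 n) x y`,
  the other two parts give `omg W s t`.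
* `isotropic_card`: the bilinear form `B x y = omg (2 n) (ext x) (ext y)` on
  `Fin (2 n) → ZMod q` is alternating and non-degenerate: if `B x y = 0` for all `y` then
  `y = e_i + e_{i+1}` gives `x_{i+1} = x_i` (`omg_bump` with `y = 0`), so `x` is constant `= c`, and
  `y = e_0` gives (sum) `c = 0` (`omg (2 n) x e_0 = - ∑_{1 ≤ j < 2 n} (-1)^j c = c`).
  An isotropic subspace `V` satisfies `V ≤ Bᗮ(V)` and
  `finrank V + finrank (orthogonal V) = 2 n` (`LinearMap.BilinForm.finrank_orthogonal` or
  `LinearMap.BilinForm.finrank_add_finrank_orthogonal..`), so `finrank V ≤ n` and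
  `Nat.card V = q ^ finrank V ≤ q ^ n` (`Module.natCard_eq_pow_finrank` or
  `Module.card_eq_pow_finrank`).
-/

namespace Pool.Agent.Work.MP_3edda8_gt

/-- extension of a finite vector by zero -/
def extz {R : Type} [CommRing R] {n : ℕ} (x : Fin n → R) : ℕ → R :=
  fun j => if h : j < n then x ⟨j, h⟩ else 0

private theorem altB_succ {R : Type} [CommRing R] (x : ℕ → R) (j : ℕ) :
    alt x (j + 1) = alt x j + (-1) ^ j * x j := by
  unfold alt
  rw [Finset.sum_range_succ]

private theorem omgB_succ {R : Type} [CommRing R] (W : ℕ) (x y : ℕ → R) :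
    omg (W + 1) x y = omg W x y + (-1) ^ W * (alt x W * y W - alt y W * x W) := by
  unfold omg
  rw [Finset.sum_range_succ]

private theorem altB_zero {R : Type} [CommRing R] (x : ℕ → R) : alt x 0 = 0 := by
  simp [alt]

private theorem omgB_zero {R : Type} [CommRing R] (x y : ℕ → R) : omg 0 x y = 0 := by
  simp [omg]

private theorem altB_congr {R : Type} [CommRing R] {x x' : ℕ → R} {j : ℕ}
    (h : ∀ l < j, x' l = x l) : alt x' j = alt x j := by
  unfold alt
  refine Finset.sum_congr rfl fun l hl => ?_
  rw [h l (Finset.mem_range.1 hl)]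

private theorem sgnB_sq {R : Type} [CommRing R] (i : ℕ) : ((-1 : R) ^ i) * (-1) ^ i = 1 := by
  rw [← mul_pow]
  simp

private theorem altB_two {R : Type} [CommRing R] {x x' : ℕ → R} {i : ℕ}
    (h : ∀ l < i, x' l = x l) (hd : x' i - x' (i + 1) = x i - x (i + 1))
    (h2 : ∀ l, x' (i + 2 + l) = x (i + 2 + l)) (r : ℕ) :
    alt x' (i + 2 + r) = alt x (i + 2 + r) := by
  induction r with
  | zero =>
    rw [add_zero, altB_succ, altB_succ, altB_succ x (i + 1), altB_succ x i, altB_congr h]
    linear_combination (-1) ^ i * hd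
  | succ r ih =>
    rw [← add_assoc, altB_succ, altB_succ, ih, h2]

private theorem altB_ins {R : Type} [CommRing R] (x : ℕ → R) (c : R) (i r : ℕ) :
    alt (ins2 i c x) (i + 2 + r) = alt x (i + r) := by
  have h0 : ∀ l < i, ins2 i c x l = x l := fun l hl => by
    simp only [ins2, if_pos hl]
  induction r with
  | zero =>
    rw [add_zero, add_zero, altB_succ, altB_succ, altB_congr h0]
    have h1 : ins2 i c x i = c := by
      simp [ins2]
    have h2 : ins2 i c x (i + 1) = c := by
      simp [ins2]
    rw [h1, h2]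
    ring
  | succ r ih =>
    rw [← add_assoc, ← add_assoc, altB_succ, altB_succ, ih]
    have h1 : ins2 i c x (i + 2 + r) = x (i + r) := by
      have h2 : ¬ i + 2 + r < i := by omega
      have h3 : ¬ i + 2 + r < i + 2 := by omega
      simp only [ins2, if_neg h2, if_neg h3]
      congr 1
      omega
    rw [h1]
    have h4 : (-1 : R) ^ (i + 2 + r) = (-1) ^ (i + r) := by
      rw [show i + 2 + r = i + r + 2 by ring, pow_add]
      ring
    rw [h4]

private theorem insB_del {R : Type} {x : ℕ → R} {i : ℕ} (h : x i = x (i + 1)) :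
    ins2 i (x i) (del2 i x) = x := by
  funext j
  unfold ins2 del2
  by_cases h1 : j < i
  · rw [if_pos h1, if_pos h1]
  · rw [if_neg h1]
    by_cases h2 : j < i + 2
    · rw [if_pos h2]
      rcases (by omega : j = i ∨ j = i + 1) with h3 | h3
      · rw [h3]
      · rw [h3, h]
    · have h3 : ¬ j - 2 < i := by omega
      rw [if_neg h2, if_neg h3]
      congr 1
      omega

private theorem altB_crP {R : Type} [CommRing R] (x : ℕ → R) (i r : ℕ) :
    alt (crP fox i x) (i + 2 + r) = alt x (i + 2 + r) := by
  have h0 : ∀ x : ℕ → R, ∀ l < i, crP fox i x l = x l := fun x l hl => by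
    have h1 : l ≠ i := by omega
    have h2 : l ≠ i + 1 := by omega
    simp only [crP, if_neg h1, if_neg h2]
  have h1 : ∀ x : ℕ → R, crP fox i x i = x (i + 1) := fun x => by
    simp [crP]
  have h2 : ∀ x : ℕ → R, crP fox i x (i + 1) = 2 * x (i + 1) - x i := fun x => by
    simp [crP, fox]
  have h3 : ∀ x : ℕ → R, ∀ l, crP fox i x (i + 2 + l) = x (i + 2 + l) := fun x l => by
    have h1 : i + 2 + l ≠ i := by omega
    have h2 : i + 2 + l ≠ i + 1 := by omega
    simp only [crP, if_neg h1, if_neg h2]
  exact altB_two (h0 x) (by rw [h1, h2]; ring) (h3 x) r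

private theorem altB_crN {R : Type} [CommRing R] (x : ℕ → R) (i r : ℕ) :
    alt (crN fox i x) (i + 2 + r) = alt x (i + 2 + r) := by
  have h0 : ∀ x : ℕ → R, ∀ l < i, crN fox i x l = x l := fun x l hl => by
    have h1 : l ≠ i := by omega
    have h2 : l ≠ i + 1 := by omega
    simp only [crN, if_neg h1, if_neg h2]
  have h1 : ∀ x : ℕ → R, crN fox i x i = 2 * x i - x (i + 1) := fun x => by
    simp [crN, fox]
  have h2 : ∀ x : ℕ → R, crN fox i x (i + 1) = x i := fun x => by
    simp [crN]
  have h3 : ∀ x : ℕ → R, ∀ l, crN fox i x (i + 2 + l) = x (i + 2 + l) := fun x l => by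
    have h1 : i + 2 + l ≠ i := by omega
    have h2 : i + 2 + l ≠ i + 1 := by omega
    simp only [crN, if_neg h1, if_neg h2]
  exact altB_two (h0 x) (by rw [h1, h2]; ring) (h3 x) r

theorem alt_run {R : Type} [CommRing R] {w : List Ev} {m k : ℕ} (h : Typed w m k)
    (s c : ℕ → R) (h1 : ok fox w s c) : alt (run fox w s c) k = alt s m := by
  induction w generalizing m s c with
  | nil =>
    have h3 : m = k := h
    rw [h3]
    rfl
  | cons e w ih =>
    rcases e with ⟨_ | _ | _ | _, i⟩
    · have h3 : i ≤ m := h.1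
      obtain ⟨r, rfl⟩ := Nat.exists_eq_add_of_le h3
      have h4 : Typed w (i + r + 2) k := h.2
      have h5 := ih h4 (ins2 i (c 0) s) (fun n => c (n + 1)) h1
      rw [show i + r + 2 = i + 2 + r by ring, altB_ins] at h5
      exact h5
    · have h3 : i + 2 ≤ m := h.1
      obtain ⟨r, rfl⟩ := Nat.exists_eq_add_of_le h3
      have h4 : Typed w (i + 2 + r - 2) k := h.2
      rw [show i + 2 + r - 2 = i + r by omega] at h4
      have h5 := ih h4 (del2 i s) c h1.2
      rw [← altB_ins _ (s i), insB_del h1.1] at h5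
      exact h5
    · have h3 : i + 2 ≤ m := h.1
      obtain ⟨r, rfl⟩ := Nat.exists_eq_add_of_le h3
      have h4 : Typed w (i + 2 + r - 2 + 2) k := h.2
      rw [show i + 2 + r - 2 + 2 = i + 2 + r by omega] at h4
      have h5 := ih h4 (crP fox i s) c h1
      rw [altB_crP] at h5
      exact h5
    · have h3 : i + 2 ≤ m := h.1
      obtain ⟨r, rfl⟩ := Nat.exists_eq_add_of_le h3
      have h4 : Typed w (i + 2 + r - 2 + 2) k := h.2
      rw [show i + 2 + r - 2 + 2 = i + 2 + r by omega] at h4
      have h5 := ih h4 (crN fox i s) c h1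
      rw [altB_crN] at h5
      exact h5

private theorem insN_lt {R : Type} [CommRing R] (a m : ℕ) (x s : ℕ → R) (j : ℕ) (hj : j < a) :
    insN a m x s j = s j := by
  unfold insN
  rw [if_pos hj]

private theorem insN_mid {R : Type} [CommRing R] (a m : ℕ) (x s : ℕ → R) (i : ℕ) (hi : i < m) :
    insN a m x s (a + i) = x i := by
  unfold insN
  rw [if_neg (by omega), if_pos (by omega)]
  congr 1
  omega

private theorem insN_ge {R : Type} [CommRing R] (a m : ℕ) (x s : ℕ → R) (r : ℕ) :
    insN a m x s (a + m + r) = s (a + r) := by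
  unfold insN
  rw [if_neg (by omega), if_neg (by omega)]
  congr 1
  omega

private theorem alt_mid {R : Type} [CommRing R] (a m : ℕ) (x s : ℕ → R) (i : ℕ) (hi : i ≤ m) :
    alt (insN a m x s) (a + i) = alt s a + (-1) ^ a * alt x i := by
  induction i with
  | zero =>
    rw [add_zero, altB_zero, mul_zero, add_zero]
    exact altB_congr fun l hl => insN_lt a m x s l hl
  | succ i ih =>
    rw [← add_assoc, altB_succ, ih (by omega), insN_mid a m x s i (by omega), altB_succ, pow_add]
    ring

private theorem alt_top {R : Type} [CommRing R] (a n : ℕ) (x s : ℕ → R) (r : ℕ) :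
    alt (insN a (2 * n) x s) (a + 2 * n + r) = alt s (a + r) + (-1) ^ a * alt x (2 * n) := by
  induction r with
  | zero =>
    rw [add_zero, add_zero, alt_mid a (2 * n) x s (2 * n) le_rfl]
  | succ r ih =>
    rw [← add_assoc, altB_succ, ih, insN_ge, ← add_assoc, altB_succ]
    have h1 : (-1 : R) ^ (a + 2 * n + r) = (-1) ^ (a + r) := by
      rw [show a + 2 * n + r = a + r + 2 * n by ring, pow_add, pow_mul]
      simp
    rw [h1]
    ring

theorem alt_insN {R : Type} [CommRing R] {a W n : ℕ} (ha : a ≤ W) (x s : ℕ → R) :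
    alt (insN a (2 * n) x s) (W + 2 * n) = alt s W + (-1) ^ a * alt x (2 * n) := by
  obtain ⟨r, rfl⟩ := Nat.exists_eq_add_of_le ha
  rw [show a + r + 2 * n = a + 2 * n + r by ring]
  exact alt_top a n x s r

/-- the form only sees the first `W` entries -/
theorem omg_congr {R : Type} [CommRing R] {W : ℕ} (x x' y y' : ℕ → R)
    (hx : ∀ j < W, x j = x' j) (hy : ∀ j < W, y j = y' j) : omg W x y = omg W x' y' := by
  unfold omg
  refine Finset.sum_congr rfl fun l hl => ?_
  have hl' := Finset.mem_range.1 hl
  rw [hx l hl', hy l hl', altB_congr fun a ha => hx a (ha.trans hl'),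
    altB_congr fun a ha => hy a (ha.trans hl')]

private theorem omg_mid {R : Type} [CommRing R] (a m : ℕ) (x y s t : ℕ → R) (i : ℕ) (hi : i ≤ m) :
    omg (a + i) (insN a m x s) (insN a m y t) =
      omg a s t + (-1) ^ a * alt s a * alt y i - (-1) ^ a * alt t a * alt x i + omg i x y := by
  induction i with
  | zero =>
    rw [add_zero, altB_zero, altB_zero, omgB_zero]
    rw [omg_congr (insN a m x s) s (insN a m y t) t (fun l hl => insN_lt a m x s l hl)
      (fun l hl => insN_lt a m y t l hl)]
    ring
  | succ i ih =>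
    rw [← add_assoc, omgB_succ, ih (by omega), insN_mid a m x s i (by omega),
      insN_mid a m y t i (by omega), alt_mid a m x s i (by omega), alt_mid a m y t i (by omega),
      altB_succ, altB_succ, omgB_succ, pow_add]
    have h1 := sgnB_sq (R := R) a
    linear_combination ((-1) ^ i * (alt x i * y i - alt y i * x i)) * h1

theorem omg_insN {R : Type} [CommRing R] {a W n : ℕ} (ha : a ≤ W) (x y s t : ℕ → R)
    (hx : alt x (2 * n) = 0) (hy : alt y (2 * n) = 0) :
    omg (W + 2 * n) (insN a (2 * n) x s) (insN a (2 * n) y t) = omg W s t + omg (2 * n) x y := by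
  obtain ⟨r, rfl⟩ := Nat.exists_eq_add_of_le ha
  rw [show a + r + 2 * n = a + 2 * n + r by ring]
  clear ha
  induction r with
  | zero =>
    rw [add_zero, add_zero, omg_mid a (2 * n) x y s t (2 * n) le_rfl, hx, hy]
    ring
  | succ r ih =>
    rw [← add_assoc, omgB_succ, ih, insN_ge, insN_ge, alt_top, alt_top, hx, hy, ← add_assoc,
      omgB_succ]
    have h1 : (-1 : R) ^ (a + 2 * n + r) = (-1) ^ (a + r) := by
      rw [show a + 2 * n + r = a + r + 2 * n by ring, pow_add, pow_mul]
      simp
    rw [h1]
    ring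

private theorem extz_lt {R : Type} [CommRing R] {n : ℕ} (x : Fin n → R) (j : ℕ) (hj : j < n) :
    extz x j = x ⟨j, hj⟩ := by
  unfold extz
  rw [dif_pos hj]

private theorem extz_add {R : Type} [CommRing R] {n : ℕ} (x y : Fin n → R) (j : ℕ) :
    extz (x + y) j = extz x j + extz y j := by
  unfold extz
  by_cases h : j < n
  · rw [dif_pos h, dif_pos h, dif_pos h]
    rfl
  · rw [dif_neg h, dif_neg h, dif_neg h, add_zero]

private theorem extz_smul {R : Type} [CommRing R] {n : ℕ} (c : R) (x : Fin n → R) (j : ℕ) :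
    extz (c • x) j = c * extz x j := by
  unfold extz
  by_cases h : j < n
  · rw [dif_pos h, dif_pos h]
    rfl
  · rw [dif_neg h, dif_neg h, mul_zero]

private theorem alt_extz_add {R : Type} [CommRing R] {n : ℕ} (x y : Fin n → R) (j : ℕ) :
    alt (extz (x + y)) j = alt (extz x) j + alt (extz y) j := by
  unfold alt
  rw [← Finset.sum_add_distrib]
  refine Finset.sum_congr rfl fun l _ => ?_
  rw [extz_add]
  ring

private theorem alt_extz_smul {R : Type} [CommRing R] {n : ℕ} (c : R) (x : Fin n → R) (j : ℕ) :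
    alt (extz (c • x)) j = c * alt (extz x) j := by
  unfold alt
  rw [Finset.mul_sum]
  refine Finset.sum_congr rfl fun l _ => ?_
  rw [extz_smul]
  ring

private theorem omg_swap {R : Type} [CommRing R] (W : ℕ) (x y : ℕ → R) :
    omg W x y = - omg W y x := by
  unfold omg
  rw [← Finset.sum_neg_distrib]
  refine Finset.sum_congr rfl fun l _ => ?_
  ring

private theorem omg_add_left {R : Type} [CommRing R] {n : ℕ} (W : ℕ) (x x' : Fin n → R)
    (y : ℕ → R) : omg W (extz (x + x')) y = omg W (extz x) y + omg W (extz x') y := by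
  unfold omg
  rw [← Finset.sum_add_distrib]
  refine Finset.sum_congr rfl fun l _ => ?_
  rw [alt_extz_add, extz_add]
  ring

private theorem omg_smul_left {R : Type} [CommRing R] {n : ℕ} (W : ℕ) (c : R) (x : Fin n → R)
    (y : ℕ → R) : omg W (extz (c • x)) y = c * omg W (extz x) y := by
  unfold omg
  rw [Finset.mul_sum]
  refine Finset.sum_congr rfl fun l _ => ?_
  rw [alt_extz_smul, extz_smul]
  ring

private noncomputable def bform (R : Type) [CommRing R] (n W : ℕ) :
    LinearMap.BilinForm R (Fin n → R) :=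
  LinearMap.mk₂ R (fun x y => omg W (extz x) (extz y))
    (fun x x' y => omg_add_left W x x' (extz y))
    (fun c x y => by rw [omg_smul_left, smul_eq_mul])
    (fun x y y' => by
      rw [omg_swap, omg_add_left, neg_add, ← omg_swap, ← omg_swap])
    (fun c x y => by
      rw [omg_swap, omg_smul_left, smul_eq_mul, omg_swap W (extz x) (extz y), mul_neg])

private theorem bform_apply (R : Type) [CommRing R] (n W : ℕ) (x y : Fin n → R) :
    bform R n W x y = omg W (extz x) (extz y) := rfl

private theorem omg_e0 {R : Type} [CommRing R] (c : R) (m : ℕ) :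
    omg (2 * m + 2) (fun _ => c) (fun j => if j = 0 then 1 else 0) = c ∧
      alt (fun j : ℕ => if j = 0 then (1 : R) else 0) (2 * m + 2) = 1 := by
  induction m with
  | zero =>
    constructor
    · rw [Nat.mul_zero, Nat.zero_add, omgB_succ, omgB_succ, omgB_zero, altB_succ, altB_succ,
        altB_zero, altB_zero]
      simp
    · rw [Nat.mul_zero, Nat.zero_add, altB_succ, altB_succ, altB_zero]
      simp
  | succ m ih =>
    have h1 : ¬ (2 * m + 2 + 1 = 0) := by omega
    have h2 : ¬ (2 * m + 2 = 0) := by omega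
    have h3 : 2 * (m + 1) + 2 = 2 * m + 2 + 1 + 1 := by ring
    constructor
    · rw [h3, omgB_succ, omgB_succ, ih.1,
        altB_succ (fun j : ℕ => if j = 0 then (1 : R) else 0) (2 * m + 2), ih.2]
      simp only [if_neg h1, if_neg h2]
      rw [pow_succ]
      ring
    · rw [h3, altB_succ, altB_succ, ih.2]
      simp only [if_neg h1, if_neg h2]
      ring

private theorem bform_ker {R : Type} [CommRing R] {n : ℕ} (x : Fin (2 * n) → R)
    (h : ∀ y, bform R (2 * n) (2 * n) x y = 0) : x = 0 := by
  have h1 : ∀ i, i + 2 ≤ 2 * n → extz x (i + 1) = extz x i := by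
    intro i hi
    have h2 := h (fun j => if (j : ℕ) = i ∨ (j : ℕ) = i + 1 then 0 + 1 else 0)
    rw [bform_apply, omg_congr (extz x) (extz x) _
      (fun j => if j = i ∨ j = i + 1 then (fun _ => (0 : R)) j + 1 else (fun _ => (0 : R)) j)
      (fun _ _ => rfl) (fun j hj => by rw [extz_lt _ j hj]),
      omg_bump hi (extz x) (fun _ => 0) 1] at h2
    have h3 : omg (2 * n) (extz x) (fun _ => 0) = 0 := by
      unfold omg alt
      simp
    rw [h3, zero_add, one_mul] at h2
    exact sub_eq_zero.1 h2
  have h4 : ∀ i, i < 2 * n → extz x i = extz x 0 := by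
    intro i
    induction i with
    | zero => intro _; rfl
    | succ i ih =>
      intro hi
      rw [h1 i (by omega), ih (by omega)]
  rcases Nat.eq_zero_or_pos n with hn | hn
  · subst hn
    funext j
    exact absurd j.2 (by omega)
  · obtain ⟨m, rfl⟩ : ∃ m, n = m + 1 := ⟨n - 1, by omega⟩
    have h5 := h (fun j => if (j : ℕ) = 0 then 1 else 0)
    rw [bform_apply, omg_congr (extz x) (fun _ => extz x 0) _
      (fun j => if j = 0 then (1 : R) else 0)
      (fun j hj => h4 j hj) (fun j hj => by rw [extz_lt _ j hj])] at h5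
    have h7 := (omg_e0 (extz x 0) m).1
    have h8 : extz x 0 = 0 := h7.symm.trans h5
    funext j
    have h6 := h4 j j.2
    rw [extz_lt x j j.2, h8] at h6
    exact h6

theorem isotropic_card {q n : ℕ} [Fact q.Prime] (V : Submodule (ZMod q) (Fin (2 * n) → ZMod q))
    (hV : ∀ x ∈ V, ∀ y ∈ V, omg (2 * n) (extz x) (extz y) = 0) : Nat.card V ≤ q ^ n := by
  have hnd : (bform (ZMod q) (2 * n) (2 * n)).Nondegenerate := by
    constructor
    · intro x hx
      exact bform_ker x hx
    · intro x hx
      refine bform_ker x fun y => ?_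
      have h1 := hx y
      rw [bform_apply] at h1 ⊢
      rw [omg_swap, h1, neg_zero]
  have h1 := LinearMap.BilinForm.finrank_orthogonal hnd V
  have h2 : V ≤ (bform (ZMod q) (2 * n) (2 * n)).orthogonal V := by
    intro x hx
    rw [LinearMap.BilinForm.mem_orthogonal_iff]
    intro y hy
    exact hV y hy x hx
  have h3 := Submodule.finrank_mono h2
  have h4 : Module.finrank (ZMod q) (Fin (2 * n) → ZMod q) = 2 * n := by simp
  rw [h1, h4] at h3
  have h5 : Module.finrank (ZMod q) V ≤ 2 * n := by
    have := Submodule.finrank_le V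
    rw [h4] at this
    exact this
  rw [Module.natCard_eq_pow_finrank (K := ZMod q), Nat.card_zmod]
  exact Nat.pow_le_pow_right (Fact.out : q.Prime).pos (by omega)

end Pool.Agent.Work.MP_3edda8_gt
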