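import Pool.Agent.Work.MP_3edda8_gt.SK.Base

/-!
MODULE Keis (M): the keis, and the effect of a twist region.

PROOF.
* `kei_fox`: `ring`.  `kei_cop`: first components as for fox; second components: `chi ψ` is even
  (`chi ψ (-d) = chi ψ d`, add_comm), `chi ψ 0 = 2` (`AddChar.map_zero_eq_one`) and
  `chi ψ a * chi ψ b = chi ψ (a + b) + chi ψ (a - b)` (`AddChar.map_add_eq_mul`).  For `dist` with
  `x = (l, w)`, `y = (j, v)`, `z = (i, u)`: the coefficient identity is
  `chi (i - 2 j + l) = chi (l - j) * chi (i - j) - chi (i - l)`.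
* `run_tw`: induction on `m` (note `List.replicate_succ`: the first crossing is done first;
  `tw op (m+1) x y = tw op m y (op x y)`).
* `fox_tw`: induction on `m`, `x y` general.  `tri_..` easy.
* `cop_tw_color`: the first components behave like fox.
* `cop_tw_same` (equal colours): induction on `m`, `chi ψ 0 = 2`.
* `cop_tw_diff`: let `d = y.1 - x.1`, `μ = ψ d`, `ν = ψ (-d)`, `μ * ν = 1`; claim for all `m`:
  `((tw (cop ψ) m x y).1.2) * (μ - ν) = (μ^m - ν^m) * y.2 - (μ^(m-1) - ν^(m-1)) * x.2` with the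
  convention `μ^(-1) = ν`; in the form without negative exponents:
  `(tw (cop ψ) m x y).1.2 * (μ - ν) = (μ^m - ν^m) * y.2 - (μ^m * ν - ν^m * μ) * x.2` and
  `(tw (cop ψ) m x y).2.2 * (μ - ν) = (μ^(m+1) - ν^(m+1)) * y.2 - (μ^m - ν^m) * x.2`;
  induction on `m`, `x y` general (the difference of colours of `y` and `op x y` is again `d`),
  `chi ψ d = μ + ν`.
* `cop_period_diff`: `x.1 ≠ y.1`, `p ∣ m`: `μ^m = 1 = ν^m` (`ψ (m • d) = (ψ d)^m`,
  `(m : ZMod p) = 0`), and `μ ≠ ν` because `μ^2 ≠ 1`.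
* `cop_period`: by cases.
* `cop_inj`: let `x`, `y`, `y'` with the same first component of the twist.  Colours:
  `x.1 + m (y.1 - x.1)` equal, `m ≠ 0` in `ZMod p`: `y.1 = y'.1`.  If `y.1 = x.1`:
  `cop_tw_same`, `m ≠ 0` in `R`.  Otherwise `cop_tw_diff`: the coefficient `μ^m - ν^m` of `y.2`
  is not `0`: `μ^m = ν^m` would give `(μ^m)^2 = 1`, i.e. `ψ (m d)^2 = 1` with `m d ≠ 0`.
-/

namespace Pool.Agent.Work.MP_3edda8_gt

variable {Q : Type}

/-- the effect of `m` positive half twists on a pair of strands -/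
def tw (op : Q → Q → Q) : ℕ → Q → Q → Q × Q
  | 0, x, y => (x, y)
  | m + 1, x, y => tw op m y (op x y)

private theorem chi_neg' {p : ℕ} {R : Type} [CommRing R] (ψ : AddChar (ZMod p) R) (d : ZMod p) :
    chi ψ (-d) = chi ψ d := by
  unfold chi
  rw [neg_neg, add_comm]

private theorem chi_zero' {p : ℕ} {R : Type} [CommRing R] (ψ : AddChar (ZMod p) R) :
    chi ψ 0 = 2 := by
  unfold chi
  rw [neg_zero, AddChar.map_zero_eq_one]
  norm_num

private theorem chi_mul' {p : ℕ} {R : Type} [CommRing R] (ψ : AddChar (ZMod p) R) (u v : ZMod p) :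
    chi ψ u * chi ψ v = chi ψ (u + v) + chi ψ (u - v) := by
  unfold chi
  have e1 : -(u + v) = -u + -v := by ring
  have e2 : u - v = u + -v := by ring
  have e3 : -(u - v) = -u + v := by ring
  rw [e3, e2, e1, AddChar.map_add_eq_mul, AddChar.map_add_eq_mul, AddChar.map_add_eq_mul,
    AddChar.map_add_eq_mul]
  ring

private theorem psi_inv {p : ℕ} {R : Type} [CommRing R] (ψ : AddChar (ZMod p) R) (d : ZMod p) :
    ψ d * ψ (-d) = 1 := by
  rw [← AddChar.map_add_eq_mul, add_neg_cancel, AddChar.map_zero_eq_one]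

private theorem psi_pow {p : ℕ} {R : Type} [CommRing R] (ψ : AddChar (ZMod p) R) (d : ZMod p)
    (m : ℕ) : ψ d ^ m = ψ (m * d) := by
  rw [← nsmul_eq_mul, AddChar.map_nsmul_eq_pow]

private theorem cast0 {p m : ℕ} (h : p ∣ m) : (m : ZMod p) = 0 :=
  (ZMod.natCast_eq_zero_iff m p).2 h

private theorem castn0 {p m : ℕ} (h : ¬ p ∣ m) : (m : ZMod p) ≠ 0 :=
  fun h1 => h ((ZMod.natCast_eq_zero_iff m p).1 h1)

private theorem tri_tw (m : ℕ) (x y : Q) :
    tw tri m x y = if 2 ∣ m then (x, y) else (y, x) := by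
  induction m generalizing x y with
  | zero => simp [tw]
  | succ m ih =>
    rw [tw, ih]
    by_cases h : 2 ∣ m
    · have h' : ¬ 2 ∣ m + 1 := by omega
      rw [if_pos h, if_neg h']
      rfl
    · have h' : 2 ∣ m + 1 := by omega
      rw [if_neg h, if_pos h']
      rfl

theorem kei_tri : IsKei (tri : Q → Q → Q) := by
  exact ⟨fun _ => rfl, fun _ _ => rfl, fun _ _ _ => rfl⟩

theorem kei_fox {R : Type} [CommRing R] : IsKei (fox : R → R → R) := by
  refine ⟨fun a => ?_, fun a b => ?_, fun a b c => ?_⟩ <;> unfold fox <;> ring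

theorem kei_cop {p : ℕ} {R : Type} [CommRing R] (ψ : AddChar (ZMod p) R) : IsKei (cop ψ) := by
  refine ⟨fun a => ?_, fun a b => ?_, fun a b c => ?_⟩
  · refine Prod.ext ?_ ?_
    · simp only [cop]
      ring
    · simp only [cop]
      rw [sub_self, chi_zero']
      ring
  · refine Prod.ext ?_ ?_
    · simp only [cop]
      ring
    · simp only [cop]
      have e : b.1 - (2 * b.1 - a.1) = -(b.1 - a.1) := by ring
      rw [e, chi_neg']
      ring
  · refine Prod.ext ?_ ?_
    · simp only [cop]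
      ring
    · simp only [cop]
      have e1 : c.1 - (2 * b.1 - a.1) = (a.1 - b.1) + (c.1 - b.1) := by ring
      have e2 : 2 * c.1 - b.1 - (2 * c.1 - a.1) = a.1 - b.1 := by ring
      have e3 : b.1 - a.1 = -(a.1 - b.1) := by ring
      have e4 : c.1 - a.1 = -((a.1 - b.1) - (c.1 - b.1)) := by ring
      have e5 := chi_mul' ψ (a.1 - b.1) (c.1 - b.1)
      rw [e1, e2, e3, e4, chi_neg', chi_neg']
      linear_combination (-c.2) * e5

theorem ok_tw (op : Q → Q → Q) (m i : ℕ) (s c : ℕ → Q) :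
    ok op (List.replicate m ⟨.pos, i⟩) s c := by
  induction m generalizing s with
  | zero => trivial
  | succ m ih =>
    rw [List.replicate_succ]
    exact ih _

theorem cups_tw (m i : ℕ) : cups (List.replicate m ⟨.pos, i⟩) = 0 := by
  induction m with
  | zero => rfl
  | succ m ih =>
    rw [List.replicate_succ]
    exact ih

theorem run_tw (op : Q → Q → Q) (m i : ℕ) (s c : ℕ → Q) :
    run op (List.replicate m ⟨.pos, i⟩) s c = fun j =>
      if j = i then (tw op m (s i) (s (i + 1))).1 else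
      if j = i + 1 then (tw op m (s i) (s (i + 1))).2 else s j := by
  induction m generalizing s with
  | zero =>
    funext j
    simp only [List.replicate_zero, run, tw]
    split_ifs with h1 h2
    · rw [h1]
    · rw [h2]
    · rfl
  | succ m ih =>
    rw [List.replicate_succ]
    have e0 : run op (⟨.pos, i⟩ :: List.replicate m ⟨.pos, i⟩) s c =
        run op (List.replicate m ⟨.pos, i⟩) (crP op i s) c := rfl
    rw [e0, ih]
    have e1 : crP op i s i = s (i + 1) := by simp [crP]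
    have e2 : crP op i s (i + 1) = op (s i) (s (i + 1)) := by simp [crP]
    rw [e1, e2]
    funext j
    by_cases h1 : j = i
    · rw [if_pos h1, if_pos h1]
      rfl
    · rw [if_neg h1, if_neg h1]
      by_cases h2 : j = i + 1
      · rw [if_pos h2, if_pos h2]
        rfl
      · rw [if_neg h2, if_neg h2]
        simp only [crP, if_neg h1, if_neg h2]

theorem fox_tw {R : Type} [CommRing R] (m : ℕ) (x y : R) :
    tw fox m x y = (x + m * (y - x), y + m * (y - x)) := by
  induction m generalizing x y with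
  | zero => simp [tw]
  | succ m ih =>
    rw [tw, ih]
    unfold fox
    push_cast
    refine Prod.ext ?_ ?_
    · simp only
      ring
    · simp only
      ring

theorem fox_period {p m : ℕ} (h : p ∣ m) (x y : ZMod p) : tw fox m x y = (x, y) := by
  rw [fox_tw, cast0 h]
  simp

theorem tri_period {m : ℕ} (h : 2 ∣ m) (x y : Q) : tw tri m x y = (x, y) := by
  rw [tri_tw, if_pos h]

theorem tri_odd {m : ℕ} (h : ¬ 2 ∣ m) (x y : Q) : tw tri m x y = (y, x) := by
  rw [tri_tw, if_neg h]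

theorem cop_tw_color {p : ℕ} {R : Type} [CommRing R] (ψ : AddChar (ZMod p) R) (m : ℕ)
    (x y : ZMod p × R) :
    (tw (cop ψ) m x y).1.1 = x.1 + m * (y.1 - x.1) ∧
    (tw (cop ψ) m x y).2.1 = y.1 + m * (y.1 - x.1) := by
  induction m generalizing x y with
  | zero => simp [tw]
  | succ m ih =>
    rw [tw]
    obtain ⟨h1, h2⟩ := ih y (cop ψ x y)
    rw [h1, h2]
    simp only [cop]
    push_cast
    constructor <;> ring

theorem cop_tw_same {p : ℕ} {R : Type} [CommRing R] (ψ : AddChar (ZMod p) R) (m : ℕ)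
    (i : ZMod p) (x y : R) :
    tw (cop ψ) m (i, x) (i, y) = ((i, x + m * (y - x)), (i, y + m * (y - x))) := by
  induction m generalizing x y with
  | zero => simp [tw]
  | succ m ih =>
    have e : cop ψ (i, x) (i, y) = (i, 2 * y - x) := by
      simp only [cop]
      rw [sub_self, chi_zero']
      refine Prod.ext ?_ ?_
      · simp only
        ring
      · rfl
    rw [tw, e, ih]
    push_cast
    refine Prod.ext (Prod.ext rfl ?_) (Prod.ext rfl ?_)
    · simp only
      ring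
    · simp only
      ring

theorem cop_tw_diff {p : ℕ} {R : Type} [CommRing R] (ψ : AddChar (ZMod p) R) (m : ℕ)
    (x y : ZMod p × R) (μ ν : R) (hμ : μ = ψ (y.1 - x.1)) (hν : ν = ψ (-(y.1 - x.1))) :
    (tw (cop ψ) m x y).1.2 * (μ - ν) = (μ ^ m - ν ^ m) * y.2 - (μ ^ m * ν - ν ^ m * μ) * x.2 ∧
    (tw (cop ψ) m x y).2.2 * (μ - ν) =
      (μ ^ (m + 1) - ν ^ (m + 1)) * y.2 - (μ ^ m - ν ^ m) * x.2 := by
  have h : μ * ν = 1 := by rw [hμ, hν, psi_inv]
  induction m generalizing x y with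
  | zero =>
    simp only [tw, pow_zero]
    constructor <;> ring
  | succ m ih =>
    have e1 : (cop ψ x y).1 - y.1 = y.1 - x.1 := by
      simp only [cop]
      ring
    have hz : (cop ψ x y).2 = (μ + ν) * y.2 - x.2 := by
      simp only [cop, chi]
      rw [hμ, hν]
    obtain ⟨i1, i2⟩ := ih y (cop ψ x y) (by rw [e1]; exact hμ) (by rw [e1]; exact hν)
    rw [tw]
    constructor
    · linear_combination i1 + (μ ^ m - ν ^ m) * hz + (μ ^ m - ν ^ m) * x.2 * h
    · linear_combination i2 + (μ ^ (m + 1) - ν ^ (m + 1)) * hz + (μ ^ m - ν ^ m) * y.2 * h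

theorem cop_period_diff {p m : ℕ} {F : Type} [Field F] (ψ : AddChar (ZMod p) F)
    (hψ : ∀ d : ZMod p, d ≠ 0 → ψ d * ψ d ≠ 1) (hm : p ∣ m) (x y : ZMod p × F)
    (hxy : x.1 ≠ y.1) : tw (cop ψ) m x y = (x, y) := by
  have hd : y.1 - x.1 ≠ 0 := sub_ne_zero.2 (Ne.symm hxy)
  have hinv := psi_inv ψ (y.1 - x.1)
  have hm1 : ψ (y.1 - x.1) ^ m = 1 := by
    rw [psi_pow, cast0 hm, zero_mul, AddChar.map_zero_eq_one]
  have hn1 : ψ (-(y.1 - x.1)) ^ m = 1 := by
    rw [psi_pow, cast0 hm, zero_mul, AddChar.map_zero_eq_one]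
  have hne : ψ (y.1 - x.1) - ψ (-(y.1 - x.1)) ≠ 0 := by
    intro h
    rw [sub_eq_zero] at h
    apply hψ _ hd
    rw [← h] at hinv
    exact hinv
  obtain ⟨c1, c2⟩ := cop_tw_color ψ m x y
  obtain ⟨d1, d2⟩ := cop_tw_diff ψ m x y _ _ rfl rfl
  rw [cast0 hm, zero_mul, add_zero] at c1 c2
  rw [hm1, hn1] at d1
  rw [pow_succ, pow_succ, hm1, hn1] at d2
  refine Prod.ext (Prod.ext c1 ?_) (Prod.ext c2 ?_)
  · apply mul_right_cancel₀ hne
    rw [d1]
    ring
  · apply mul_right_cancel₀ hne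
    rw [d2]
    ring

theorem cop_period {p q m : ℕ} [Fact q.Prime] (ψ : AddChar (ZMod p) (ZMod q))
    (hψ : ∀ d : ZMod p, d ≠ 0 → ψ d * ψ d ≠ 1) (hm : p ∣ m) (hq : q ∣ m)
    (x y : ZMod p × ZMod q) : tw (cop ψ) m x y = (x, y) := by
  by_cases hxy : x.1 = y.1
  · obtain ⟨i, a⟩ := x
    obtain ⟨j, b⟩ := y
    simp only at hxy
    subst hxy
    rw [cop_tw_same, cast0 hq]
    simp
  · exact cop_period_diff (F := ZMod q) ψ hψ hm x y hxy

theorem cop_inj {p q m : ℕ} [Fact p.Prime] [Fact q.Prime] (ψ : AddChar (ZMod p) (ZMod q))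
    (hψ : ∀ d : ZMod p, d ≠ 0 → ψ d * ψ d ≠ 1) (hm : ¬ p ∣ m) (hq : ¬ q ∣ m)
    (x : ZMod p × ZMod q) : Function.Injective fun y => (tw (cop ψ) m x y).1 := by
  intro y y' hyy
  simp only at hyy
  obtain ⟨c1, _⟩ := cop_tw_color ψ m x y
  obtain ⟨c1', _⟩ := cop_tw_color ψ m x y'
  rw [hyy, c1'] at c1
  have hmp : (m : ZMod p) ≠ 0 := castn0 hm
  have hmq : (m : ZMod q) ≠ 0 := castn0 hq
  have hcol : y.1 = y'.1 := by
    have h1 : (m : ZMod p) * (y'.1 - x.1) = m * (y.1 - x.1) := by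
      linear_combination c1
    have h2 := mul_left_cancel₀ hmp h1
    linear_combination -h2
  refine Prod.ext hcol ?_
  by_cases hx : y.1 = x.1
  · obtain ⟨i, a⟩ := x
    obtain ⟨j, b⟩ := y
    obtain ⟨k, b'⟩ := y'
    simp only at hcol hx
    subst hcol
    subst hx
    rw [cop_tw_same, cop_tw_same] at hyy
    have h1 := congrArg Prod.snd hyy
    simp only at h1
    have h2 : (m : ZMod q) * (b - a) = m * (b' - a) := by
      linear_combination h1
    have h3 := mul_left_cancel₀ hmq h2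
    simp only
    linear_combination h3
  · have hd : y.1 - x.1 ≠ 0 := sub_ne_zero.2 hx
    have hinv := psi_inv ψ (y.1 - x.1)
    obtain ⟨d1, _⟩ := cop_tw_diff ψ m x y _ _ rfl rfl
    obtain ⟨d1', _⟩ := cop_tw_diff ψ m x y' (ψ (y.1 - x.1)) (ψ (-(y.1 - x.1)))
      (by rw [hcol]) (by rw [hcol])
    rw [hyy, d1'] at d1
    have hne : ψ (y.1 - x.1) ^ m - ψ (-(y.1 - x.1)) ^ m ≠ 0 := by
      intro h
      rw [sub_eq_zero] at h
      have h5 : (m : ZMod p) * (y.1 - x.1) ≠ 0 := mul_ne_zero hmp hd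
      apply hψ _ h5
      rw [← psi_pow]
      calc ψ (y.1 - x.1) ^ m * ψ (y.1 - x.1) ^ m
          = ψ (y.1 - x.1) ^ m * ψ (-(y.1 - x.1)) ^ m := by rw [← h]
        _ = (ψ (y.1 - x.1) * ψ (-(y.1 - x.1))) ^ m := by rw [mul_pow]
        _ = 1 := by rw [hinv, one_pow]
    apply mul_left_cancel₀ hne
    linear_combination -d1

theorem fox_inj {p m : ℕ} [Fact p.Prime] (hm : ¬ p ∣ m) (x : ZMod p) :
    Function.Injective fun y => (tw fox m x y).1 := by
  intro y y' hyy
  simp only [fox_tw] at hyy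
  have hmp : (m : ZMod p) ≠ 0 := castn0 hm
  have h1 : (m : ZMod p) * (y - x) = m * (y' - x) := by
    linear_combination hyy
  have h2 := mul_left_cancel₀ hmp h1
  linear_combination h2

end Pool.Agent.Work.MP_3edda8_gt
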