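import Pool.Agent.Work.MP_3edda8_gt.SK.Thin

/-!
MODULE Lift2 (M): sharper lower bound for the number of lifts over a colouring of the whole word.

PROOF.  As `lift_le` in Thin, but with one more parameter `α : ZMod q`.  The map
`φ i = (i, α * ψ i)` is a homomorphism of keis from `fox` on `ZMod p` to `cop ψ`:
`ψ (2 j - l) + ψ l = ψ j * chi ψ (j - l)`.  For `α : ZMod q` and `d` in the lift set let
`g n = (f n, α * ψ (f n) + repl (cups u) (cups S) (fun _ => 0) d n)` for `n < cups K` and
`g n = (0, 0)` for `n ≥ cups K`.  `g ∈ Col (cop ψ) (0, 0) K`: by `ok_map` for `φ` the colouring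
`fun n => φ (f n)` is `ok` on `K` from the base state `φ 0 = (0, α)`; as `K` is typed from `0`
strands the base state can be replaced by `(0, 0)` (`loc` with `a = 0`, `sh 0 K = K`), and the
colours of the cups `n ≥ cups K` do not matter (`ok_congr`).  The colouring
`fun n => (f n, repl .. d n)` is `ok` from the base state `(0, 0)` (proof of `lift_le`); the sum of
the second components is `ok` by `cop_ok_lin`.
Injectivity of `(α, d) ↦ g`: the boundary value of `g` on `S` at `j = 0 < 2 N` has the second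
component `α * ψ (x)` (`x` the colour there; `cop_run_lin` on `S`, the part of `d` vanishes on the
boundary, `run_map` for `φ`; base state by `loc`/`tangle_run`), and `ψ x` is a unit
(`ψ x * ψ (-x) = 1`); so `g` determines `α`, and then `d` (`d t = 0` for `t ≥ cups S`).
So `q * ncard (liftSet) = card (ZMod q × liftSet) ≤ num`.
-/

namespace Pool.Agent.Work.MP_3edda8_gt

private theorem psi_inv2 {p : ℕ} {R : Type} [CommRing R] (ψ : AddChar (ZMod p) R) (d : ZMod p) :
    ψ d * ψ (-d) = 1 := by
  rw [← AddChar.map_add_eq_mul, add_neg_cancel, AddChar.map_zero_eq_one]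

/-- the homomorphism of keis -/
private def phi {p : ℕ} {R : Type} [CommRing R] (ψ : AddChar (ZMod p) R) (α : R) (i : ZMod p) :
    ZMod p × R := (i, α * ψ i)

private theorem phi_hom {p : ℕ} {R : Type} [CommRing R] (ψ : AddChar (ZMod p) R) (α : R)
    (x y : ZMod p) : phi ψ α (fox x y) = cop ψ (phi ψ α x) (phi ψ α y) := by
  unfold phi cop fox chi
  refine Prod.ext rfl ?_
  show α * ψ (2 * y - x) = (ψ (y - x) + ψ (-(y - x))) * (α * ψ y) - α * ψ x
  have h1 : ψ (2 * y - x) = ψ (y - x) * ψ y := by
    rw [← AddChar.map_add_eq_mul]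
    congr 1
    ring
  have h2 : ψ x = ψ (-(y - x)) * ψ y := by
    rw [← AddChar.map_add_eq_mul]
    congr 1
    ring
  rw [h1, h2]
  ring

private theorem base_ok {Q : Type} (op : Q → Q → Q) {D : List Ev} {n : ℕ}
    (h : Typed D 0 (2 * n)) (s s' c : ℕ → Q) : ok op D s c ↔ ok op D s' c :=
  (tangle_ok op h 0 s s c).symm.trans (tangle_ok op h 0 s s' c)

private theorem base_run {Q : Type} (op : Q → Q → Q) {D : List Ev} {n : ℕ}
    (h : Typed D 0 (2 * n)) (s s' c : ℕ → Q) (j : ℕ) (hj : j < 2 * n) :
    run op D s c j = run op D s' c j := by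
  have h1 := congrFun (tangle_run op h 0 s s c) j
  have h2 := congrFun (tangle_run op h 0 s s' c) j
  rw [if_neg (Nat.not_lt_zero _), if_pos (by omega)] at h1 h2
  exact h1.symm.trans h2

/-- the coloring with the second component `0` outside of the tangle -/
private theorem lift_ok {p q N : ℕ} (ψ : AddChar (ZMod p) (ZMod q))
    {u S v : List Ev} {a : ℕ} (hS : Typed S 0 (2 * N)) (f : ℕ → ZMod p)
    (hf : ok fox (u ++ sh a S ++ v) (fun _ => 0) f) (d : ℕ → ZMod q)
    (hd : d ∈ liftSet ψ N S (fun n => f (cups u + n))) :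
    ok (cop ψ) (u ++ sh a S ++ v) (fun _ => (0, 0))
      (fun n => (f n, repl (cups u) (cups S) (fun _ => 0) d n)) := by
  obtain ⟨-, hd1, hd2⟩ := hd
  obtain ⟨f1, -, f3⟩ := (glue_iff fox hS a (fun _ => 0) (fun _ => 0) f).1 hf
  have e1 : ∀ n < cups u, (fun n => ((f n, repl (cups u) (cups S) (fun _ => 0) d n) :
      ZMod p × ZMod q)) n = (fun n => (f n, 0)) n := by
    intro n hn
    show (f n, repl (cups u) (cups S) (fun _ => 0) d n) = (f n, 0)
    unfold repl
    rw [if_neg (by omega)]
  have e2 : ∀ n < cups S, (fun n => ((f (cups u + n),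
      repl (cups u) (cups S) (fun _ => 0) d (cups u + n)) : ZMod p × ZMod q)) n =
      (fun t => (f (cups u + t), d t)) n := by
    intro n hn
    show (f (cups u + n), repl (cups u) (cups S) (fun _ => 0) d (cups u + n)) =
      (f (cups u + n), d n)
    unfold repl
    rw [if_pos (by omega), show cups u + n - cups u = n by omega]
  have e3 : (fun n => ((f (cups u + cups S + n),
      repl (cups u) (cups S) (fun _ => 0) d (cups u + cups S + n)) : ZMod p × ZMod q)) =
      fun n => (f (cups u + cups S + n), 0) := by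
    funext n
    unfold repl
    rw [if_neg (by omega)]
  rw [glue_iff (cop ψ) hS a (fun _ => (0, 0)) (fun _ => (0, 0))]
  refine ⟨?_, ?_, ?_⟩
  · rw [ok_congr (cop ψ) u (fun _ => (0, 0)) _ _ e1]
    exact (cop_zero_ok ψ u (fun _ => 0) f).2 f1
  · exact (ok_congr (cop ψ) S (fun _ => (0, 0)) _ _ e2).2 hd1
  · rw [run_congr (cop ψ) u (fun _ => (0, 0)) _ _ e1, run_congr (cop ψ) S (fun _ => (0, 0)) _ _ e2,
      cop_zero_run ψ u (fun _ => 0) f]
    have e4 : insN a (2 * N) (run (cop ψ) S (fun _ => (0, 0)) (fun t => (f (cups u + t), d t)))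
        (fun j => (run fox u (fun _ => 0) f j, 0)) =
        fun j => (insN a (2 * N) (run fox S (fun _ => 0) (fun n => f (cups u + n)))
          (run fox u (fun _ => 0) f) j, 0) := by
      funext j
      unfold insN
      by_cases h1 : j < a
      · rw [if_pos h1, if_pos h1]
      · rw [if_neg h1, if_neg h1]
        by_cases h2 : j < a + 2 * N
        · rw [if_pos h2, if_pos h2]
          refine Prod.ext ?_ ?_
          · rw [cop_fst]
          · exact hd2 (j - a) (by omega)
        · rw [if_neg h2, if_neg h2]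
    rw [e4]
    show ok (cop ψ) v _ (fun n => ((f (cups u + cups S + n),
      repl (cups u) (cups S) (fun _ => 0) d (cups u + cups S + n)) : ZMod p × ZMod q))
    rw [e3]
    exact (cop_zero_ok ψ v _ _).2 f3

/-- the combined colouring -/
private def gg {p q : ℕ} (ψ : AddChar (ZMod p) (ZMod q)) (ku ks kK : ℕ) (f : ℕ → ZMod p)
    (z : ZMod q × (ℕ → ZMod q)) (n : ℕ) : ZMod p × ZMod q :=
  if n < kK then (f n, 1 * (z.1 * ψ (f n)) + 1 * repl ku ks (fun _ => 0) z.2 n) else (0, 0)

theorem lift_le2 {p q N : ℕ} [Fact p.Prime] [Fact q.Prime] (ψ : AddChar (ZMod p) (ZMod q))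
    (hN : 1 ≤ N) {u S v : List Ev} {a : ℕ} (hS : Typed S 0 (2 * N))
    (hK : Typed (u ++ sh a S ++ v) 0 0) (f : ℕ → ZMod p)
    (hf : f ∈ Col fox (0 : ZMod p) (u ++ sh a S ++ v)) :
    q * (liftSet ψ N S (fun n => f (cups u + n))).ncard ≤
      num (cop ψ) (0, 0) (u ++ sh a S ++ v) := by
  classical
  have hcK : cups (u ++ sh a S ++ v) = cups u + cups S + cups v := by
    rw [cups_append, cups_append, cups_sh]
  have hK0 : Typed (u ++ sh a S ++ v) 0 (2 * 0) := hK
  have e0 : (fun _ : ℕ => ((0 : ZMod p), (1 : ZMod q) * 0 + 1 * 0)) = fun _ => (0, 0) := by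
    funext _
    rw [mul_zero, add_zero]
  have hmem : ∀ z ∈ (Set.univ : Set (ZMod q)) ×ˢ liftSet ψ N S (fun n => f (cups u + n)),
      gg ψ (cups u) (cups S) (cups (u ++ sh a S ++ v)) f z ∈
        Col (cop ψ) (0, 0) (u ++ sh a S ++ v) := by
    rintro ⟨α, d⟩ ⟨-, hd⟩
    refine ⟨fun n hn => if_neg (not_lt.2 hn), ?_⟩
    have h1 : ok (cop ψ) (u ++ sh a S ++ v) (fun _ => (0, 0))
        (fun n => (f n, repl (cups u) (cups S) (fun _ => 0) d n)) := lift_ok ψ hS f hf.2 d hd
    have h2 : ok (cop ψ) (u ++ sh a S ++ v) (fun _ => (0, 0)) (fun n => (f n, α * ψ (f n))) :=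
      (base_ok (cop ψ) hK0 _ _ _).1 (ok_map fox (cop ψ) (phi ψ α) (phi_hom ψ α) _ _ _ hf.2)
    have h3 := cop_ok_lin ψ (u ++ sh a S ++ v) (fun _ => 0) f (fun _ => 0) (fun _ => 0)
      (fun n => α * ψ (f n)) (fun n => repl (cups u) (cups S) (fun _ => 0) d n) 1 1 h2 h1
    rw [e0] at h3
    exact (ok_congr (cop ψ) _ _ _ _ fun n hn => if_pos hn).2 h3
  have hinj : Set.InjOn (gg ψ (cups u) (cups S) (cups (u ++ sh a S ++ v)) f)
      ((Set.univ : Set (ZMod q)) ×ˢ liftSet ψ N S (fun n => f (cups u + n))) := by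
    have key : ∀ z ∈ (Set.univ : Set (ZMod q)) ×ˢ liftSet ψ N S (fun n => f (cups u + n)),
        (run (cop ψ) S (fun _ => (0, 0)) (fun n => gg ψ (cups u) (cups S)
          (cups (u ++ sh a S ++ v)) f z (cups u + n)) 0).2 =
          z.1 * ψ (run fox S (fun _ => 0) (fun n => f (cups u + n)) 0) := by
      rintro ⟨α, d⟩ ⟨-, hd⟩
      have e2 : ∀ n < cups S, gg ψ (cups u) (cups S)
          (cups (u ++ sh a S ++ v)) f (α, d) (cups u + n) =
          (fun n => (f (cups u + n), 1 * (α * ψ (f (cups u + n))) + 1 * d n)) n := by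
        intro n hn
        unfold gg repl
        rw [if_pos (by omega)]
        show (f (cups u + n), 1 * (α * ψ (f (cups u + n))) +
          1 * (if cups u ≤ cups u + n ∧ cups u + n < cups u + cups S then d (cups u + n - cups u)
            else 0)) = _
        rw [if_pos (by omega), show cups u + n - cups u = n by omega]
      rw [run_congr (cop ψ) S (fun _ => (0, 0)) _ _ e2]
      have h1 := cop_run_lin ψ S (fun _ => 0) (fun n => f (cups u + n)) (fun _ => 0)
        (fun _ => 0) (fun n => α * ψ (f (cups u + n))) d 1 1 0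
      rw [e0] at h1
      rw [h1]
      have h2 : (run (cop ψ) S (fun _ => (0, 0)) (fun n => (f (cups u + n), d n)) 0).2 = 0 :=
        hd.2.2 0 (by omega)
      have h3 : run (cop ψ) S (fun _ => (0, 0))
          (fun n => (f (cups u + n), α * ψ (f (cups u + n)))) 0 =
          phi ψ α (run fox S (fun _ => 0) (fun n => f (cups u + n)) 0) := by
        rw [base_run (cop ψ) hS _ (fun _ => phi ψ α 0) _ 0 (by omega)]
        exact (congrFun (run_map fox (cop ψ) (phi ψ α) (phi_hom ψ α) S (fun _ => 0)
          (fun n => f (cups u + n))) 0).symm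
      rw [h2, h3]
      show 1 * (α * ψ (run fox S (fun _ => 0) (fun n => f (cups u + n)) 0)) + 1 * 0 =
        α * ψ (run fox S (fun _ => 0) (fun n => f (cups u + n)) 0)
      ring
    rintro ⟨α, d⟩ hz ⟨α', d'⟩ hz' h
    have k1 := key _ hz
    have k2 := key _ hz'
    rw [h] at k1
    rw [k1] at k2
    have hα : α = α' := by
      have h5 := congrArg (fun t => t *
        ψ (-(run fox S (fun _ => 0) (fun n => f (cups u + n)) 0))) k2
      simp only [mul_assoc, psi_inv2, mul_one] at h5
      exact h5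
    subst hα
    refine Prod.ext rfl ?_
    funext t
    by_cases ht : t < cups S
    · have h6 := congrArg Prod.snd (congrFun h (cups u + t))
      unfold gg repl at h6
      rw [if_pos (by omega), if_pos (by omega)] at h6
      simp only at h6
      rw [if_pos (by omega), if_pos (by omega), show cups u + t - cups u = t by omega] at h6
      show d t = d' t
      linear_combination h6
    · show d t = d' t
      have z1 : d t = 0 := hz.2.1 t (by omega)
      have z2 : d' t = 0 := hz'.2.1 t (by omega)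
      rw [z1, z2]
  have h7 := Set.ncard_le_ncard_of_injOn _ hmem hinj (col_finite _ _ _)
  rw [Set.ncard_prod, Set.ncard_univ, Nat.card_eq_fintype_card, ZMod.card] at h7
  exact h7

end Pool.Agent.Work.MP_3edda8_gt
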