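import Pool.Agent.Work.MP_3edda8_gt.SK.Base

/-!
MODULE Loc (M): locality.  A typed word with `m` lower end points placed at `a` only uses the
strands `a, ..., a + m - 1`.

PROOF.
* `loc`: induction on `w`, with `m`, `s`, `s'`, `c` general; the four kinds; in each case the new
  states satisfy the hypothesis again (new number of strands `m - inp + out`) by `omega` after
  `simp only [ins2, del2, crP, crN]` and `split_ifs`; use `h.1 : loc + inp ≤ m`.
* `tangle_ok`, `tangle_run`: `loc` with `m = 0`.
* `closed_run`: `loc` with `a = 0`, `m = k = 0` and `s' = s` (`sh 0 w = w`).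
* `const_word`: induction on `w`: all strands (of number `< m`) have colour `x`, all cups colour
  `x`, and `op x x = x`.
-/

namespace Pool.Agent.Work.MP_3edda8_gt

variable {Q : Type}

theorem loc (op : Q → Q → Q) {w : List Ev} {m k : ℕ} (h : Typed w m k) (a : ℕ)
    (s s' c : ℕ → Q) (hs : ∀ j < m, s (a + j) = s' j) :
    (ok op (sh a w) s c ↔ ok op w s' c) ∧
    (∀ j < k, run op (sh a w) s c (a + j) = run op w s' c j) ∧
    (∀ j < a, run op (sh a w) s c j = s j) ∧
    (∀ j, run op (sh a w) s c (a + k + j) = s (a + m + j)) := by
  induction w generalizing m s s' c with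
  | nil =>
    have hmk : m = k := h
    subst hmk
    refine ⟨Iff.rfl, fun j hj => hs j hj, fun j _ => rfl, fun j => rfl⟩
  | cons e w ih =>
    obtain ⟨h1, h2⟩ := h
    rcases e with ⟨_ | _ | _ | _, i⟩
    · simp only [Kind.inp, Kind.out] at h1 h2
      rw [sh_cons]
      simp only [run, ok]
      obtain ⟨r1, r2, r3, r4⟩ := ih h2 (ins2 (a + i) (c 0) s) (ins2 i (c 0) s')
        (fun n => c (n + 1)) (by
          intro j hj
          simp only [ins2]
          by_cases a1 : j < i
          · rw [if_pos a1, if_pos (by omega)]
            exact hs j (by omega)
          · rw [if_neg a1, if_neg (by omega)]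
            by_cases a2 : j < i + 2
            · rw [if_pos a2, if_pos (by omega)]
            · rw [if_neg a2, if_neg (by omega), show a + j - 2 = a + (j - 2) by omega]
              exact hs _ (by omega))
      refine ⟨r1, r2, fun j hj => ?_, fun j => ?_⟩
      · rw [r3 j hj]
        simp only [ins2]
        rw [if_pos (by omega)]
      · rw [r4 j]
        simp only [ins2]
        rw [if_neg (by omega), if_neg (by omega)]
        congr 1
        omega
    · simp only [Kind.inp, Kind.out] at h1 h2
      rw [sh_cons]
      simp only [run, ok]
      obtain ⟨r1, r2, r3, r4⟩ := ih h2 (del2 (a + i) s) (del2 i s') c (by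
          intro j hj
          simp only [del2]
          by_cases a1 : j < i
          · rw [if_pos a1, if_pos (by omega)]
            exact hs j (by omega)
          · rw [if_neg a1, if_neg (by omega), show a + j + 2 = a + (j + 2) by omega]
            exact hs _ (by omega))
      refine ⟨?_, r2, fun j hj => ?_, fun j => ?_⟩
      · rw [r1, hs i (by omega), show a + i + 1 = a + (i + 1) by omega, hs (i + 1) (by omega)]
      · rw [r3 j hj]
        simp only [del2]
        rw [if_pos (by omega)]
      · rw [r4 j]
        simp only [del2]
        rw [if_neg (by omega)]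
        congr 1
        omega
    · simp only [Kind.inp, Kind.out] at h1 h2
      rw [sh_cons]
      simp only [run, ok]
      obtain ⟨r1, r2, r3, r4⟩ := ih h2 (crP op (a + i) s) (crP op i s') c (by
          intro j hj
          simp only [crP]
          by_cases a1 : j = i
          · rw [if_pos a1, if_pos (by omega), show a + i + 1 = a + (i + 1) by omega]
            exact hs _ (by omega)
          · rw [if_neg a1, if_neg (by omega)]
            by_cases a2 : j = i + 1
            · rw [if_pos a2, if_pos (by omega), show a + i + 1 = a + (i + 1) by omega,
                hs i (by omega), hs (i + 1) (by omega)]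
            · rw [if_neg a2, if_neg (by omega)]
              exact hs _ (by omega))
      refine ⟨r1, r2, fun j hj => ?_, fun j => ?_⟩
      · rw [r3 j hj]
        simp only [crP]
        rw [if_neg (by omega), if_neg (by omega)]
      · rw [r4 j]
        simp only [crP]
        rw [if_neg (by omega), if_neg (by omega)]
        congr 1
        omega
    · simp only [Kind.inp, Kind.out] at h1 h2
      rw [sh_cons]
      simp only [run, ok]
      obtain ⟨r1, r2, r3, r4⟩ := ih h2 (crN op (a + i) s) (crN op i s') c (by
          intro j hj
          simp only [crN]
          by_cases a1 : j = i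
          · rw [if_pos a1, if_pos (by omega), show a + i + 1 = a + (i + 1) by omega,
              hs i (by omega), hs (i + 1) (by omega)]
          · rw [if_neg a1, if_neg (by omega)]
            by_cases a2 : j = i + 1
            · rw [if_pos a2, if_pos (by omega)]
              exact hs i (by omega)
            · rw [if_neg a2, if_neg (by omega)]
              exact hs _ (by omega))
      refine ⟨r1, r2, fun j hj => ?_, fun j => ?_⟩
      · rw [r3 j hj]
        simp only [crN]
        rw [if_neg (by omega), if_neg (by omega)]
      · rw [r4 j]
        simp only [crN]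
        rw [if_neg (by omega), if_neg (by omega)]
        congr 1
        omega

theorem tangle_ok (op : Q → Q → Q) {T : List Ev} {n : ℕ} (h : Typed T 0 (2 * n)) (a : ℕ)
    (s s' c : ℕ → Q) : ok op (sh a T) s c ↔ ok op T s' c := by
  exact (loc op h a s s' c fun _ hj => absurd hj (Nat.not_lt_zero _)).1

theorem tangle_run (op : Q → Q → Q) {T : List Ev} {n : ℕ} (h : Typed T 0 (2 * n)) (a : ℕ)
    (s s' c : ℕ → Q) :
    run op (sh a T) s c = fun j => if j < a then s j else if j < a + 2 * n then
      run op T s' c (j - a) else s (j - 2 * n) := by
  obtain ⟨-, r2, r3, r4⟩ := loc op h a s s' c fun _ hj => absurd hj (Nat.not_lt_zero _)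
  funext j
  by_cases a1 : j < a
  · rw [if_pos a1, r3 j a1]
  · rw [if_neg a1]
    by_cases a2 : j < a + 2 * n
    · rw [if_pos a2]
      have := r2 (j - a) (by omega)
      rw [← this]
      congr 1
      omega
    · rw [if_neg a2]
      have := r4 (j - a - 2 * n)
      rw [show a + 2 * n + (j - a - 2 * n) = j by omega,
        show a + 0 + (j - a - 2 * n) = j - 2 * n by omega] at this
      exact this

theorem closed_run (op : Q → Q → Q) {D : List Ev} (h : Typed D 0 0) (s c : ℕ → Q) :
    run op D s c = s := by
  have hsh : sh 0 D = D := by
    unfold sh
    conv_rhs => rw [← List.map_id D]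
    refine List.map_congr_left fun e _ => ?_
    rcases e with ⟨_, _⟩
    simp
  have h4 := (loc op h 0 s s c fun _ hj => absurd hj (Nat.not_lt_zero _)).2.2.2
  rw [hsh] at h4
  funext j
  have := h4 j
  rwa [show 0 + 0 + j = j by omega] at this

theorem const_word (op : Q → Q → Q) {w : List Ev} {m k : ℕ} (h : Typed w m k) (x : Q)
    (hx : op x x = x) (s c : ℕ → Q) (hs : ∀ j < m, s j = x) (hc : ∀ n < cups w, c n = x) :
    ok op w s c ∧ ∀ j < k, run op w s c j = x := by
  induction w generalizing m s c with
  | nil =>
    have hmk : m = k := h
    subst hmk
    exact ⟨trivial, hs⟩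
  | cons e w ih =>
    obtain ⟨h1, h2⟩ := h
    rcases e with ⟨_ | _ | _ | _, i⟩
    · simp only [Kind.inp, Kind.out] at h1 h2
      simp only [run, ok]
      refine ih h2 _ _ ?_ ?_
      · intro j hj
        simp only [ins2]
        by_cases a1 : j < i
        · rw [if_pos a1]
          exact hs j (by omega)
        · rw [if_neg a1]
          by_cases a2 : j < i + 2
          · rw [if_pos a2]
            exact hc 0 (by simp [cups])
          · rw [if_neg a2]
            exact hs _ (by omega)
      · intro n hn
        exact hc (n + 1) (by simp only [cups]; omega)
    · simp only [Kind.inp, Kind.out] at h1 h2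
      simp only [run, ok]
      have h3 := ih h2 (del2 i s) c (by
        intro j hj
        simp only [del2]
        by_cases a1 : j < i
        · rw [if_pos a1]
          exact hs j (by omega)
        · rw [if_neg a1]
          exact hs _ (by omega)) (fun n hn => hc n (by simpa only [cups] using hn))
      exact ⟨⟨by rw [hs i (by omega), hs (i + 1) (by omega)], h3.1⟩, h3.2⟩
    · simp only [Kind.inp, Kind.out] at h1 h2
      simp only [run, ok]
      refine ih h2 _ _ ?_ fun n hn => hc n (by simpa only [cups] using hn)
      intro j hj
      simp only [crP]
      by_cases a1 : j = i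
      · rw [if_pos a1]
        exact hs _ (by omega)
      · rw [if_neg a1]
        by_cases a2 : j = i + 1
        · rw [if_pos a2, hs i (by omega), hs (i + 1) (by omega), hx]
        · rw [if_neg a2]
          exact hs _ (by omega)
    · simp only [Kind.inp, Kind.out] at h1 h2
      simp only [run, ok]
      refine ih h2 _ _ ?_ fun n hn => hc n (by simpa only [cups] using hn)
      intro j hj
      simp only [crN]
      by_cases a1 : j = i
      · rw [if_pos a1, hs i (by omega), hs (i + 1) (by omega), hx]
      · rw [if_neg a1]
        by_cases a2 : j = i + 1
        · rw [if_pos a2]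
          exact hs i (by omega)
        · rw [if_neg a2]
          exact hs _ (by omega)

end Pool.Agent.Work.MP_3edda8_gt
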