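import Pool.Agent.Work.MP_3edda8_gt.SK.Pow

/-!
MODULE Primes (M): two primes with the same exponents.

PROOF.
* `exists_char`: `p` prime (`p = 3` or `5`, odd), `q` prime with `q ≡ 1 mod p`: the unit group of
  `ZMod q` has order `q - 1` divisible by `p`, so there is an element `ζ` of order `p`
  (`exists_prime_orderOf_dvd_card`), `ψ = AddChar.zmodChar p (ζ ^ p = 1)`; `ψ d = ζ ^ d.val`,
  `ψ d * ψ d = ψ (2 d)`, and `ψ e = 1` only for `e = 0` (the order of `ζ` is `p`), `2 d ≠ 0` for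
  `d ≠ 0` as `p` is odd.
* `two_primes`: for every prime `q ≡ 1 mod 15` choose `ψ3 q`, `ψ5 q` (classical choice).  For a
  pair `(n, S)` of the finite set, `p ∈ {3, 5}` and `ρ : Fin (cups S) → ZMod p` (extended by `0`)
  let `e q (S, ρ) ≤ cups S` be an exponent with `ncard (liftSet) = q ^ e` (if the set is not empty,
  `lift_pow`; otherwise put `0`).  These are finitely many indices, and the values are bounded, so
  the function `q ↦ e q` takes finitely many values on the infinite set of primes `q ≡ 1 mod 15`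
  (`Nat.infinite_setOf_prime_modEq_one` or `Nat.exists_prime_gt_modEq_one`), and there are
  `q ≠ q2` with `e q = e q2` (`Set.Infinite.exists_ne_map_eq_of_mapsTo` or
  `Finite.exists_ne_map_eq_of_infinite`).
  `lift_congr` reduces an arbitrary `ρ : ℕ → ZMod p` to its restriction to `Fin (cups S)`.
  (Non-emptiness does not depend on `q`: it holds iff `ok fox S 0 ρ`; `lift_nonempty`,
  `cop_ok_fst`.)
-/

namespace Pool.Agent.Work.MP_3edda8_gt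

theorem exists_char {p q : ℕ} [Fact p.Prime] [Fact q.Prime] (hp : p ≠ 2) (h : p ∣ q - 1) :
    ∃ ψ : AddChar (ZMod p) (ZMod q), ∀ d : ZMod p, d ≠ 0 → ψ d * ψ d ≠ 1 := by
  have hcard : Fintype.card (ZMod q)ˣ = q - 1 := by
    rw [ZMod.card_units_eq_totient, Nat.totient_prime (Fact.out : q.Prime)]
  obtain ⟨x, hx⟩ := exists_prime_orderOf_dvd_card (G := (ZMod q)ˣ) p (by rw [hcard]; exact h)
  have hz : orderOf (x : ZMod q) = p := by rw [orderOf_units, hx]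
  have hz1 : (x : ZMod q) ^ p = 1 := by
    have := pow_orderOf_eq_one (x : ZMod q)
    rwa [hz] at this
  refine ⟨AddChar.zmodChar p hz1, fun d hd h1 => hd ?_⟩
  rw [← AddChar.map_add_eq_mul, AddChar.zmodChar_apply] at h1
  have h2 : p ∣ (d + d).val := by
    have := orderOf_dvd_of_pow_eq_one h1
    rwa [hz] at this
  have h3 : (d + d).val = 0 := Nat.eq_zero_of_dvd_of_lt h2 (ZMod.val_lt _)
  rw [ZMod.val_eq_zero, ← two_mul] at h3
  have h4 : (2 : ZMod p) ≠ 0 := by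
    intro h5
    have h6 : ((2 : ℕ) : ZMod p) = 0 := by exact_mod_cast h5
    rw [ZMod.natCast_eq_zero_iff] at h6
    exact hp ((Nat.prime_dvd_prime_iff_eq Fact.out Nat.prime_two).1 h6)
  exact (mul_eq_zero.1 h3).resolve_left h4

open Classical in
/-- the exponent -/
private noncomputable def prExn (q C m : ℕ) : Fin (C + 1) :=
  if h : ∃ e ≤ C, m = q ^ e then ⟨h.choose, Nat.lt_succ_of_le h.choose_spec.1⟩ else 0

private theorem prExn_spec {q C m : ℕ} (h : ∃ e ≤ C, m = q ^ e) :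
    m = q ^ ((prExn q C m : Fin (C + 1)) : ℕ) := by
  unfold prExn
  rw [dif_pos h]
  exact h.choose_spec.2

/-- extension by zero -/
private def prExt {R : Type} [Zero R] (C : ℕ) (ρ : Fin C → R) : ℕ → R :=
  fun t => if h : t < C then ρ ⟨t, h⟩ else 0

private theorem prExt_apply {R : Type} [Zero R] {C : ℕ} (ρ : ℕ → R) {t : ℕ} (h : t < C) :
    ρ t = prExt C (fun i : Fin C => ρ i) t := by
  unfold prExt
  rw [dif_pos h]

private theorem pr_key {p : ℕ} (A : Set (ℕ × List Ev)) (P : Set ℕ) (hP : ∀ q ∈ P, q.Prime)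
    (ψ : ∀ q : P, AddChar (ZMod p) (ZMod q.1)) (q q2 : P)
    (hE : ∀ x : A, ∀ ρ : Fin (cups x.1.2) → ZMod p,
      prExn q.1 (cups x.1.2) (liftSet (ψ q) x.1.1 x.1.2 (prExt _ ρ)).ncard =
      prExn q2.1 (cups x.1.2) (liftSet (ψ q2) x.1.1 x.1.2 (prExt _ ρ)).ncard) :
    ∀ x ∈ A, ∀ ρ : ℕ → ZMod p, ok fox x.2 (fun _ => 0) ρ → ∃ e,
      (liftSet (ψ q) x.1 x.2 ρ).ncard = q.1 ^ e ∧ (liftSet (ψ q2) x.1 x.2 ρ).ncard = q2.1 ^ e := by
  intro x hx ρ hρ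
  have h1 : ∀ r : P, (liftSet (ψ r) x.1 x.2 ρ).ncard = r.1 ^ ((prExn r.1 (cups x.2)
      (liftSet (ψ r) x.1 x.2 (prExt (cups x.2) (fun i : Fin (cups x.2) => ρ i))).ncard :
        Fin (cups x.2 + 1)) : ℕ) := by
    intro r
    have : Fact r.1.Prime := ⟨hP r.1 r.2⟩
    rw [lift_congr (ψ r) x.1 x.2 ρ (prExt (cups x.2) (fun i : Fin (cups x.2) => ρ i))
      (fun t ht => prExt_apply ρ ht)]
    refine prExn_spec (lift_pow (ψ r) x.1 x.2 _ ?_)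
    rw [← lift_congr (ψ r) x.1 x.2 ρ (prExt (cups x.2) (fun i : Fin (cups x.2) => ρ i))
      (fun t ht => prExt_apply ρ ht)]
    exact lift_nonempty (ψ r) x.1 x.2 ρ hρ
  refine ⟨_, h1 q, ?_⟩
  rw [hE ⟨x, hx⟩ (fun i => ρ i)]
  exact h1 q2

theorem two_primes (A : Set (ℕ × List Ev)) (hA : A.Finite) :
    ∃ q q2 : ℕ, q.Prime ∧ q2.Prime ∧ q ≠ q2 ∧ 15 ∣ q - 1 ∧ 15 ∣ q2 - 1 ∧
      ∃ (ψ3 : AddChar (ZMod 3) (ZMod q)) (ψ3' : AddChar (ZMod 3) (ZMod q2))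
        (ψ5 : AddChar (ZMod 5) (ZMod q)) (ψ5' : AddChar (ZMod 5) (ZMod q2)),
        (∀ d, d ≠ 0 → ψ3 d * ψ3 d ≠ 1) ∧ (∀ d, d ≠ 0 → ψ3' d * ψ3' d ≠ 1) ∧
        (∀ d, d ≠ 0 → ψ5 d * ψ5 d ≠ 1) ∧ (∀ d, d ≠ 0 → ψ5' d * ψ5' d ≠ 1) ∧
        (∀ x ∈ A, ∀ ρ : ℕ → ZMod 3, ok fox x.2 (fun _ => 0) ρ → ∃ e,
          (liftSet ψ3 x.1 x.2 ρ).ncard = q ^ e ∧ (liftSet ψ3' x.1 x.2 ρ).ncard = q2 ^ e) ∧
        (∀ x ∈ A, ∀ ρ : ℕ → ZMod 5, ok fox x.2 (fun _ => 0) ρ → ∃ e,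
          (liftSet ψ5 x.1 x.2 ρ).ncard = q ^ e ∧ (liftSet ψ5' x.1 x.2 ρ).ncard = q2 ^ e) := by
  obtain ⟨P, hPdef⟩ : ∃ P : Set ℕ, P = {q : ℕ | q.Prime ∧ q ≡ 1 [MOD 15]} := ⟨_, rfl⟩
  have hPinf : P.Infinite := by
    rw [hPdef]
    exact Nat.infinite_setOf_prime_modEq_one (by norm_num)
  have hPp : ∀ q ∈ P, q.Prime := fun q hq => by
    rw [hPdef] at hq
    exact hq.1
  have hPd : ∀ q ∈ P, 15 ∣ q - 1 := fun q hq => by
    rw [hPdef] at hq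
    exact (Nat.modEq_iff_dvd' hq.1.one_lt.le).1 hq.2.symm
  have h3 : ∀ q : P, ∃ ψ : AddChar (ZMod 3) (ZMod q.1), ∀ d, d ≠ 0 → ψ d * ψ d ≠ 1 := fun q => by
    have : Fact q.1.Prime := ⟨hPp q.1 q.2⟩
    have : Fact (Nat.Prime 3) := ⟨by norm_num⟩
    exact exists_char (by norm_num) (dvd_trans (by norm_num) (hPd q.1 q.2))
  have h5 : ∀ q : P, ∃ ψ : AddChar (ZMod 5) (ZMod q.1), ∀ d, d ≠ 0 → ψ d * ψ d ≠ 1 := fun q => by
    have : Fact q.1.Prime := ⟨hPp q.1 q.2⟩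
    have : Fact (Nat.Prime 5) := ⟨by norm_num⟩
    exact exists_char (by norm_num) (dvd_trans (by norm_num) (hPd q.1 q.2))
  choose ψ3 hψ3 using h3
  choose ψ5 hψ5 using h5
  have : Infinite P := hPinf.to_subtype
  have : Finite A := hA.to_subtype
  let E : P → (∀ x : A, (Fin (cups x.1.2) → ZMod 3) → Fin (cups x.1.2 + 1)) ×
      (∀ x : A, (Fin (cups x.1.2) → ZMod 5) → Fin (cups x.1.2 + 1)) := fun q =>
    (fun x ρ => prExn q.1 (cups x.1.2) (liftSet (ψ3 q) x.1.1 x.1.2 (prExt _ ρ)).ncard,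
      fun x ρ => prExn q.1 (cups x.1.2) (liftSet (ψ5 q) x.1.1 x.1.2 (prExt _ ρ)).ncard)
  obtain ⟨q, q2, hne, hE⟩ := Finite.exists_ne_map_eq_of_infinite E
  have hE1 := congrArg Prod.fst hE
  have hE2 := congrArg Prod.snd hE
  refine ⟨q.1, q2.1, hPp q.1 q.2, hPp q2.1 q2.2, fun h => hne (Subtype.ext h), hPd q.1 q.2,
    hPd q2.1 q2.2, ψ3 q, ψ3 q2, ψ5 q, ψ5 q2, hψ3 q, hψ3 q2, hψ5 q, hψ5 q2, ?_, ?_⟩
  · exact pr_key A P hPp ψ3 q q2 fun x ρ => congrFun (congrFun hE1 x) ρ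
  · exact pr_key A P hPp ψ5 q q2 fun x ρ => congrFun (congrFun hE2 x) ρ

end Pool.Agent.Work.MP_3edda8_gt
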