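import Pool.Agent.Work.MP_3edda8_gt.SK.TTyped
import Pool.Agent.Work.MP_3edda8_gt.SK.Count

/-!
MODULE TLower (M): many colourings of `Tn (n+1) ++ Xn m n` by the kei `cop ψ` if `q ∣ m`.

PROOF.  For `b : ZMod q` and `a : Fin (n + 1) → ZMod q` let `c 0 = (1, b)`,
`c j = (0, a_{j-1})` for `1 ≤ j ≤ n + 1` and `c j = (0, 0)` for `j ≥ n + 2`
(`cups = n + 2`).  In `Tn`: the hub strand has colour `(1, b)`, a column twists it with
`(0, a)`; `p ∣ 15` half twists act trivially (`cop_period_diff`, `1 ≠ 0` in `ZMod p`).  The state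
before the cap: `(1, b), (1, b), (0, a_n), (0, a_n), ..., (0, a_0), (0, a_0), (0,0), ...`.  After the
cap the chain: the `m` half twists of `(0, a_j)` and `(0, a_{j-1})` act trivially
(`cop_tw_same`, `(m : ZMod q) = 0`), and the caps join equal colours.  So
`c ∈ Col (cop ψ) (0,0) _`, and `(b, a) ↦ c` is injective: `q ^ (n + 2)` colourings
(`Set.ncard_le_ncard` with the range of this map, `col_finite`).
-/

namespace Pool.Agent.Work.MP_3edda8_gt

private def pst {Q : Type} (g : ℕ → Q) : ℕ → Q := fun j => g (j / 2)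

private theorem pst_del {Q : Type} (g : ℕ → Q) : del2 0 (pst g) = pst fun i => g (i + 1) := by
  funext j
  simp only [del2, pst, Nat.not_lt_zero, if_false]
  congr 1 <;> omega

private theorem pst_ins {Q : Type} (g : ℕ → Q) (x : Q) :
    ins2 2 x (pst g) = pst fun i => if i = 0 then g 0 else if i = 1 then x else g (i - 1) := by
  funext j
  simp only [ins2, pst]
  by_cases h1 : j < 2
  · have h2 : j / 2 = 0 := by omega
    simp [h1, h2]
  · by_cases h3 : j < 4
    · have h2 : j / 2 = 1 := by omega
      simp [h1, h3, h2]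
    · have h2 : j / 2 ≠ 0 := by omega
      have h4 : j / 2 ≠ 1 := by omega
      have h5 : (j - 2) / 2 = j / 2 - 1 := by omega
      have h6 : ¬ j < 2 + 2 := by omega
      simp only [if_neg h1, if_neg h6, if_neg h2, if_neg h4, h5]

private theorem tw_triv {Q : Type} (op : Q → Q → Q) (m : ℕ) (g c : ℕ → Q)
    (h : tw op m (g 0) (g 1) = (g 0, g 1)) :
    run op (List.replicate m ⟨.pos, 1⟩) (pst g) c = pst g := by
  rw [run_tw]
  have e1 : pst g 1 = g 0 := rfl
  have e2 : pst g (1 + 1) = g 1 := rfl
  funext j
  rw [e1, e2, h]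
  by_cases h1 : j = 1
  · subst h1; simp [e1]
  · by_cases h2 : j = 1 + 1
    · subst h2; simp [e2]
    · rw [if_neg h1, if_neg h2]

private theorem cols {Q : Type} (op : Q → Q → Q) (k : ℕ) (g c : ℕ → Q)
    (h : ∀ i < k, tw op 15 (g 0) (c i) = (g 0, c i)) :
    run op (List.replicate k colW).flatten (pst g) c =
      pst (fun i => if i = 0 then g 0 else if i ≤ k then c (k - i) else g (i - k)) ∧
    ok op (List.replicate k colW).flatten (pst g) c := by
  induction k generalizing g c with
  | zero =>
    refine ⟨?_, trivial⟩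
    simp only [List.replicate_zero, List.flatten_nil, run]
    congr 1
    funext i
    by_cases h1 : i = 0
    · subst h1; simp
    · rw [if_neg h1, if_neg (by omega), Nat.sub_zero]
  | succ k ih =>
    set g' : ℕ → Q := fun i => if i = 0 then g 0 else if i = 1 then c 0 else g (i - 1) with hg'
    have h0 : tw op 15 (g' 0) (g' 1) = (g' 0, g' 1) := by
      simpa [hg'] using h 0 (by omega)
    have e1 : run op colW (pst g) c = pst g' := by
      show run op (List.replicate 15 ⟨.pos, 1⟩) (ins2 2 (c 0) (pst g)) (fun k => c (k + 1)) = _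
      rw [pst_ins]
      exact tw_triv op 15 g' _ h0
    have e2 : ok op colW (pst g) c := by
      show ok op (List.replicate 15 ⟨.pos, 1⟩) (ins2 2 (c 0) (pst g)) (fun k => c (k + 1))
      exact ok_tw op 15 1 _ _
    have e3 : cups colW = 1 := by
      show cups (List.replicate 15 ⟨.pos, 1⟩) + 1 = 1
      rw [cups_tw]
    obtain ⟨i1, i2⟩ := ih g' (fun n => c (1 + n)) (fun i hi => by
      have := h (1 + i) (by omega)
      simpa [hg'] using this)
    rw [List.replicate_succ, List.flatten_cons, run_append, ok_append, e1, e3]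
    refine ⟨?_, e2, i2⟩
    rw [i1]
    congr 1
    funext i
    simp only [hg']
    by_cases h1 : i = 0
    · simp [h1]
    · by_cases h2 : i ≤ k
      · rw [if_neg h1, if_neg h1, if_pos h2, if_pos (by omega)]
        congr 1 <;> omega
      · by_cases h3 : i = k + 1
        · subst h3
          rw [if_neg h1, if_neg h1, if_neg h2, if_pos (le_refl _), if_neg (by omega),
            if_pos (by omega)]
          congr 1 <;> omega
        · rw [if_neg h1, if_neg h1, if_neg h2, if_neg (by omega), if_neg (by omega),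
            if_neg (by omega)]
          congr 1 <;> omega

private theorem chs {Q : Type} (op : Q → Q → Q) (m k : ℕ) (g c : ℕ → Q)
    (h : ∀ i < k, tw op m (g i) (g (i + 1)) = (g i, g (i + 1))) :
    run op (List.replicate k (chW m)).flatten (pst g) c = pst (fun i => g (i + k)) ∧
    ok op (List.replicate k (chW m)).flatten (pst g) c := by
  induction k generalizing g c with
  | zero => exact ⟨rfl, trivial⟩
  | succ k ih =>
    have h0 := h 0 (by omega)
    have e1 : run op (chW m) (pst g) c = pst fun i => g (i + 1) := by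
      unfold chW
      rw [run_append, tw_triv op m g c h0]
      show del2 0 (pst g) = _
      exact pst_del g
    have e2 : ok op (chW m) (pst g) c := by
      unfold chW
      rw [ok_append, tw_triv op m g c h0]
      exact ⟨ok_tw op m 1 _ _, rfl, trivial⟩
    have e3 : cups (chW m) = 0 := by
      unfold chW
      rw [cups_append, cups_tw]
      rfl
    obtain ⟨i1, i2⟩ := ih (fun i => g (i + 1)) (fun n => c (0 + n)) (fun i hi => h (i + 1) (by omega))
    rw [List.replicate_succ, List.flatten_cons, run_append, ok_append, e1, e3]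
    refine ⟨?_, e2, i2⟩
    rw [i1]
    funext j
    show g (j / 2 + k + 1) = g (j / 2 + (k + 1))
    rw [add_assoc]

private theorem cups_cols (k : ℕ) : cups (List.replicate k colW).flatten = k := by
  induction k with
  | zero => rfl
  | succ k ih =>
    have e3 : cups colW = 1 := by
      show cups (List.replicate 15 ⟨.pos, 1⟩) + 1 = 1
      rw [cups_tw]
    rw [List.replicate_succ, List.flatten_cons, cups_append, ih, e3]
    omega

private theorem cups_chs (m k : ℕ) : cups (List.replicate k (chW m)).flatten = 0 := by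
  induction k with
  | zero => rfl
  | succ k ih =>
    have e3 : cups (chW m) = 0 := by
      unfold chW
      rw [cups_append, cups_tw]
      rfl
    rw [List.replicate_succ, List.flatten_cons, cups_append, ih, e3]

private theorem cups_K (m n : ℕ) : cups (Tn (n + 1) ++ Xn m n) = n + 2 := by
  rw [cups_append]
  have e1 : cups (Tn (n + 1)) = n + 2 := by
    show cups ((List.replicate (n + 1) colW).flatten ++ [⟨.cap, 0⟩]) + 1 = n + 2
    rw [cups_append, cups_cols]
    rfl
  have e2 : cups (Xn m n) = 0 := by
    unfold Xn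
    rw [cups_append, cups_chs]
    rfl
  rw [e1, e2]

/-- the colouring belonging to `a` -/
private def cc {p q : ℕ} (n : ℕ) (a : Fin (n + 2) → ZMod q) : ℕ → ZMod p × ZMod q :=
  fun j => if h : j < n + 2 then (if j = 0 then 1 else 0, a ⟨j, h⟩) else (0, 0)

private theorem cc_mem {p q m : ℕ} [Fact p.Prime] [Fact q.Prime] (ψ : AddChar (ZMod p) (ZMod q))
    (hψ : ∀ d : ZMod p, d ≠ 0 → ψ d * ψ d ≠ 1) (hp : p ∣ 15) (hm : q ∣ m) (n : ℕ)
    (a : Fin (n + 2) → ZMod q) :
    cc n a ∈ Col (cop ψ) (0, 0) (Tn (n + 1) ++ Xn m n) := by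
  set c : ℕ → ZMod p × ZMod q := cc n a with hc
  have hc0 : (c 0).1 = 1 := by simp [hc, cc]
  have hc1 : ∀ i, (c (1 + i)).1 = 0 := by
    intro i
    simp only [hc, cc]
    split_ifs with h1 h2
    · omega
    · rfl
    · rfl
  have hm0 : (m : ZMod q) = 0 := (ZMod.natCast_eq_zero_iff m q).2 hm
  refine ⟨fun k hk => ?_, ?_⟩
  · rw [cups_K] at hk
    simp only [hc, cc]
    rw [dif_neg (by omega)]
  · -- the state after the first cup
    have s1 : ins2 0 (c 0) (fun _ => ((0 : ZMod p), (0 : ZMod q))) =
        pst fun i => if i = 0 then c 0 else (0, 0) := by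
      funext j
      simp only [ins2, pst, Nat.not_lt_zero, if_false]
      by_cases h1 : j < 0 + 2
      · rw [if_pos h1, if_pos (by omega)]
      · rw [if_neg h1, if_neg (by omega)]
    obtain ⟨r1, o1⟩ := cols (cop ψ) (n + 1) (fun i => if i = 0 then c 0 else (0, 0))
      (fun k => c (k + 1)) (fun i _ => by
        apply cop_period_diff ψ hψ hp
        rw [if_pos rfl, hc0, add_comm, hc1]
        exact one_ne_zero)
    set G : ℕ → ZMod p × ZMod q := fun i => if i = 0 then (if (0 : ℕ) = 0 then c 0 else (0, 0))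
      else if i ≤ n + 1 then c (n + 1 - i + 1) else (if i - (n + 1) = 0 then c 0 else (0, 0))
      with hG
    have hGz : ∀ i, (G (i + 1)).1 = 0 := by
      intro i
      simp only [hG]
      rw [if_neg (by omega)]
      split_ifs with h1 h2
      · rw [add_comm]; exact hc1 _
      · omega
      · rfl
    obtain ⟨r2, o2⟩ := chs (cop ψ) m n (fun i => G (i + 1))
      (fun k => c (cups (Tn (n + 1)) + k)) (fun i _ => by
        have e1 : G (i + 1) = (0, (G (i + 1)).2) := Prod.ext (hGz i) rfl
        have e2 : G (i + 1 + 1) = (0, (G (i + 1 + 1)).2) := Prod.ext (hGz (i + 1)) rfl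
        have := cop_tw_same ψ m 0 (G (i + 1)).2 (G (i + 1 + 1)).2
        rw [← e1, ← e2, hm0, zero_mul, add_zero, add_zero, ← e1, ← e2] at this
        exact this)
    have rT : run (cop ψ) (Tn (n + 1)) (fun _ => (0, 0)) c = pst fun i => G (i + 1) := by
      show run (cop ψ) ((List.replicate (n + 1) colW).flatten ++ [⟨.cap, 0⟩])
        (ins2 0 (c 0) (fun _ => (0, 0))) (fun k => c (k + 1)) = _
      rw [s1, run_append, r1]
      show del2 0 (pst G) = _
      exact pst_del G
    have oT : ok (cop ψ) (Tn (n + 1)) (fun _ => (0, 0)) c := by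
      show ok (cop ψ) ((List.replicate (n + 1) colW).flatten ++ [⟨.cap, 0⟩])
        (ins2 0 (c 0) (fun _ => (0, 0))) (fun k => c (k + 1))
      rw [s1, ok_append, r1]
      exact ⟨o1, rfl, trivial⟩
    rw [ok_append, rT]
    refine ⟨oT, ?_⟩
    unfold Xn
    rw [ok_append, r2]
    exact ⟨o2, rfl, trivial⟩

theorem lower {p q m : ℕ} [Fact p.Prime] [Fact q.Prime] (ψ : AddChar (ZMod p) (ZMod q))
    (hψ : ∀ d : ZMod p, d ≠ 0 → ψ d * ψ d ≠ 1) (hp : p ∣ 15) (hm : q ∣ m) (n : ℕ) :
    q ^ (n + 2) ≤ num (cop ψ) (0, 0) (Tn (n + 1) ++ Xn m n) := by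
  have hinj : Function.Injective (cc (p := p) (q := q) n) := by
    intro a a' h
    funext j
    have := congrFun h j.1
    simp only [cc] at this
    rw [dif_pos j.2, dif_pos j.2] at this
    exact (Prod.mk.inj this).2
  have hcard : (Set.range (cc (p := p) (q := q) n)).ncard = q ^ (n + 2) := by
    rw [← Set.image_univ, Set.ncard_image_of_injective _ hinj, Set.ncard_univ,
      Nat.card_eq_fintype_card, Fintype.card_fun, ZMod.card, Fintype.card_fin]
  rw [← hcard]
  apply Set.ncard_le_ncard
  · rintro _ ⟨a, rfl⟩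
    exact cc_mem ψ hψ hp hm n a
  · exact col_finite _ _ _

end Pool.Agent.Work.MP_3edda8_gt
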