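import Pool.Agent.Work.MP_3edda8_gt.SK.TDef

/-!
MODULE TPers (S-M): the tangles `Tn n`, `Tn' n` are `p`-persistent for `p ∣ 15`, `1 < p`.

PROOF.  Colouring `c 0 = 1`, `c t = 0` for `t ≥ 1`.  By `run_tw` and `fox_period` (`p ∣ 15`) the
15 half twists act trivially.  `Tn n`: after the first cup `1, 1, 0, 0, ...`; each column gives
`1, 1, 0, 0, ...` again (`ins2 2 0` of this state, base state `0`); the cap at `0` joins `1, 1` and
leaves the zero state.  `Tn' n`: `Tn 1`, then cups of colour `0` on the zero state.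
`c 0 = 1 ≠ 0` in `ZMod p` as `1 < p` and `cups ≥ 1`.
-/

namespace Pool.Agent.Work.MP_3edda8_gt

private def cc (p : ℕ) : ℕ → ZMod p := fun t => if t = 0 then 1 else 0

private def EE (p : ℕ) : ℕ → ZMod p := fun j => if j < 2 then 1 else 0

private theorem cc_succ (p k : ℕ) : (fun n => cc p (k + 1 + n)) = fun _ => 0 := by
  funext n
  unfold cc
  rw [if_neg (by omega)]

private theorem cc_succ' (p : ℕ) : (fun n => cc p (n + 1)) = fun _ => 0 := by
  funext n
  unfold cc
  rw [if_neg (by omega)]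

private theorem ins_EE (p : ℕ) : ins2 2 0 (EE p) = EE p := by
  funext j
  unfold ins2 EE
  by_cases h1 : j < 2
  · rw [if_pos h1]
  · rw [if_neg h1]
    by_cases h2 : j < 2 + 2
    · rw [if_pos h2]
      rw [if_neg h1]
    · rw [if_neg h2, if_neg h1, if_neg (by omega)]

private theorem run_colW {p : ℕ} (hp : p ∣ 15) :
    run fox colW (EE p) (fun _ => 0) = EE p ∧ ok fox colW (EE p) (fun _ => 0) := by
  constructor
  · show run fox (List.replicate 15 ⟨.pos, 1⟩) (ins2 2 0 (EE p)) (fun _ => 0) = EE p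
    rw [ins_EE, run_tw, fox_period hp]
    funext j
    by_cases h1 : j = 1
    · rw [if_pos h1, h1]
    · rw [if_neg h1]
      by_cases h2 : j = 1 + 1
      · rw [if_pos h2, h2]
      · rw [if_neg h2]
  · exact ok_tw _ _ _ _ _

private theorem run_cols {p : ℕ} (hp : p ∣ 15) (n : ℕ) :
    run fox (List.replicate n colW).flatten (EE p) (fun _ => 0) = EE p ∧
      ok fox (List.replicate n colW).flatten (EE p) (fun _ => 0) := by
  induction n with
  | zero => exact ⟨rfl, trivial⟩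
  | succ n ih =>
    obtain ⟨h1, h2⟩ := run_colW hp
    rw [List.replicate_succ, List.flatten_cons, run_append, ok_append, h1]
    exact ⟨ih.1, h2, ih.2⟩

private theorem run_Tn {p : ℕ} (hp : p ∣ 15) (n : ℕ) :
    run fox (Tn n) (fun _ => 0) (cc p) = (fun _ => 0) ∧ ok fox (Tn n) (fun _ => 0) (cc p) := by
  have e0 : ins2 0 (cc p 0) (fun _ => (0 : ZMod p)) = EE p := by
    funext j
    unfold ins2 EE cc
    rw [if_neg (Nat.not_lt_zero _), if_pos rfl, zero_add]
  have e1 : del2 0 (EE p) = fun _ => (0 : ZMod p) := by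
    funext j
    unfold del2 EE
    rw [if_neg (Nat.not_lt_zero _), if_neg (by omega)]
  obtain ⟨h1, h2⟩ := run_cols hp n
  constructor
  · show run fox ((List.replicate n colW).flatten ++ [⟨.cap, 0⟩]) (ins2 0 (cc p 0) fun _ => 0)
      (fun n => cc p (n + 1)) = _
    rw [e0, cc_succ', run_append, h1]
    exact e1
  · show ok fox ((List.replicate n colW).flatten ++ [⟨.cap, 0⟩]) (ins2 0 (cc p 0) fun _ => 0)
      (fun n => cc p (n + 1))
    rw [e0, cc_succ', ok_append, h1]
    refine ⟨h2, ?_, trivial⟩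
    unfold EE
    rw [if_pos (by omega), if_pos (by omega)]

private theorem cups_Tn (n : ℕ) : ∃ k, cups (Tn n) = k + 1 := ⟨_, rfl⟩

private theorem run_cups (p n : ℕ) :
    run (fox : ZMod p → ZMod p → ZMod p) (List.replicate n ⟨.cup, 1⟩) (fun _ => 0) (fun _ => 0) =
      (fun _ => 0) ∧
    ok (fox : ZMod p → ZMod p → ZMod p) (List.replicate n ⟨.cup, 1⟩) (fun _ => 0) (fun _ => 0) := by
  induction n with
  | zero => exact ⟨rfl, trivial⟩
  | succ n ih =>
    have e : ins2 1 (0 : ZMod p) (fun _ => 0) = fun _ => 0 := by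
      funext j
      unfold ins2
      split_ifs <;> rfl
    rw [List.replicate_succ]
    constructor
    · show run fox (List.replicate n ⟨.cup, 1⟩) (ins2 1 (0 : ZMod p) fun _ => 0) (fun _ => 0) = _
      rw [e]
      exact ih.1
    · show ok fox (List.replicate n ⟨.cup, 1⟩) (ins2 1 (0 : ZMod p) fun _ => 0) (fun _ => 0)
      rw [e]
      exact ih.2

private theorem cc_ne {p : ℕ} (h1 : 1 < p) : cc p 0 ≠ 0 := by
  have : Fact (1 < p) := ⟨h1⟩
  unfold cc
  rw [if_pos rfl]
  exact one_ne_zero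

theorem pers_Tn {p : ℕ} (hp : p ∣ 15) (h1 : 1 < p) (n : ℕ) : Pers p n (Tn n) := by
  obtain ⟨e1, e2⟩ := run_Tn hp n
  obtain ⟨k, hk⟩ := cups_Tn n
  refine ⟨cc p, e2, fun j _ => ?_, 0, by omega, cc_ne h1⟩
  rw [e1]

theorem pers_Tn' {p : ℕ} (hp : p ∣ 15) (h1 : 1 < p) (n : ℕ) : Pers p (n + 1) (Tn' n) := by
  obtain ⟨e1, e2⟩ := run_Tn hp 1
  obtain ⟨k, hk⟩ := cups_Tn 1
  obtain ⟨f1, f2⟩ := run_cups p n
  refine ⟨cc p, ?_, fun j _ => ?_, 0, ?_, cc_ne h1⟩
  · unfold Tn'
    rw [ok_append, e1, hk, cc_succ]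
    exact ⟨e2, f2⟩
  · unfold Tn'
    rw [run_append, e1, hk, cc_succ, f1]
  · unfold Tn'
    rw [cups_append]
    omega

end Pool.Agent.Work.MP_3edda8_gt
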