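import Pool.Agent.Work.MP_3edda8_gt.SK.TTyped
import Pool.Agent.Work.MP_3edda8_gt.SK.Count

/-!
MODULE TUpper (M): upper bounds for the number of colourings of `Tn (n+1) ++ Xn m n`.

Notation: `c 0 = r` the hub colour, `c j` the colour of the cup of column `j` (`1 ≤ j ≤ n + 1`);
the state is described by its first entries.  After the first cup: `r, r`.  Column `j` turns
`r, h_{j-1}, L` into `r, h_j, z_j, c j, L` with `(h_j, z_j) = tw op 15 h_{j-1} (c j)`.  So before the
cap: `r, h_{n+1}, z_{n+1}, c (n+1), z_n, c n, ..., z_1, c 1` (then the base colour), and the cap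
says `r = h_{n+1}`.  Chain, step for `j = n + 1, n, ..., 2`: the first strand `t_j`
(`t_{n+1} = z_{n+1}`), then `c j, z_{j-1}, c (j-1), ...`; the `m` half twists replace
`(c j, z_{j-1})` by `(A, t_{j-1}) = tw op m (c j) z_{j-1}`, the cap says `t_j = A`; the last cap says
`t_1 = c 1`.

PROOF of `upper`.  The map `c ↦ (r, z_{n+1})` from `Col` to `Q × Q` is injective if for all `x` the
map `y ↦ (tw op m x y).1` is injective: by downward induction `h_j`, `z_j`, `t_j` are
determined: `(h_j, z_j) = tw op 15 h_{j-1} (c j)` determines `h_{j-1}` and `c j` (`tw op 15` is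
injective on pairs, since `op` is a kei: `tw op 1 (x, y) = (y, op x y)` has the inverse
`(x, y) ↦ (op y x, x)`), and then `t_j = (tw op m (c j) z_{j-1}).1` determines `z_{j-1}`, and
`t_{j-1}` is the second component.  So `num ≤ card (Q × Q)`.
(For two colourings `c`, `c'` prove by induction on `j` that the data at column `n + 1 - j`
agree; first prove a private lemma describing the states.)

PROOF of `upperF`.  `m` half twists act trivially over `ZMod q` (`fox_period`), so the chain says
`t_j = z_j = c j` for all `j`.  `(h_j, z_j) = tw fox 15 h_{j-1} (c j)`: `z_j = c j + 15 (c j - h_{j-1})`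
(`fox_tw`), so `15 (c j - h_{j-1}) = 0`, `c j = h_{j-1}` (15 is invertible mod `q`), and
`h_j = h_{j-1}`.  So all colours are `r`: at most `q` colourings.
-/

namespace Pool.Agent.Work.MP_3edda8_gt

private theorem tw_inj {Q : Type} {op : Q → Q → Q} (hop : IsKei op) (m : ℕ) (x y x' y' : Q)
    (h : tw op m x y = tw op m x' y') : x = x' ∧ y = y' := by
  induction m generalizing x y x' y' with
  | zero =>
    have h1 : (x, y) = (x', y') := h
    exact ⟨congrArg Prod.fst h1, congrArg Prod.snd h1⟩
  | succ m ih =>
    obtain ⟨h1, h2⟩ := ih _ _ _ _ h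
    refine ⟨?_, h1⟩
    rw [← hop.invol x y, h2, h1, hop.invol]

private theorem run_tw_at {Q : Type} (op : Q → Q → Q) (m i : ℕ) (s c : ℕ → Q) (j : ℕ) :
    run op (List.replicate m ⟨.pos, i⟩) s c j =
      if j = i then (tw op m (s i) (s (i + 1))).1 else
      if j = i + 1 then (tw op m (s i) (s (i + 1))).2 else s j :=
  congrFun (run_tw op m i s c) j

private theorem colu_run {Q : Type} (op : Q → Q → Q) (s c : ℕ → Q) :
    run op colW s c 0 = s 0 ∧ run op colW s c 1 = (tw op 15 (s 1) (c 0)).1 ∧
      run op colW s c 2 = (tw op 15 (s 1) (c 0)).2 ∧ run op colW s c 3 = c 0 ∧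
      ∀ j, run op colW s c (4 + j) = s (2 + j) := by
  have e : run op colW s c =
      run op (List.replicate 15 ⟨.pos, 1⟩) (ins2 2 (c 0) s) (fun n => c (n + 1)) := rfl
  have i0 : ins2 2 (c 0) s 0 = s 0 := rfl
  have i1 : ins2 2 (c 0) s 1 = s 1 := rfl
  have i2 : ins2 2 (c 0) s (1 + 1) = c 0 := rfl
  have i3 : ins2 2 (c 0) s 3 = c 0 := rfl
  rw [e]
  refine ⟨?_, ?_, ?_, ?_, fun j => ?_⟩
  · rw [run_tw_at, if_neg (by omega), if_neg (by omega), i0]
  · rw [run_tw_at, if_pos rfl, i1, i2]
  · rw [run_tw_at, if_neg (by omega), if_pos rfl, i1, i2]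
  · rw [run_tw_at, if_neg (by omega), if_neg (by omega), i3]
  · rw [run_tw_at, if_neg (by omega), if_neg (by omega)]
    unfold ins2
    rw [if_neg (by omega), if_neg (by omega)]
    congr 1
    omega

private theorem cups_colW : cups colW = 1 := rfl

private theorem cups_cols (k : ℕ) : cups (List.replicate k colW).flatten = k := by
  induction k with
  | zero => rfl
  | succ k ih =>
    rw [List.replicate_succ, List.flatten_cons, cups_append, ih, cups_colW, add_comm]

private theorem cups_X (m n : ℕ) : cups (Xn m n) = 0 := by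
  have e2 : ∀ k, cups (List.replicate k (chW m)).flatten = 0 := by
    intro k
    induction k with
    | zero => rfl
    | succ k ih =>
      rw [List.replicate_succ, List.flatten_cons, cups_append, ih]
      unfold chW
      rw [cups_append, cups_tw]
      rfl
  unfold Xn
  rw [cups_append, e2]
  rfl

private theorem cups_K (m n : ℕ) : cups (Tn (n + 1) ++ Xn m n) = n + 2 := by
  rw [cups_append, cups_X]
  unfold Tn
  show cups _ + 1 + 0 = _
  rw [cups_append, cups_cols]
  rfl

private theorem cols_zero {Q : Type} (op : Q → Q → Q) (n : ℕ) (s c : ℕ → Q) :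
    run op (List.replicate n colW).flatten s c 0 = s 0 := by
  induction n generalizing s c with
  | zero => rfl
  | succ n ih =>
    rw [List.replicate_succ, List.flatten_cons, run_append, ih, (colu_run op s c).1]

private theorem cols_snoc {Q : Type} (op : Q → Q → Q) (n : ℕ) (s c : ℕ → Q) :
    run op (List.replicate (n + 1) colW).flatten s c =
      run op colW (run op (List.replicate n colW).flatten s c) (fun k => c (n + k)) := by
  rw [List.replicate_succ', List.flatten_append, run_append, cups_cols]
  rfl

/-- the state of the chain -/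
private def st {Q : Type} (t : Q) (S : ℕ → Q) : ℕ → Q := fun k => if k = 0 then t else S (k + 2)

private theorem ch_step {Q : Type} (op : Q → Q → Q) (m : ℕ) (s c : ℕ → Q) :
    (ok op (chW m) s c ↔ s 0 = (tw op m (s 1) (s 2)).1) ∧
    run op (chW m) s c = fun j => if j = 0 then (tw op m (s 1) (s 2)).2 else s (j + 2) := by
  have h0 : run op (List.replicate m ⟨.pos, 1⟩) s c 0 = s 0 := by
    rw [run_tw_at, if_neg (by omega), if_neg (by omega)]
  have h1 : run op (List.replicate m ⟨.pos, 1⟩) s c 1 = (tw op m (s 1) (s 2)).1 := by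
    rw [run_tw_at, if_pos rfl]
  unfold chW
  rw [ok_append, run_append]
  constructor
  · have h3 : ok op [⟨.cap, 0⟩] (run op (List.replicate m ⟨.pos, 1⟩) s c)
        (fun n => c (cups (List.replicate m (⟨.pos, 1⟩ : Ev)) + n)) ↔
        run op (List.replicate m ⟨.pos, 1⟩) s c 0 = run op (List.replicate m ⟨.pos, 1⟩) s c 1 :=
      ⟨fun h => h.1, fun h => ⟨h, trivial⟩⟩
    rw [h3, h0, h1]
    exact ⟨fun h => h.2, fun h => ⟨ok_tw op m 1 s c, h⟩⟩
  · funext j
    show run op (List.replicate m ⟨.pos, 1⟩) s c (j + 2) =
      if j = 0 then (tw op m (s 1) (s 2)).2 else s (j + 2)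
    rw [run_tw_at]
    by_cases hj : j = 0
    · subst hj
      rw [if_neg (by omega), if_pos rfl, if_pos rfl]
    · rw [if_neg (by omega), if_neg (by omega), if_neg hj]

private theorem X_succ (m n : ℕ) : Xn m (n + 1) = chW m ++ Xn m n := by
  unfold Xn
  rw [List.replicate_succ, List.flatten_cons, List.append_assoc]

private theorem chain_inj {Q : Type} {op : Q → Q → Q} (hop : IsKei op) {m : ℕ}
    (hinj : ∀ x, Function.Injective fun y => (tw op m x y).1) (n : ℕ) (s s' c c' : ℕ → Q)
    (d d' : ℕ → Q) (t : Q)
    (h1 : run op (List.replicate (n + 1) colW).flatten s c 1 =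
      run op (List.replicate (n + 1) colW).flatten s' c' 1)
    (h2 : run op (List.replicate (n + 1) colW).flatten s c 2 =
      run op (List.replicate (n + 1) colW).flatten s' c' 2)
    (hX : ok op (Xn m n) (st t (run op (List.replicate (n + 1) colW).flatten s c)) d)
    (hX' : ok op (Xn m n) (st t (run op (List.replicate (n + 1) colW).flatten s' c')) d') :
    ∀ k < n + 1, c k = c' k := by
  induction n generalizing d d' t with
  | zero =>
    rw [cols_snoc op 0 s c, cols_snoc op 0 s' c'] at h1 h2
    rw [(colu_run op _ _).2.1, (colu_run op _ _).2.1] at h1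
    rw [(colu_run op _ _).2.2.1, (colu_run op _ _).2.2.1] at h2
    have h3 := (tw_inj hop 15 _ _ _ _ (Prod.ext h1 h2)).2
    intro k hk
    obtain rfl : k = 0 := by omega
    exact h3
  | succ n ih =>
    rw [cols_snoc op (n + 1) s c] at h1 h2 hX
    rw [cols_snoc op (n + 1) s' c'] at h1 h2 hX'
    obtain ⟨-, a1, a2, a3, a4⟩ := colu_run op
      (run op (List.replicate (n + 1) colW).flatten s c) (fun k => c (n + 1 + k))
    obtain ⟨-, b1, b2, b3, b4⟩ := colu_run op
      (run op (List.replicate (n + 1) colW).flatten s' c') (fun k => c' (n + 1 + k))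
    rw [a1, b1] at h1
    rw [a2, b2] at h2
    obtain ⟨g1, g2⟩ := tw_inj hop 15 _ _ _ _ (Prod.ext h1 h2)
    rw [X_succ, ok_append, (ch_step op m _ _).2] at hX hX'
    obtain ⟨x1, x2⟩ := hX
    obtain ⟨x1', x2'⟩ := hX'
    rw [(ch_step op m _ _).1] at x1 x1'
    have s1 : st t (run op colW (run op (List.replicate (n + 1) colW).flatten s c)
        (fun k => c (n + 1 + k))) 1 = c (n + 1) := a3
    have s2 : st t (run op colW (run op (List.replicate (n + 1) colW).flatten s c)
        (fun k => c (n + 1 + k))) 2 = run op (List.replicate (n + 1) colW).flatten s c 2 := a4 0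
    have s1' : st t (run op colW (run op (List.replicate (n + 1) colW).flatten s' c')
        (fun k => c' (n + 1 + k))) 1 = c' (n + 1) := b3
    have s2' : st t (run op colW (run op (List.replicate (n + 1) colW).flatten s' c')
        (fun k => c' (n + 1 + k))) 2 = run op (List.replicate (n + 1) colW).flatten s' c' 2 := b4 0
    have g3 : c (n + 1) = c' (n + 1) := g2
    rw [s1, s2] at x1 x2
    rw [s1', s2', ← g3] at x1' x2'
    have y1 : t = (tw op m (c (n + 1))
        (run op (List.replicate (n + 1) colW).flatten s c 2)).1 := x1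
    have y1' : t = (tw op m (c (n + 1))
        (run op (List.replicate (n + 1) colW).flatten s' c' 2)).1 := x1'
    have y2 : run op (List.replicate (n + 1) colW).flatten s c 2 =
        run op (List.replicate (n + 1) colW).flatten s' c' 2 := hinj _ (y1.symm.trans y1')
    have f1 : (fun j => if j = 0 then (tw op m (c (n + 1))
        (run op (List.replicate (n + 1) colW).flatten s c 2)).2 else
        st t (run op colW (run op (List.replicate (n + 1) colW).flatten s c)
          (fun k => c (n + 1 + k))) (j + 2)) =
        st (tw op m (c (n + 1)) (run op (List.replicate (n + 1) colW).flatten s c 2)).2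
          (run op (List.replicate (n + 1) colW).flatten s c) := by
      funext j
      unfold st
      by_cases hj : j = 0
      · rw [if_pos hj, if_pos hj]
      · rw [if_neg hj, if_neg hj, if_neg (by omega)]
        have := a4 j
        rw [show 4 + j = j + 2 + 2 by omega, show 2 + j = j + 2 by omega] at this
        exact this
    have f1' : (fun j => if j = 0 then (tw op m (c (n + 1))
        (run op (List.replicate (n + 1) colW).flatten s' c' 2)).2 else
        st t (run op colW (run op (List.replicate (n + 1) colW).flatten s' c')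
          (fun k => c' (n + 1 + k))) (j + 2)) =
        st (tw op m (c (n + 1)) (run op (List.replicate (n + 1) colW).flatten s c 2)).2
          (run op (List.replicate (n + 1) colW).flatten s' c') := by
      funext j
      unfold st
      by_cases hj : j = 0
      · rw [if_pos hj, if_pos hj, y2]
      · rw [if_neg hj, if_neg hj, if_neg (by omega)]
        have := b4 j
        rw [show 4 + j = j + 2 + 2 by omega, show 2 + j = j + 2 by omega] at this
        exact this
    rw [f1] at x2
    rw [f1'] at x2'
    have h5 := ih _ _ _ g1 y2 x2 x2'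
    intro k hk
    by_cases hk1 : k = n + 1
    · rw [hk1]
      exact g3
    · exact h5 k (by omega)

/-- what a colouring of the closed word says -/
private theorem col_data {Q : Type} (op : Q → Q → Q) (m n : ℕ) (b : Q) (c : ℕ → Q)
    (hc : ok op (Tn (n + 1) ++ Xn m n) (fun _ => b) c) :
    run op (List.replicate (n + 1) colW).flatten (ins2 0 (c 0) (fun _ => b))
      (fun k => c (k + 1)) 1 = c 0 ∧
    ∃ d, ok op (Xn m n) (fun j => run op (List.replicate (n + 1) colW).flatten
      (ins2 0 (c 0) (fun _ => b)) (fun k => c (k + 1)) (j + 2)) d := by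
  rw [ok_append] at hc
  obtain ⟨h1, h2⟩ := hc
  have h3 : ok op ((List.replicate (n + 1) colW).flatten ++ [⟨.cap, 0⟩])
      (ins2 0 (c 0) (fun _ => b)) (fun k => c (k + 1)) := h1
  rw [ok_append] at h3
  have h4 := h3.2.1
  rw [cols_zero] at h4
  refine ⟨h4.symm, fun k => c (cups (Tn (n + 1)) + k), ?_⟩
  have h5 : run op (Tn (n + 1)) (fun _ => b) c = fun j =>
      run op (List.replicate (n + 1) colW).flatten
        (ins2 0 (c 0) (fun _ => b)) (fun k => c (k + 1)) (j + 2) := by
    unfold Tn
    show run op (_ ++ _) _ _ = _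
    rw [run_append]
    rfl
  rw [h5] at h2
  exact h2

private theorem chain_per {Q : Type} (op : Q → Q → Q) {m : ℕ}
    (hper : ∀ x y, tw op m x y = (x, y)) (n : ℕ) (s c : ℕ → Q)
    (h : ok op (Xn m n) s c) : ∀ j ≤ n, s (2 * j) = s (2 * j + 1) := by
  induction n generalizing s c with
  | zero =>
    intro j hj
    obtain rfl : j = 0 := by omega
    exact h.1
  | succ n ih =>
    have e0 : (fun j => if j = 0 then (tw op m (s 1) (s 2)).2 else s (j + 2)) =
        fun j => s (j + 2) := by
      funext j
      by_cases hj : j = 0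
      · rw [if_pos hj, hper, hj]
      · rw [if_neg hj]
    rw [X_succ, ok_append, (ch_step op m s c).2, (ch_step op m s c).1, e0, hper] at h
    have h2 := ih _ _ h.2
    intro j hj
    rcases j with _ | j
    · exact h.1
    · have h3 := h2 j (by omega)
      have e1 : 2 * (j + 1) = 2 * j + 2 := by ring
      have e2 : 2 * (j + 1) + 1 = 2 * j + 1 + 2 := by ring
      rw [e2, e1]
      exact h3

private theorem cols_sh {Q : Type} (op : Q → Q → Q) (n : ℕ) (s c : ℕ → Q) (j : ℕ) :
    run op (List.replicate n colW).flatten s c (2 * n + 2 + j) = s (2 + j) := by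
  induction n generalizing s c j with
  | zero =>
    show s (2 * 0 + 2 + j) = _
    congr 1
  | succ n ih =>
    rw [List.replicate_succ, List.flatten_cons, run_append]
    have e : 2 * (n + 1) + 2 + j = 2 * n + 2 + (2 + j) := by ring
    have e3 : 2 + (2 + j) = 4 + j := by ring
    rw [e, ih, e3, (colu_run op s c).2.2.2.2]

private theorem cols_F {q : ℕ} [Fact q.Prime] (hq : ¬ q ∣ 15) (n : ℕ) (s c : ℕ → ZMod q)
    (h : ∀ j < n, run fox (List.replicate n colW).flatten s c (2 * j + 2) =
      run fox (List.replicate n colW).flatten s c (2 * j + 3)) : ∀ k < n, c k = s 1 := by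
  have h15 : ((15 : ℕ) : ZMod q) ≠ 0 := fun h1 => hq ((ZMod.natCast_eq_zero_iff 15 q).1 h1)
  induction n generalizing s c with
  | zero =>
    intro k hk
    omega
  | succ n ih =>
    rw [List.replicate_succ, List.flatten_cons, run_append] at h
    obtain ⟨-, e1, e2, e3, e4⟩ := colu_run fox s c
    have h1 := ih _ _ (fun j hj => h j (by omega))
    have h2 := h n (by omega)
    have h3 := cols_sh fox n (run fox colW s c) (fun n => c (cups colW + n)) 0
    have h4 := cols_sh fox n (run fox colW s c) (fun n => c (cups colW + n)) 1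
    have i1 : 2 * n + 2 + 0 = 2 * n + 2 := rfl
    have i2 : 2 * n + 2 + 1 = 2 * n + 3 := rfl
    rw [i1] at h3
    rw [i2] at h4
    rw [h3, h4] at h2
    have h6 : run fox colW s c 2 = run fox colW s c 3 := h2
    rw [e2, e3, fox_tw] at h6
    have h7 : c 0 + ((15 : ℕ) : ZMod q) * (c 0 - s 1) = c 0 := h6
    have h8 : ((15 : ℕ) : ZMod q) * (c 0 - s 1) = 0 := by linear_combination h7
    have h9 : c 0 - s 1 = 0 := (mul_eq_zero.1 h8).resolve_left h15
    have h10 : c 0 = s 1 := sub_eq_zero.1 h9
    rw [e1, fox_tw] at h1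
    have h11 : ∀ k < n, c (cups colW + k) = s 1 := by
      intro k hk
      have h12 := h1 k hk
      have h13 : c (cups colW + k) = s 1 + ((15 : ℕ) : ZMod q) * (c 0 - s 1) := h12
      rw [h13, h8, add_zero]
    intro k hk
    rcases k with _ | k
    · exact h10
    · have h14 := h11 k (by omega)
      rw [cups_colW, add_comm] at h14
      exact h14

theorem upper {Q : Type} [Finite Q] {op : Q → Q → Q} (hop : IsKei op) {m : ℕ}
    (hinj : ∀ x, Function.Injective fun y => (tw op m x y).1) (n : ℕ) (b : Q) :
    num op b (Tn (n + 1) ++ Xn m n) ≤ Nat.card Q ^ 2 := by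
  classical
  have := Fintype.ofFinite Q
  let F : (ℕ → Q) → Q × Q := fun c => (c 0,
    run op (List.replicate (n + 1) colW).flatten (ins2 0 (c 0) (fun _ => b))
      (fun k => c (k + 1)) 2)
  have hF : Set.InjOn F (Col op b (Tn (n + 1) ++ Xn m n)) := by
    intro c hc c' hc' h
    have r1 : c 0 = c' 0 := congrArg Prod.fst h
    have r2 : run op (List.replicate (n + 1) colW).flatten (ins2 0 (c 0) (fun _ => b))
        (fun k => c (k + 1)) 2 = run op (List.replicate (n + 1) colW).flatten
        (ins2 0 (c' 0) (fun _ => b)) (fun k => c' (k + 1)) 2 := congrArg Prod.snd h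
    obtain ⟨a1, d, a2⟩ := col_data op m n b c hc.2
    obtain ⟨a1', d', a2'⟩ := col_data op m n b c' hc'.2
    have e : ∀ S : ℕ → Q, (fun j => S (j + 2)) = st (S 2) S := by
      intro S
      funext j
      unfold st
      by_cases hj : j = 0
      · rw [if_pos hj, hj]
      · rw [if_neg hj]
    rw [e] at a2 a2'
    rw [← r2] at a2'
    have h5 := chain_inj hop hinj n _ _ (fun k => c (k + 1)) (fun k => c' (k + 1)) d d' _
      (by rw [a1, a1', r1]) r2 a2 a2'
    funext k
    by_cases hk : k < n + 2
    · rcases k with _ | k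
      · exact r1
      · exact h5 k (by omega)
    · rw [hc.1 k (by rw [cups_K]; omega), hc'.1 k (by rw [cups_K]; omega)]
  have h6 := Set.ncard_le_ncard_of_injOn (t := (Set.univ : Set (Q × Q))) F
    (fun _ _ => Set.mem_univ _) hF Set.finite_univ
  rw [Set.ncard_univ, Nat.card_prod] at h6
  rw [pow_two]
  exact h6

theorem upperF {q m : ℕ} [Fact q.Prime] (hq : ¬ q ∣ 15) (hm : q ∣ m) (n : ℕ) :
    num fox (0 : ZMod q) (Tn (n + 1) ++ Xn m n) ≤ q := by
  classical
  have hF : Set.InjOn (fun c : ℕ → ZMod q => c 0)
      (Col fox (0 : ZMod q) (Tn (n + 1) ++ Xn m n)) := by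
    have key : ∀ c ∈ Col fox (0 : ZMod q) (Tn (n + 1) ++ Xn m n), ∀ k < n + 2, c k = c 0 := by
      intro c hc
      obtain ⟨-, d, a2⟩ := col_data fox m n 0 c hc.2
      have h1 := chain_per fox (fun x y => fox_period hm x y) n _ d a2
      have h2 := cols_F hq (n + 1) (ins2 0 (c 0) (fun _ => 0)) (fun k => c (k + 1))
        (fun j hj => h1 j (by omega))
      intro k hk
      rcases k with _ | k
      · rfl
      · exact h2 k (by omega)
    intro c hc c' hc' h
    funext k
    by_cases hk : k < n + 2
    · rw [key c hc k hk, key c' hc' k hk]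
      exact h
    · rw [hc.1 k (by rw [cups_K]; omega), hc'.1 k (by rw [cups_K]; omega)]
  have h6 := Set.ncard_le_ncard_of_injOn (t := (Set.univ : Set (ZMod q))) _
    (fun _ _ => Set.mem_univ _) hF Set.finite_univ
  rw [Set.ncard_univ, Nat.card_eq_fintype_card, ZMod.card] at h6
  exact h6

end Pool.Agent.Work.MP_3edda8_gt
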