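import Pool.Agent.Work.MP_3edda8_gt.SK.Thin
import Pool.Agent.Work.MP_3edda8_gt.SK.BdCard

/-!
MODULE Thin2 (S-M): the sharper form of `thin`.

PROOF.  Copy the proof of `thin` (Thin.lean); the only change: for a fixed colouring `f` the
boundary values take at most `q ^ N` values (`bd_card`) instead of `q ^ (2 N)`.  So
`num (cop ψ) K = ∑_f #(fibre over f) ≤ p ^ 2 * (q ^ N * B)`.
-/

namespace Pool.Agent.Work.MP_3edda8_gt

theorem thin2 {p q N : ℕ} [Fact p.Prime] [Fact q.Prime] (ψ : AddChar (ZMod p) (ZMod q))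
    (hN : 1 ≤ N) {u S v : List Ev} {a : ℕ} (hS : Typed S 0 (2 * N))
    (hK : Typed (u ++ sh a S ++ v) 0 0) (hP : Pers p N S)
    (hp : num fox (0 : ZMod p) (u ++ sh a S ++ v) ≤ p ^ 2)
    (hq : num fox (0 : ZMod q) (u ++ sh a S ++ v) ≤ q) (B : ℕ)
    (hB : ∀ f ∈ Col fox (0 : ZMod p) (u ++ sh a S ++ v),
      (liftSet ψ N S (fun n => f (cups u + n))).ncard ≤ B) :
    num (cop ψ) (0, 0) (u ++ sh a S ++ v) ≤ p ^ 2 * (q ^ N * B) :=
  thin_gen ψ hN hS hK hP hp hq B (q ^ N) hB fun f hf => bd_card ψ hN hS hK hP hp f hf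

end Pool.Agent.Work.MP_3edda8_gt
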