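import Pool.Agent.Work.MP_3edda8_gt.SK.Quo
import Pool.Agent.Work.MP_3edda8_gt.SK.Thin2
import Pool.Agent.Work.MP_3edda8_gt.SK.Lift2
import Pool.Agent.Work.MP_3edda8_gt.SK.Primes
import Pool.Agent.Work.MP_3edda8_gt.SK.TPers
import Pool.Agent.Work.MP_3edda8_gt.SK.TUpper
import Pool.Agent.Work.MP_3edda8_gt.SK.TLower

/-!
# Assembly: every inclusion of the filtration is strict
-/

namespace Pool.Agent.Work.MP_3edda8_gt

/-- The inequalities carried along a chain, for one prime `p`. -/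
structure Good {p q q2 : ℕ} (ψ : AddChar (ZMod p) (ZMod q)) (ψ' : AddChar (ZMod p) (ZMod q2))
    (n : ℕ) (D : List Ev) : Prop where
  hp : num fox (0 : ZMod p) D ≤ p ^ 2
  hq : num fox (0 : ZMod q) D ≤ q
  h2 : num (cop ψ') (0, 0) D ≤ (p * q2) ^ 2
  hl : q ^ (n + 2) ≤ num (cop ψ) (0, 0) D

/-- A good diagram does not contain a persistent tangle of the finite list with few strands. -/
theorem good_not_pers {p q q2 : ℕ} [Fact p.Prime] [Fact q.Prime] [Fact q2.Prime]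
    (hpq : p ^ 2 < q) (hpq2 : p ^ 2 < q2)
    (ψ : AddChar (ZMod p) (ZMod q)) (ψ' : AddChar (ZMod p) (ZMod q2))
    {n N : ℕ} (hN : 1 ≤ N) (hn : N ≤ n) {S : List Ev} (hS : Typed S 0 (2 * N))
    (hexp : ∀ ρ : ℕ → ZMod p, ok fox S (fun _ => 0) ρ → ∃ e,
      (liftSet ψ N S ρ).ncard = q ^ e ∧ (liftSet ψ' N S ρ).ncard = q2 ^ e)
    {u v : List Ev} {a : ℕ} (hK : Typed (u ++ sh a S ++ v) 0 0)
    (hG : Good ψ ψ' n (u ++ sh a S ++ v)) : ¬ Pers p N S := by
  intro hP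
  have hq1 : 1 < q := (Fact.out : q.Prime).one_lt
  have hq21 : 1 < q2 := (Fact.out : q2.Prime).one_lt
  have hB : ∀ f ∈ Col fox (0 : ZMod p) (u ++ sh a S ++ v),
      (liftSet ψ N S (fun n => f (cups u + n))).ncard ≤ q := by
    intro f hf
    have hok : ok fox S (fun _ => 0) (fun n => f (cups u + n)) :=
      ((glue_iff fox hS a (fun _ => 0) (fun _ => 0) f).1 hf.2).2.1
    obtain ⟨e, he, he2⟩ := hexp _ hok
    have h1 := lift_le2 ψ' hN hS hK f hf
    rw [he2] at h1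
    have h3 : q2 ^ (e + 1) < q2 ^ 3 := by
      calc q2 ^ (e + 1) = q2 * q2 ^ e := by ring
        _ ≤ (p * q2) ^ 2 := h1.trans hG.h2
        _ = p ^ 2 * q2 ^ 2 := by ring
        _ < q2 * q2 ^ 2 := Nat.mul_lt_mul_of_pos_right hpq2 (by positivity)
        _ = q2 ^ 3 := by ring
    have h4 : e + 1 < 3 := (Nat.pow_lt_pow_iff_right hq21).1 h3
    rw [he]
    calc q ^ e ≤ q ^ 1 := Nat.pow_le_pow_right (by omega) (by omega)
      _ = q := pow_one q
  have h5 := thin2 ψ hN hS hK hP hG.hp hG.hq q hB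
  have h6 : q ^ (n + 2) < q ^ (N + 2) := by
    calc q ^ (n + 2) ≤ p ^ 2 * (q ^ N * q) := hG.hl.trans h5
      _ < q * (q ^ N * q) := Nat.mul_lt_mul_of_pos_right hpq (by positivity)
      _ = q ^ (N + 2) := by ring
  have h7 := (Nat.pow_lt_pow_iff_right hq1).1 h6
  omega

/-- The single move of the counterexample. -/
def theMove (n : ℕ) : Tangle (n + 1) × Tangle (n + 1) :=
  (⟨Tn (n + 1), typed_Tn (n + 1)⟩, ⟨Tn' n, typed_Tn' n⟩)

theorem main {N n : ℕ} (hN : 1 ≤ N) (hn : N ≤ n) (M' : Set (Tangle N × Tangle N)) (hM' : M'.Finite) :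
    ¬ ∀ D D' : Diagram, EqM ({theMove n} : Set _) D D' ↔ EqM M' D D' := by
  intro hEq
  set M : Set (Tangle (n + 1) × Tangle (n + 1)) := {theMove n} with hM
  -- the finite list of tangles
  let A : Set (ℕ × List Ev) :=
    {(1, Tn 1)} ∪ ((fun x : Tangle N × Tangle N => (N, x.1.1)) '' M' ∪
      (fun x : Tangle N × Tangle N => (N, x.2.1)) '' M')
  have hA : A.Finite := (Set.finite_singleton _).union ((hM'.image _).union (hM'.image _))
  obtain ⟨q, q2, hq, hq2, hne, h15, h15', ψ3, ψ3', ψ5, ψ5', hψ3, hψ3', hψ5, hψ5', he3, he5⟩ :=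
    two_primes A hA
  haveI : Fact q.Prime := ⟨hq⟩
  haveI : Fact q2.Prime := ⟨hq2⟩
  haveI : Fact (Nat.Prime 3) := ⟨by norm_num⟩
  haveI : Fact (Nat.Prime 5) := ⟨by norm_num⟩
  have h31 : ∀ r : ℕ, r.Prime → 15 ∣ r - 1 → 31 ≤ r := by
    intro r hr h
    obtain ⟨k, hk⟩ := h
    have h2 := hr.two_le
    rcases k with _ | _ | k
    · omega
    · have h16 : r = 16 := by omega
      rw [h16] at hr
      exact absurd hr (by norm_num)
    · omega
  have hq16 : 31 ≤ q := h31 q hq h15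
  have hq216 : 31 ≤ q2 := h31 q2 hq2 h15'
  have hcop : ∀ r p : ℕ, r.Prime → p.Prime → r ≠ p → ¬ r ∣ p := fun r p hr hp h hd =>
    h ((Nat.prime_dvd_prime_iff_eq hr hp).1 hd)
  have hq15 : ¬ q ∣ 15 := by
    intro h
    have : q ∣ 3 * 5 := by simpa using h
    rcases (Nat.Prime.dvd_mul hq).1 this with h | h
    · exact hcop q 3 hq (by norm_num) (by omega) h
    · exact hcop q 5 hq (by norm_num) (by omega) h
  -- the two diagrams
  set m := 2 * q with hm
  have h2m : 2 ∣ m := ⟨q, rfl⟩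
  let D : Diagram := ⟨Tn (n + 1) ++ Xn m n, knot_K h2m n⟩
  let D' : Diagram := ⟨Tn' n ++ Xn m n, knot_K' h2m n⟩
  have hndvd : ∀ p : ℕ, p.Prime → p ≠ 2 → p ≠ q → ¬ p ∣ m := by
    intro p hp h2 hpq h
    rcases (Nat.Prime.dvd_mul hp).1 h with h | h
    · exact h2 ((Nat.prime_dvd_prime_iff_eq hp Nat.prime_two).1 h)
    · exact hpq ((Nat.prime_dvd_prime_iff_eq hp hq).1 h)
  -- general construction of the good property
  have good0 : ∀ (p : ℕ) [Fact p.Prime] (ψ : AddChar (ZMod p) (ZMod q))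
      (ψ' : AddChar (ZMod p) (ZMod q2)), p ∣ 15 → p ≠ 2 → p ≠ q → p < 16 →
      (∀ d, d ≠ 0 → ψ d * ψ d ≠ 1) → (∀ d, d ≠ 0 → ψ' d * ψ' d ≠ 1) → Good ψ ψ' n D.1 := by
    intro p hpF ψ ψ' hp15 hp2 hpq hp16 hψ hψ'
    have hpm : ¬ p ∣ m := hndvd p hpF.out hp2 hpq
    have hq2m : ¬ q2 ∣ m := hndvd q2 hq2 (by omega) (Ne.symm hne)
    refine ⟨?_, ?_, ?_, ?_⟩
    · have := upper (kei_fox (R := ZMod p)) (m := m) (fun x => fox_inj hpm x) n 0
      simpa [Nat.card_eq_fintype_card, ZMod.card] using this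
    · exact upperF hq15 ⟨2, by rw [hm]; ring⟩ n
    · have := upper (kei_cop ψ') (m := m) (fun x => cop_inj ψ' hψ' hpm hq2m x) n (0, 0)
      simpa [Nat.card_eq_fintype_card, ZMod.card] using this
    · exact lower ψ hψ hp15 ⟨2, by rw [hm]; ring⟩ n
  have hG3 : Good ψ3 ψ3' n D.1 := good0 3 ψ3 ψ3' (by norm_num) (by norm_num) (by omega)
    (by norm_num) hψ3 hψ3'
  have hG5 : Good ψ5 ψ5' n D.1 := good0 5 ψ5 ψ5' (by norm_num) (by norm_num) (by omega)
    (by norm_num) hψ5 hψ5'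
  -- invariance under the moves
  have hMp : ∀ p : ℕ, p ∣ 15 → 1 < p →
      ∀ T T' : Tangle (n + 1), (T, T') ∈ M → Pers p (n + 1) T.1 ∧ Pers p (n + 1) T'.1 := by
    intro p hp h1 T T' hT
    rw [hM, Set.mem_singleton_iff] at hT
    obtain ⟨rfl, rfl⟩ := Prod.ext_iff.1 hT
    exact ⟨pers_Tn hp h1 _, pers_Tn' hp h1 _⟩
  have hA1 : ∀ S S' : Tangle N, (S, S') ∈ M' → (N, S.1) ∈ A ∧ (N, S'.1) ∈ A := by
    intro S S' h
    exact ⟨Or.inr (Or.inl ⟨_, h, rfl⟩), Or.inr (Or.inr ⟨_, h, rfl⟩)⟩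
  -- one application of a move, in either direction
  have key : ∀ S S' : Tangle N, (N, S.1) ∈ A →
      (∀ E E' : Diagram, (∃ u v a, E.1 = u ++ sh a S.1 ++ v ∧ E'.1 = u ++ sh a S'.1 ++ v) →
        EqM M E E') →
      ∀ E E' : Diagram, (∃ u v a, E.1 = u ++ sh a S.1 ++ v ∧ E'.1 = u ++ sh a S'.1 ++ v) →
        (Good ψ3 ψ3' n E.1 ∧ Good ψ5 ψ5' n E.1) → (Good ψ3 ψ3' n E'.1 ∧ Good ψ5 ψ5' n E'.1) := by
    intro S S' hSA hrel E E' hEE hG
    obtain ⟨u, v, a, hE, hE'⟩ := hEE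
    have hK : Typed (u ++ sh a S.1 ++ v) 0 0 := hE ▸ E.2.typed
    have hn3 : ¬ Pers 3 N S.1 := by
      refine good_not_pers (by norm_num; omega) (by norm_num; omega) ψ3 ψ3' hN hn S.2 (he3 _ hSA) hK ?_
      rw [← hE]; exact hG.1
    have hn5 : ¬ Pers 5 N S.1 := by
      refine good_not_pers (by norm_num; omega) (by norm_num; omega) ψ5 ψ5' hN hn S.2 (he5 _ hSA) hK ?_
      rw [← hE]; exact hG.2
    -- not 5-persistent: all colourings with periods dividing 2 * 3 * q * q2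
    have c5 : ∀ {Q : Type} [Finite Q] {op : Q → Q → Q}, IsKei op →
        (∀ x y, tw op (2 * (3 * (q * q2))) x y = (x, y)) → ∀ b : Q,
        num op b E.1 = num op b E'.1 := by
      intro Q _ op hop hper b
      refine caseA (p := 5) ?_ ⟨_, rfl⟩ (by omega) M (hMp 5 (by norm_num) (by norm_num)) hN S S'
        hn5 hrel E E' ⟨u, v, a, hE, hE'⟩ hop hper b
      intro h
      have h5 : Nat.Prime 5 := by norm_num
      rcases (Nat.Prime.dvd_mul h5).1 h with h | h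
      · omega
      rcases (Nat.Prime.dvd_mul h5).1 h with h | h
      · omega
      rcases (Nat.Prime.dvd_mul h5).1 h with h | h
      · exact hcop 5 q h5 hq (by omega) h
      · exact hcop 5 q2 h5 hq2 (by omega) h
    have c3 : ∀ {Q : Type} [Finite Q] {op : Q → Q → Q}, IsKei op →
        (∀ x y, tw op (2 * (5 * (q * q2))) x y = (x, y)) → ∀ b : Q,
        num op b E.1 = num op b E'.1 := by
      intro Q _ op hop hper b
      refine caseA (p := 3) ?_ ⟨_, rfl⟩ (by omega) M (hMp 3 (by norm_num) (by norm_num)) hN S S'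
        hn3 hrel E E' ⟨u, v, a, hE, hE'⟩ hop hper b
      intro h
      have h5 : Nat.Prime 3 := by norm_num
      rcases (Nat.Prime.dvd_mul h5).1 h with h | h
      · omega
      rcases (Nat.Prime.dvd_mul h5).1 h with h | h
      · omega
      rcases (Nat.Prime.dvd_mul h5).1 h with h | h
      · exact hcop 3 q h5 hq (by omega) h
      · exact hcop 3 q2 h5 hq2 (by omega) h
    have d1 : ∀ r : ℕ, q ∣ 2 * (r * (q * q2)) := fun r => ⟨2 * (r * q2), by ring⟩
    have d2 : ∀ r : ℕ, q2 ∣ 2 * (r * (q * q2)) := fun r => ⟨2 * (r * q), by ring⟩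
    have d3 : ∀ r : ℕ, r ∣ 2 * (r * (q * q2)) := fun r => ⟨2 * (q * q2), by ring⟩
    refine ⟨⟨?_, ?_, ?_, ?_⟩, ⟨?_, ?_, ?_, ?_⟩⟩
    · rw [← c5 kei_fox (fox_period (d3 3))]; exact hG.1.hp
    · rw [← c5 kei_fox (fox_period (d1 3))]; exact hG.1.hq
    · rw [← c5 (kei_cop ψ3') (cop_period ψ3' hψ3' (d3 3) (d2 3))]; exact hG.1.h2
    · rw [← c5 (kei_cop ψ3) (cop_period ψ3 hψ3 (d3 3) (d1 3))]; exact hG.1.hl
    · rw [← c3 kei_fox (fox_period (d3 5))]; exact hG.2.hp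
    · rw [← c3 kei_fox (fox_period (d1 5))]; exact hG.2.hq
    · rw [← c3 (kei_cop ψ5') (cop_period ψ5' hψ5' (d3 5) (d2 5))]; exact hG.2.h2
    · rw [← c3 (kei_cop ψ5) (cop_period ψ5 hψ5 (d3 5) (d1 5))]; exact hG.2.hl
  -- the property is constant along equivalence under M'
  have chain : ∀ E E' : Diagram, EqM M' E E' →
      ((Good ψ3 ψ3' n E.1 ∧ Good ψ5 ψ5' n E.1) ↔ (Good ψ3 ψ3' n E'.1 ∧ Good ψ5 ψ5' n E'.1)) := by
    intro E E' h
    induction h with
    | rel E E' h =>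
      rcases h with h | h
      · have hr : ∀ {Q : Type} [Finite Q] {op : Q → Q → Q}, IsKei op → ∀ b : Q,
            num op b E.1 = num op b E'.1 := fun hop b =>
          num_reid hop b (Relation.EqvGen.rel _ _ h)
        have e1 := hr (kei_fox (R := ZMod 3)) 0
        have e2 := hr (kei_fox (R := ZMod q)) 0
        have e3 := hr (kei_fox (R := ZMod 5)) 0
        have e4 := hr (kei_cop ψ3) (0, 0)
        have e5 := hr (kei_cop ψ3') (0, 0)
        have e6 := hr (kei_cop ψ5) (0, 0)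
        have e7 := hr (kei_cop ψ5') (0, 0)
        constructor
        · rintro ⟨⟨a1, a2, a3, a4⟩, ⟨b1, b2, b3, b4⟩⟩
          exact ⟨⟨e1 ▸ a1, e2 ▸ a2, e5 ▸ a3, e4 ▸ a4⟩, ⟨e3 ▸ b1, e2 ▸ b2, e7 ▸ b3, e6 ▸ b4⟩⟩
        · rintro ⟨⟨a1, a2, a3, a4⟩, ⟨b1, b2, b3, b4⟩⟩
          exact ⟨⟨e1 ▸ a1, e2 ▸ a2, e5 ▸ a3, e4 ▸ a4⟩, ⟨e3 ▸ b1, e2 ▸ b2, e7 ▸ b3, e6 ▸ b4⟩⟩
      · obtain ⟨S, S', hSS, u, v, a, hE, hE'⟩ := h
        have hrel : ∀ F F' : Diagram,
            (∃ u v a, F.1 = u ++ sh a S.1 ++ v ∧ F'.1 = u ++ sh a S'.1 ++ v) → EqM M F F' := by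
          rintro F F' ⟨u, v, a, hF, hF'⟩
          exact (hEq F F').2 (Relation.EqvGen.rel _ _ (Or.inr ⟨S, S', hSS, u, v, a, hF, hF'⟩))
        have hrel' : ∀ F F' : Diagram,
            (∃ u v a, F.1 = u ++ sh a S'.1 ++ v ∧ F'.1 = u ++ sh a S.1 ++ v) → EqM M F F' := by
          rintro F F' ⟨u, v, a, hF, hF'⟩
          exact Relation.EqvGen.symm _ _ (hrel F' F ⟨u, v, a, hF', hF⟩)
        exact ⟨key S S' (hA1 S S' hSS).1 hrel E E' ⟨u, v, a, hE, hE'⟩,
          key S' S (hA1 S S' hSS).2 hrel' E' E ⟨u, v, a, hE', hE⟩⟩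
    | refl E => exact Iff.rfl
    | symm E E' _ ih => exact ih.symm
    | trans E E' E'' _ _ ih1 ih2 => exact ih1.trans ih2
  -- the two diagrams are equivalent under M, hence under M'
  have hDD : EqM M D D' := by
    have hshD : (D.1 : List Ev) = [] ++ sh 0 (theMove n).1.1 ++ Xn m n := by
      simp [D, sh, theMove]
    have hshD' : (D'.1 : List Ev) = [] ++ sh 0 (theMove n).2.1 ++ Xn m n := by
      simp [D', sh, theMove]
    exact Relation.EqvGen.rel _ _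
      (Or.inr ⟨(theMove n).1, (theMove n).2, rfl, [], Xn m n, 0, hshD, hshD'⟩)
  have hfin := (chain D D' ((hEq D D').1 hDD)).1 ⟨hG3, hG5⟩
  -- but the second diagram contains a local knot
  have hcon : ¬ Pers 3 1 (Tn 1) := by
    refine good_not_pers (N := 1) (n := n) (u := []) (v := List.replicate n ⟨.cup, 1⟩ ++ Xn m n)
      (a := 0) (by norm_num; omega) (by norm_num; omega) ψ3 ψ3' le_rfl (by omega) (typed_Tn 1)
      (he3 (1, Tn 1) (Or.inl rfl)) ?_ ?_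
    · have := D'.2.typed
      simpa [D', Tn', sh] using this
    · have := hfin.1
      simpa [D', Tn', sh] using this
  exact hcon (pers_Tn (by norm_num) (by norm_num) 1)

/-- There is a skein invariant of degree `N + 1` which is not of degree `N`. -/
theorem main_degree {N : ℕ} (hN : 1 ≤ N) :
    HasDegree (N + 1) (skeinInv ({theMove N} : Set _)) ∧
      ¬ HasDegree N (skeinInv ({theMove N} : Set _)) := by
  refine ⟨degree_skein (Set.finite_singleton _), ?_⟩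
  intro h
  obtain ⟨M', hM', hE⟩ := (degree_iff _).1 h
  exact main hN le_rfl M' hM' hE

end Pool.Agent.Work.MP_3edda8_gt
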