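import Pool.Agent.Work.MP_3edda8_gt.SK.Glue
import Pool.Agent.Work.MP_3edda8_gt.SK.Keis

/-!
# Persistent tangles and insertions of twist regions: definitions (fixed)
-/

namespace Pool.Agent.Work.MP_3edda8_gt

variable {Q : Type}

/-- the tangle `T` (with `2 * n` upper end points) has a non-trivial `p`-colouring which vanishes
on the boundary -/
def Pers (p n : ℕ) (T : List Ev) : Prop :=
  ∃ c : ℕ → ZMod p, ok fox T (fun _ => 0) c ∧ (∀ j < 2 * n, run fox T (fun _ => 0) c j = 0) ∧
    ∃ t < cups T, c t ≠ 0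

/-- `w'` arises from `w` by inserting `m` positive crossings at one place -/
def InsStep (m : ℕ) (w w' : List Ev) : Prop :=
  ∃ w1 w2 i, w = w1 ++ w2 ∧ w' = w1 ++ List.replicate m ⟨.pos, i⟩ ++ w2

/-- several insertions -/
def Ins (m : ℕ) : List Ev → List Ev → Prop := Relation.ReflTransGen (InsStep m)

/-- lifts of a `p`-colouring `ρ` of the tangle `S` to the kei `cop ψ`, with second components
zero on the boundary -/
def liftSet {p q : ℕ} (ψ : AddChar (ZMod p) (ZMod q)) (n : ℕ) (S : List Ev) (ρ : ℕ → ZMod p) :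
    Set (ℕ → ZMod q) :=
  {d | (∀ t, cups S ≤ t → d t = 0) ∧ ok (cop ψ) S (fun _ => (0, 0)) (fun t => (ρ t, d t)) ∧
    ∀ j < 2 * n, (run (cop ψ) S (fun _ => (0, 0)) (fun t => (ρ t, d t)) j).2 = 0}

end Pool.Agent.Work.MP_3edda8_gt
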