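import Pool.Agent.Work.MP_3edda8_gt.SK.PersDef
import Pool.Agent.Work.MP_3edda8_gt.SK.Lin

/-!
MODULE Pow (S-M): the number of lifts is a power of `q`; it depends only on finitely many colours.

PROOF.
* `lift_pow`: the set
  `{g : Fin (cups S) → ZMod q | (fun t => if h : t < cups S then g ⟨t, h⟩ else 0) ∈ liftSet ..}`
  is (the carrier of) an `AddSubgroup` of `Fin (cups S) → ZMod q` (closed under linear
  combinations: `cop_ok_lin`, `cop_run_lin`, base state `(0, 0)`; zero: `cop_zero_ok` needs `ok`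
  of `ρ`, so: if `liftSet` is empty... it is not assumed that `ρ` is a colouring; therefore the
  statement has the hypothesis `hne`.  If `liftSet` is not empty then `ok fox S 0 ρ` by
  `cop_ok_fst` and `0` is in the set by `cop_zero_ok`, `cop_zero_run`).  Its cardinality divides
  `q ^ cups S` (`AddSubgroup.card_addSubgroup_dvd_card`, `Nat.card_fun` ..), so it is `q ^ e` with
  `e ≤ cups S` (`Nat.dvd_prime_pow`).  The cardinality equals `(liftSet ..).ncard` (bijection).
* `lift_congr`: `ok_congr`, `run_congr`.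
-/

namespace Pool.Agent.Work.MP_3edda8_gt

private def ext {q : ℕ} (N : ℕ) (g : Fin N → ZMod q) : ℕ → ZMod q :=
  fun t => if h : t < N then g ⟨t, h⟩ else 0

private theorem ext_inj {q : ℕ} (N : ℕ) : Function.Injective (ext (q := q) N) := by
  intro g g' h
  funext i
  have := congrFun h i.1
  simpa [ext, i.2] using this

private theorem lift_lin {p q : ℕ} (ψ : AddChar (ZMod p) (ZMod q)) (n : ℕ)
    (S : List Ev) (ρ : ℕ → ZMod p) (d d' : ℕ → ZMod q) (a b : ZMod q)
    (h : d ∈ liftSet ψ n S ρ) (h' : d' ∈ liftSet ψ n S ρ) :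
    (fun t => a * d t + b * d' t) ∈ liftSet ψ n S ρ := by
  obtain ⟨h1, h2, h3⟩ := h
  obtain ⟨h1', h2', h3'⟩ := h'
  refine ⟨fun t ht => ?_, ?_, fun j hj => ?_⟩
  · simp only [h1 t ht, h1' t ht, mul_zero, add_zero]
  · have := cop_ok_lin ψ S (fun _ => 0) ρ (fun _ => 0) (fun _ => 0) d d' a b h2 h2'
    simpa only [mul_zero, add_zero] using this
  · have := cop_run_lin ψ S (fun _ => 0) ρ (fun _ => 0) (fun _ => 0) d d' a b j
    simp only [mul_zero, add_zero] at this
    rw [this, h3 j hj, h3' j hj, mul_zero, mul_zero, add_zero]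

private theorem zero_mem' {p q : ℕ} (ψ : AddChar (ZMod p) (ZMod q)) (n : ℕ)
    (S : List Ev) (ρ : ℕ → ZMod p) (h : ok fox S (fun _ => 0) ρ) :
    (fun _ => 0) ∈ liftSet ψ n S ρ := by
  refine ⟨fun _ _ => rfl, ?_, fun j _ => ?_⟩
  · exact (cop_zero_ok ψ S (fun _ => 0) ρ).2 h
  · rw [cop_zero_run ψ S (fun _ => 0) ρ]

theorem lift_pow {p q : ℕ} [Fact q.Prime] (ψ : AddChar (ZMod p) (ZMod q)) (n : ℕ)
    (S : List Ev) (ρ : ℕ → ZMod p) (hne : (liftSet ψ n S ρ).Nonempty) :
    ∃ e ≤ cups S, (liftSet ψ n S ρ).ncard = q ^ e := by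
  obtain ⟨d0, hd0⟩ := hne
  have h0 : ok fox S (fun _ => 0) ρ := cop_ok_fst ψ S _ _ hd0.2.1
  have hz := zero_mem' ψ n S ρ h0
  let H : AddSubgroup (Fin (cups S) → ZMod q) :=
    { carrier := {g | ext (cups S) g ∈ liftSet ψ n S ρ}
      add_mem' := by
        intro g g' hg hg'
        have := lift_lin ψ n S ρ _ _ 1 1 hg hg'
        have e : ext (cups S) (g + g') =
            fun t => 1 * ext (cups S) g t + 1 * ext (cups S) g' t := by
          funext t
          simp only [ext, Pi.add_apply, one_mul]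
          split_ifs <;> simp
        rw [Set.mem_ofPred_eq, e]
        exact this
      zero_mem' := by
        have e : ext (cups S) (0 : Fin (cups S) → ZMod q) = fun _ => 0 := by
          funext t
          simp [ext]
        rw [Set.mem_ofPred_eq, e]
        exact hz
      neg_mem' := by
        intro g hg
        have := lift_lin ψ n S ρ _ _ (-1) 0 hg hg
        have e : ext (cups S) (-g) =
            fun t => (-1) * ext (cups S) g t + 0 * ext (cups S) g t := by
          funext t
          simp only [ext, Pi.neg_apply]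
          split_ifs <;> simp
        rw [Set.mem_ofPred_eq, e]
        exact this }
  have e1 : liftSet ψ n S ρ = ext (cups S) '' (H : Set (Fin (cups S) → ZMod q)) := by
    ext d
    constructor
    · intro hd
      have e : ext (cups S) (fun i : Fin (cups S) => d i) = d := by
        funext t
        simp only [ext]
        split_ifs with ht
        · rfl
        · exact (hd.1 t (by omega)).symm
      refine ⟨fun i => d i, ?_, e⟩
      change ext (cups S) (fun i : Fin (cups S) => d i) ∈ liftSet ψ n S ρ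
      rw [e]
      exact hd
    · rintro ⟨g, hg, rfl⟩
      exact hg
  have hq : Nat.card (Fin (cups S) → ZMod q) = q ^ cups S := by
    rw [Nat.card_fun, Nat.card_fin]
    simp
  have e2 : (liftSet ψ n S ρ).ncard = Nat.card H := by
    rw [e1, Set.ncard_image_of_injective _ (ext_inj _)]
    rfl
  have e3 : Nat.card H ∣ q ^ cups S := by
    rw [← hq]
    exact AddSubgroup.card_addSubgroup_dvd_card H
  rw [e2]
  exact (Nat.dvd_prime_pow Fact.out).1 e3

theorem lift_nonempty {p q : ℕ} (ψ : AddChar (ZMod p) (ZMod q)) (n : ℕ)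
    (S : List Ev) (ρ : ℕ → ZMod p) (h : ok fox S (fun _ => 0) ρ) :
    (liftSet ψ n S ρ).Nonempty :=
  ⟨_, zero_mem' ψ n S ρ h⟩

theorem lift_congr {p q : ℕ} (ψ : AddChar (ZMod p) (ZMod q)) (n : ℕ)
    (S : List Ev) (ρ ρ' : ℕ → ZMod p) (h : ∀ t < cups S, ρ t = ρ' t) :
    liftSet ψ n S ρ = liftSet ψ n S ρ' := by
  ext d
  have e1 : ok (cop ψ) S (fun _ => (0, 0)) (fun t => (ρ t, d t)) ↔
      ok (cop ψ) S (fun _ => (0, 0)) (fun t => (ρ' t, d t)) :=
    ok_congr _ _ _ _ _ fun t ht => by rw [h t ht]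
  have e2 : run (cop ψ) S (fun _ => (0, 0)) (fun t => (ρ t, d t)) =
      run (cop ψ) S (fun _ => (0, 0)) (fun t => (ρ' t, d t)) :=
    run_congr _ _ _ _ _ fun t ht => by rw [h t ht]
  simp only [liftSet, Set.mem_ofPred_eq]
  rw [e1, e2]

end Pool.Agent.Work.MP_3edda8_gt
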