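import Pool.Agent.Work.MP_3edda8_gt.SK.CaseA

/-!
MODULE Quo (S-M): passing from knots to diagrams.

PROOF.
* `skein_iff`: `skeinInv M D.knot = skeinInv M D'.knot` iff `EqvGen (App M) D.knot D'.knot`
  (`Quot.eqvGen_exact`, `Quot.eqvGen_sound`).  From this to `EqM M D D'`: for all knots
  `K, K'` with `EqvGen (App M) K K'` and all diagrams `D, D'` of `K, K'`: `EqM M D D'`
  (induction on `EqvGen`; for `refl` and in general: two diagrams of the same knot are related by
  `EqvGen ReidStep` (`Quot.eqvGen_exact`), hence by `EqM M`; for `symm` and `trans` choose a diagram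
  of the middle knot, `Quot.exists_rep`).  Backwards: induction on `EqM`: a local move gives the
  same knot, an `AppDiag` step gives `App`.
* `identified_iff`: two invariants are identified iff they have the same kernel:
  `Identified I I' ↔ ∀ K K', I K = I K' ↔ I' K = I' K'`.
  (→) bijectivity of `f` on `Set.range I'`.  (←) define `f ⟨I' K, _⟩ = ⟨I K, _⟩` by choice.
* `degree_iff`: combine; every knot has a diagram (`Quot.exists_rep`).
-/

namespace Pool.Agent.Work.MP_3edda8_gt

private theorem eqM_of_knot {n : ℕ} (M : Set (Tangle n × Tangle n)) {D D' : Diagram}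
    (h : D.knot = D'.knot) : EqM M D D' := by
  have h1 : Relation.EqvGen ReidStep D D' := Quot.eqvGen_exact h
  exact Relation.EqvGen.mono (fun _ _ h2 => Or.inl h2) _ _ h1

private theorem eqM_of_app {n : ℕ} (M : Set (Tangle n × Tangle n)) {K K' : Knot}
    (h : Relation.EqvGen (App M) K K') :
    ∀ D D' : Diagram, D.knot = K → D'.knot = K' → EqM M D D' := by
  induction h with
  | rel K K' h =>
    intro D D' hD hD'
    obtain ⟨E, E', hE, hE', hA⟩ := h
    have h1 : EqM M D E := eqM_of_knot M (hD.trans hE.symm)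
    have h2 : EqM M E E' := Relation.EqvGen.rel _ _ (Or.inr hA)
    have h3 : EqM M E' D' := eqM_of_knot M (hE'.trans hD'.symm)
    exact Relation.EqvGen.trans _ _ _ h1 (Relation.EqvGen.trans _ _ _ h2 h3)
  | refl K =>
    intro D D' hD hD'
    exact eqM_of_knot M (hD.trans hD'.symm)
  | symm K K' _ ih =>
    intro D D' hD hD'
    exact Relation.EqvGen.symm _ _ (ih D' D hD' hD)
  | trans K K' K'' _ _ ih1 ih2 =>
    intro D D' hD hD'
    obtain ⟨E, hE⟩ := Quot.exists_rep K'
    exact Relation.EqvGen.trans _ _ _ (ih1 D E hD hE) (ih2 E D' hE hD')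

theorem skein_iff {n : ℕ} (M : Set (Tangle n × Tangle n)) (D D' : Diagram) :
    skeinInv M D.knot = skeinInv M D'.knot ↔ EqM M D D' := by
  constructor
  · intro h
    exact eqM_of_app M (Quot.eqvGen_exact h) D D' rfl rfl
  · intro h
    induction h with
    | rel D D' h =>
      rcases h with h | h
      · have : D.knot = D'.knot := Quot.sound h
        rw [this]
      · exact Quot.sound ⟨D, D', rfl, rfl, h⟩
    | refl D => rfl
    | symm D D' _ ih => exact ih.symm
    | trans D D' D'' _ _ ih1 ih2 => exact ih1.trans ih2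

theorem identified_iff {X X' : Type} (I : Knot → X) (I' : Knot → X') :
    Identified I I' ↔ ∀ K K', I K = I K' ↔ I' K = I' K' := by
  constructor
  · rintro ⟨f, hf, h⟩ K K'
    rw [h K, h K']
    constructor
    · intro h1
      have h2 := hf.1 (Subtype.ext h1)
      exact congrArg Subtype.val h2
    · intro h1
      have h2 : (⟨I' K, K, rfl⟩ : Set.range I') = ⟨I' K', K', rfl⟩ := Subtype.ext h1
      rw [h2]
  · intro h
    refine ⟨fun y => ⟨I y.2.choose, y.2.choose, rfl⟩, ⟨?_, ?_⟩, ?_⟩
    · intro y y' hy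
      have h1 : I y.2.choose = I y'.2.choose := congrArg Subtype.val hy
      have h2 := (h _ _).1 h1
      rw [y.2.choose_spec, y'.2.choose_spec] at h2
      exact Subtype.ext h2
    · rintro ⟨x, K, rfl⟩
      refine ⟨⟨I' K, K, rfl⟩, Subtype.ext ?_⟩
      have hs : I' (⟨I' K, K, rfl⟩ : Set.range I').2.choose = I' K :=
        (⟨I' K, K, rfl⟩ : Set.range I').2.choose_spec
      exact (h _ _).2 hs
    · intro K
      have hs : I' (⟨I' K, K, rfl⟩ : Set.range I').2.choose = I' K :=
        (⟨I' K, K, rfl⟩ : Set.range I').2.choose_spec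
      exact ((h _ _).2 hs).symm

theorem degree_skein {n : ℕ} {M : Set (Tangle n × Tangle n)} (hM : M.Finite) :
    HasDegree n (skeinInv M) :=
  ⟨M, hM, (identified_iff _ _).2 fun _ _ => Iff.rfl⟩

theorem degree_iff {n N : ℕ} (M : Set (Tangle n × Tangle n)) :
    HasDegree N (skeinInv M) ↔ ∃ M' : Set (Tangle N × Tangle N), M'.Finite ∧
      ∀ D D' : Diagram, EqM M D D' ↔ EqM M' D D' := by
  constructor
  · rintro ⟨M', hM', h⟩
    refine ⟨M', hM', fun D D' => ?_⟩
    rw [← skein_iff, ← skein_iff]
    exact (identified_iff _ _).1 h _ _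
  · rintro ⟨M', hM', h⟩
    refine ⟨M', hM', (identified_iff _ _).2 fun K K' => ?_⟩
    obtain ⟨D, rfl⟩ := Quot.exists_rep K
    obtain ⟨D', rfl⟩ := Quot.exists_rep K'
    have h1 := h D D'
    rw [← skein_iff, ← skein_iff] at h1
    exact h1

end Pool.Agent.Work.MP_3edda8_gt
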