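import Pool.Agent.Work.MP_3edda8_gt.SK.PersDef

/-!
# The tangles of the counterexample (fixed)
-/

namespace Pool.Agent.Work.MP_3edda8_gt

/-- a column of the flower tangle: a new strand is twisted with the hub strand (number `1`) by
15 half twists -/
def colW : List Ev := ⟨.cup, 2⟩ :: List.replicate 15 ⟨.pos, 1⟩

/-- the flower tangle with `n` columns, from `0` to `2 * n` strands -/
def Tn (n : ℕ) : List Ev := ⟨.cup, 0⟩ :: ((List.replicate n colW).flatten ++ [⟨.cap, 0⟩])

/-- the tangle with a local torus knot of type `(2, 15)` on one strand and no other crossing, from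
`0` to `2 * (n + 1)` strands -/
def Tn' (n : ℕ) : List Ev := Tn 1 ++ List.replicate n ⟨.cup, 1⟩

/-- one step of the closing chain: `m` half twists of the strands `1` and `2`, then a cap -/
def chW (m : ℕ) : List Ev := List.replicate m ⟨.pos, 1⟩ ++ [⟨.cap, 0⟩]

/-- the closing chain, from `2 * (n + 1)` to `0` strands -/
def Xn (m n : ℕ) : List Ev := (List.replicate n (chW m)).flatten ++ [⟨.cap, 0⟩]

end Pool.Agent.Work.MP_3edda8_gt
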