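import Pool.Agent.Work.MP_3edda8_gt.SK.TDef
import Pool.Agent.Work.MP_3edda8_gt.SK.KnotIff

/-!
MODULE TTyped (S-M): the words are typed; the closures are knot diagrams.

PROOF.  Typing: `typed_append`; `Typed (List.replicate m ⟨.pos, 1⟩) W W` for `3 ≤ W`; columns:
`Typed (List.replicate n colW).flatten 2 (2 + 2 * n)` (induction, from `W ≥ 2` to `W + 2 n`);
chain: `Typed (List.replicate n (chW m)).flatten (2 * (n + 1)) 2`.
Knots: `isKnot_of`.  Colourings by the trivial kei (`run_tw`, `ok_tw`, `tri_odd` for 15,
`tri_period` for `m`).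
* `Tn (n+1) ++ Xn m n`: write states by the lists of their first entries.  Let `r = c 0`,
  `y_j = c j` (`1 ≤ j ≤ n + 1`).  After the first cup: `r, r`.  Column `j` turns `r, h, L` into
  `r, y_j, h, y_j, L` (the 15 half twists exchange the strands `1` and `2`), so `h_j = y_j`,
  `h_0 = r`; after all columns: `r, y_{n+1}, y_n, y_{n+1}, y_{n-1}, y_n, ..., y_1, y_2, r, y_1`.
  The cap at `0` gives `r = y_{n+1}`.  The chain (twists act trivially) joins the strands
  `0, 1`, `2, 3`, ...: `h_{j-1} = y_j`, that is `y_n = y_{n+1}`, ..., `r = y_1`.  So all are equal.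
* `Tn' n ++ Xn m n`: after `Tn 1` with `r = c 0`, `y = c 1`: strands `r, y, r, y` before the cap,
  so `r = y`, then `y, r`; the cups `c 2, ...` at `1` give
  `r, c_{n+1}, c_{n+1}, ..., c_2, c_2, r`; the chain joins `0, 1`, `2, 3`, ..: all equal.
(It may be convenient to prove the chain part first: for a state whose first `2 (n + 1)` entries
are `x_0, x_1, ..., x_{2n+1}`: `ok tri (Xn m n) s c ↔ ∀ j ≤ n, s (2 * j) = s (2 * j + 1)`.)
-/

namespace Pool.Agent.Work.MP_3edda8_gt

private theorem tt_rep (m i W : ℕ) (h : i + 2 ≤ W) :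
    Typed (List.replicate m (⟨.pos, i⟩ : Ev)) W W := by
  induction m with
  | zero => rfl
  | succ m ih =>
    rw [List.replicate_succ]
    refine ⟨h, ?_⟩
    have e : W - Kind.pos.inp + Kind.pos.out = W := by
      simp only [Kind.inp, Kind.out]
      omega
    simp only [e]
    exact ih

private theorem tt_col (W : ℕ) (h : 2 ≤ W) : Typed colW W (W + 2) := by
  refine ⟨h, ?_⟩
  exact tt_rep 15 1 (W + 2) (by omega)

private theorem tt_cols (n W : ℕ) (h : 2 ≤ W) :
    Typed (List.replicate n colW).flatten W (W + 2 * n) := by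
  induction n generalizing W with
  | zero => rfl
  | succ n ih =>
    rw [List.replicate_succ, List.flatten_cons, typed_append]
    refine ⟨W + 2, tt_col W h, ?_⟩
    have := ih (W + 2) (by omega)
    have e : W + 2 + 2 * n = W + 2 * (n + 1) := by ring
    rwa [e] at this

private theorem tt_cups (n W : ℕ) (h : 1 ≤ W) :
    Typed (List.replicate n (⟨.cup, 1⟩ : Ev)) W (W + 2 * n) := by
  induction n generalizing W with
  | zero => rfl
  | succ n ih =>
    rw [List.replicate_succ]
    refine ⟨h, ?_⟩
    have := ih (W + 2) (by omega)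
    have e : W + 2 + 2 * n = W + 2 * (n + 1) := by ring
    rw [e] at this
    exact this

private theorem tt_ch (m W : ℕ) (h : 1 ≤ W) : Typed (chW m) (W + 2) W := by
  unfold chW
  rw [typed_append]
  refine ⟨W + 2, tt_rep m 1 (W + 2) (by omega), ?_, ?_⟩
  · simp only [Kind.inp]
    omega
  · show W + 2 - Kind.cap.inp + Kind.cap.out = W
    simp only [Kind.inp, Kind.out]
    omega

private theorem tt_chs (m n : ℕ) :
    Typed (List.replicate n (chW m)).flatten (2 * (n + 1)) 2 := by
  induction n with
  | zero => rfl
  | succ n ih =>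
    rw [List.replicate_succ, List.flatten_cons, typed_append]
    refine ⟨2 * (n + 1), ?_, ih⟩
    exact tt_ch m (2 * (n + 1)) (by omega)

theorem typed_Tn (n : ℕ) : Typed (Tn n) 0 (2 * n) := by
  refine ⟨le_refl 0, ?_⟩
  show Typed _ 2 _
  rw [typed_append]
  refine ⟨2 + 2 * n, tt_cols n 2 (le_refl 2), ?_, ?_⟩
  · simp only [Kind.inp]
    omega
  · show 2 + 2 * n - Kind.cap.inp + Kind.cap.out = 2 * n
    simp only [Kind.inp, Kind.out]
    omega

theorem typed_Tn' (n : ℕ) : Typed (Tn' n) 0 (2 * (n + 1)) := by
  unfold Tn'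
  rw [typed_append]
  refine ⟨2, typed_Tn 1, ?_⟩
  have := tt_cups n 2 (by omega)
  have e : 2 + 2 * n = 2 * (n + 1) := by ring
  rwa [e] at this

theorem typed_Xn (m n : ℕ) : Typed (Xn m n) (2 * (n + 1)) 0 := by
  unfold Xn
  rw [typed_append]
  exact ⟨2, tt_chs m n, le_refl 2, rfl⟩

private theorem tri_rep {Q : Type} {m : ℕ} (hm : 2 ∣ m) (i : ℕ) (s c : ℕ → Q) :
    run tri (List.replicate m ⟨.pos, i⟩) s c = s := by
  rw [run_tw]
  funext j
  rw [tri_period hm]
  by_cases h1 : j = i
  · rw [if_pos h1, h1]
  · rw [if_neg h1]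
    by_cases h2 : j = i + 1
    · rw [if_pos h2, h2]
    · rw [if_neg h2]

private theorem ch_ok {Q : Type} {m : ℕ} (hm : 2 ∣ m) (s c : ℕ → Q) :
    (ok tri (chW m) s c ↔ s 0 = s 1) ∧ run tri (chW m) s c = fun j => s (j + 2) := by
  unfold chW
  rw [ok_append, run_append, tri_rep hm]
  refine ⟨⟨fun h => h.2.1, fun h => ⟨ok_tw tri m 1 s c, h, trivial⟩⟩, ?_⟩
  funext j
  rfl

private theorem chain_ok {Q : Type} {m : ℕ} (hm : 2 ∣ m) (n : ℕ) (s c : ℕ → Q)
    (h : ok tri (Xn m n) s c) : ∀ j ≤ n, s (2 * j) = s (2 * j + 1) := by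
  induction n generalizing s c with
  | zero =>
    intro j hj
    obtain rfl : j = 0 := by omega
    exact h.1
  | succ n ih =>
    have e : Xn m (n + 1) = chW m ++ Xn m n := by
      unfold Xn
      rw [List.replicate_succ, List.flatten_cons, List.append_assoc]
    rw [e, ok_append, (ch_ok hm s c).2] at h
    have h1 := (ch_ok hm s c).1.1 h.1
    have h2 := ih _ _ h.2
    intro j hj
    rcases j with _ | j
    · exact h1
    · have := h2 j (by omega)
      have e1 : 2 * (j + 1) = 2 * j + 2 := by ring
      have e2 : 2 * (j + 1) + 1 = 2 * j + 1 + 2 := by ring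
      rw [e1, this]

private theorem col_run {Q : Type} (s c : ℕ → Q) :
    run tri colW s c 1 = c 0 ∧ run tri colW s c 2 = s 1 ∧ run tri colW s c 3 = c 0 ∧
      ∀ j, run tri colW s c (4 + j) = s (2 + j) := by
  have e : run tri colW s c =
      run tri (List.replicate 15 ⟨.pos, 1⟩) (ins2 2 (c 0) s) (fun n => c (n + 1)) := rfl
  have h15 : ¬ 2 ∣ 15 := by decide
  rw [e, run_tw, tri_odd h15]
  refine ⟨?_, ?_, ?_, fun j => ?_⟩
  · simp [ins2]
  · simp [ins2]
  · simp [ins2]
  · have h1 : ¬ (4 + j = 1) := by omega
    have h2 : ¬ (4 + j = 1 + 1) := by omega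
    simp only [if_neg h1, if_neg h2, ins2]
    rw [if_neg (by omega), if_neg (by omega)]
    congr 1
    omega

private theorem cups_col : cups colW = 1 := rfl

private theorem cols_shift {Q : Type} (n : ℕ) (s c : ℕ → Q) (j : ℕ) :
    run tri (List.replicate n colW).flatten s c (2 * n + 2 + j) = s (2 + j) := by
  induction n generalizing s c j with
  | zero =>
    show s (2 * 0 + 2 + j) = _
    congr 1
  | succ n ih =>
    rw [List.replicate_succ, List.flatten_cons, run_append]
    have e : 2 * (n + 1) + 2 + j = 2 * n + 2 + (2 + j) := by ring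
    have e3 : 2 + (2 + j) = 4 + j := by ring
    rw [e, ih, e3, (col_run s c).2.2.2]

private theorem cols_const {Q : Type} (n : ℕ) (s c : ℕ → Q)
    (h : ∀ j < n, run tri (List.replicate n colW).flatten s c (2 * j + 2) =
      run tri (List.replicate n colW).flatten s c (2 * j + 3)) : ∀ k < n, c k = s 1 := by
  induction n generalizing s c with
  | zero =>
    intro k hk
    omega
  | succ n ih =>
    rw [List.replicate_succ, List.flatten_cons, run_append] at h
    obtain ⟨e1, e2, e3, e4⟩ := col_run s c
    have h1 := ih _ _ (fun j hj => h j (by omega))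
    have h2 := h n (by omega)
    have h3 := cols_shift n (run tri colW s c) (fun n => c (cups colW + n)) 0
    have h4 := cols_shift n (run tri colW s c) (fun n => c (cups colW + n)) 1
    have i1 : 2 * n + 2 + 0 = 2 * n + 2 := rfl
    have i2 : 2 * n + 2 + 1 = 2 * n + 3 := rfl
    rw [i1] at h3
    rw [i2] at h4
    rw [h3, h4] at h2
    have h5 : s 1 = c 0 := by
      have : run tri colW s c 2 = run tri colW s c 3 := h2
      rw [e2, e3] at this
      exact this
    intro k hk
    rcases k with _ | k
    · exact h5.symm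
    · have h6 := h1 k (by omega)
      rw [e1, cups_col] at h6
      rw [add_comm k 1, h6, h5]

theorem knot_K {m : ℕ} (hm : 2 ∣ m) (n : ℕ) : IsKnot (Tn (n + 1) ++ Xn m n) := by
  refine isKnot_of (typed_append.2 ⟨_, typed_Tn (n + 1), typed_Xn m n⟩) ?_ ?_
  · unfold Tn
    simp
  · intro c hc
    have hcups : cups (Tn (n + 1) ++ Xn m n) = n + 2 := by
      rw [cups_append]
      have e1 : ∀ k, cups (List.replicate k colW).flatten = k := by
        intro k
        induction k with
        | zero => rfl
        | succ k ih =>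
          rw [List.replicate_succ, List.flatten_cons, cups_append, ih, cups_col, add_comm]
      have e2 : ∀ k, cups (List.replicate k (chW m)).flatten = 0 := by
        intro k
        induction k with
        | zero => rfl
        | succ k ih =>
          rw [List.replicate_succ, List.flatten_cons, cups_append, ih]
          unfold chW
          rw [cups_append, cups_tw]
          rfl
      have e3 : cups (Xn m n) = 0 := by
        unfold Xn
        rw [cups_append, e2]
        rfl
      have e4 : cups (Tn (n + 1)) = n + 2 := by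
        unfold Tn
        show cups _ + 1 = _
        rw [cups_append, e1]
        rfl
      rw [e3, e4]
    rw [hcups]
    rw [ok_append] at hc
    have hX := chain_ok hm n _ _ hc.2
    have hrun : run tri (Tn (n + 1)) (fun _ => false) c =
        fun j => run tri (List.replicate (n + 1) colW).flatten (ins2 0 (c 0) (fun _ => false))
          (fun n => c (n + 1)) (j + 2) := by
      unfold Tn
      show run tri (_ ++ _) _ _ = _
      rw [run_append]
      rfl
    rw [hrun] at hX
    have h1 := cols_const (n + 1) (ins2 0 (c 0) (fun _ => false)) (fun n => c (n + 1))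
      (fun j hj => hX j (by omega))
    have h2 : ∀ k < n + 2, c k = c 0 := by
      intro k hk
      rcases k with _ | k
      · rfl
      · exact h1 k (by omega)
    intro k hk k' hk'
    rw [h2 k hk, h2 k' hk']

private theorem cup_shift {Q : Type} (n : ℕ) (s c : ℕ → Q) (j : ℕ) :
    run tri (List.replicate n ⟨.cup, 1⟩) s c (2 * n + 1 + j) = s (1 + j) := by
  induction n generalizing s c j with
  | zero =>
    show s (2 * 0 + 1 + j) = _
    congr 1
  | succ n ih =>
    rw [List.replicate_succ]
    show run tri (List.replicate n ⟨.cup, 1⟩) (ins2 1 (c 0) s) (fun n => c (n + 1)) _ = _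
    have e : 2 * (n + 1) + 1 + j = 2 * n + 1 + (2 + j) := by ring
    rw [e, ih]
    unfold ins2
    rw [if_neg (by omega), if_neg (by omega)]
    congr 1
    omega

private theorem cups_const {Q : Type} (n : ℕ) (s c : ℕ → Q)
    (h : ∀ j ≤ n, run tri (List.replicate n ⟨.cup, 1⟩) s c (2 * j) =
      run tri (List.replicate n ⟨.cup, 1⟩) s c (2 * j + 1)) :
    (∀ k < n, c k = s 0) ∧ s 1 = s 0 := by
  induction n generalizing s c with
  | zero => exact ⟨fun k hk => absurd hk (Nat.not_lt_zero k), (h 0 (le_refl 0)).symm⟩
  | succ n ih =>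
    rw [List.replicate_succ] at h
    have h' : ∀ j ≤ n + 1, run tri (List.replicate n ⟨.cup, 1⟩) (ins2 1 (c 0) s)
        (fun n => c (n + 1)) (2 * j) = run tri (List.replicate n ⟨.cup, 1⟩) (ins2 1 (c 0) s)
        (fun n => c (n + 1)) (2 * j + 1) := h
    obtain ⟨h1, h2⟩ := ih _ _ (fun j hj => h' j (by omega))
    have h3 := h' (n + 1) (le_refl _)
    have h4 := cup_shift n (ins2 1 (c 0) s) (fun n => c (n + 1)) 1
    have h5 := cup_shift n (ins2 1 (c 0) s) (fun n => c (n + 1)) 2
    have i1 : 2 * n + 1 + 1 = 2 * (n + 1) := by ring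
    have i2 : 2 * n + 1 + 2 = 2 * (n + 1) + 1 := by ring
    rw [i1] at h4
    rw [i2] at h5
    rw [h4, h5] at h3
    have j0 : ins2 1 (c 0) s 0 = s 0 := by simp [ins2]
    have j1 : ins2 1 (c 0) s 1 = c 0 := by simp [ins2]
    have j2 : ins2 1 (c 0) s (1 + 1) = c 0 := by simp [ins2]
    have j3 : ins2 1 (c 0) s (1 + 2) = s 1 := by simp [ins2]
    rw [j2, j3] at h3
    rw [j0, j1] at h2
    refine ⟨fun k hk => ?_, ?_⟩
    · rcases k with _ | k
      · exact h2
      · have := h1 k (by omega)
        rw [j0] at this
        exact this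
    · rw [← h3, h2]

theorem knot_K' {m : ℕ} (hm : 2 ∣ m) (n : ℕ) : IsKnot (Tn' n ++ Xn m n) := by
  refine isKnot_of (typed_append.2 ⟨_, typed_Tn' n, typed_Xn m n⟩) ?_ ?_
  · unfold Tn' Tn
    simp
  · intro c hc
    have hcups : cups (Tn' n ++ Xn m n) = n + 2 := by
      rw [cups_append]
      have e1 : ∀ k, cups (List.replicate k (⟨.cup, 1⟩ : Ev)) = k := by
        intro k
        induction k with
        | zero => rfl
        | succ k ih =>
          rw [List.replicate_succ]
          show cups _ + 1 = _
          rw [ih]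
      have e2 : ∀ k, cups (List.replicate k (chW m)).flatten = 0 := by
        intro k
        induction k with
        | zero => rfl
        | succ k ih =>
          rw [List.replicate_succ, List.flatten_cons, cups_append, ih]
          unfold chW
          rw [cups_append, cups_tw]
          rfl
      have e3 : cups (Xn m n) = 0 := by
        unfold Xn
        rw [cups_append, e2]
        rfl
      have e4 : cups (Tn' n) = n + 2 := by
        unfold Tn'
        rw [cups_append, e1]
        have : cups (Tn 1) = 2 := rfl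
        rw [this]
        ring
      rw [e3, e4]
    rw [hcups]
    rw [ok_append] at hc
    have hX := chain_ok hm n _ _ hc.2
    have hT1 : cups (Tn 1) = 2 := rfl
    unfold Tn' at hX
    rw [run_append, hT1] at hX
    obtain ⟨h1, h2⟩ := cups_const n _ _ hX
    have hs : run tri (Tn 1) (fun _ => false) c = fun j =>
        run tri colW (ins2 0 (c 0) (fun _ => false)) (fun n => c (n + 1)) (j + 2) := by
      have e : Tn 1 = ⟨.cup, 0⟩ :: (colW ++ [⟨.cap, 0⟩]) := rfl
      rw [e]
      show run tri (_ ++ _) _ _ = _
      rw [run_append]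
      rfl
    obtain ⟨-, e2, e3, -⟩ := col_run (ins2 0 (c 0) (fun _ => false)) (fun n => c (n + 1))
    have s0 : run tri (Tn 1) (fun _ => false) c 0 = c 0 := by
      rw [hs]
      show run tri colW _ _ 2 = _
      rw [e2]
      simp [ins2]
    have s1 : run tri (Tn 1) (fun _ => false) c 1 = c 1 := by
      rw [hs]
      show run tri colW _ _ 3 = _
      rw [e3]
    rw [s0] at h1 h2
    rw [s1] at h2
    have h3 : ∀ k < n + 2, c k = c 0 := by
      intro k hk
      rcases k with _ | k
      · rfl
      · rcases k with _ | k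
        · exact h2
        · have := h1 k (by omega)
          rw [← this]
          congr 1
          omega
    intro k hk k' hk'
    rw [h3 k hk, h3 k' hk']

end Pool.Agent.Work.MP_3edda8_gt
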