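import Pool.Agent.Work.MP_3edda8_gt.SK.ThinA

/-!
MODULE Thin (M): few lifts over a diagram containing a persistent tangle.

PROOF.
* `thin`: `Col (cop ψ) (0,0) K` is finite (`col_finite`).  Map it to
  `(Col fox (0 : ZMod p) K) × (Fin (2 N) → ZMod q)` by
  `g ↦ (fun n => (g n).1, fun j => (run (cop ψ) S (fun _ => (0,0)) (fun n => g (cups u + n)) j).2)`
  (`cop_ok_fst`).  The target has at most `p ^ 2 * q ^ (2 N)` elements.  Each fibre has at most `B`
  elements: fix `g'` in the fibre; for `g` in the fibre let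
  `D g = fun t => if t < cups S then (g (cups u + t)).2 - (g' (cups u + t)).2 else 0`; by
  `cop_ok_lin`, `cop_run_lin` (coefficients `1, -1`, on `S`, base state `(0,0)`; `ok` on `S` from
  `glue_iff`; `run_congr`, `ok_congr` for the colours `t ≥ cups S`) `D g` lies in
  `liftSet ψ N S (fun n => f (cups u + n))`, and `g ↦ D g` is injective on the fibre, because
  outside of `S` all `g` of the fibre agree with `g'` (`thinA`).  Counting: for instance
  `Finset.card_le_mul_card_image` or `Set.ncard` versions of it (bound of a finite set by number of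
  values times bound of the fibres).
* `lift_le`: for `d` in the lift set let `g n = (f n, repl (cups u) (cups S) (fun _ => 0) d n)`.
  `g ∈ Col (cop ψ) (0, 0) K`: `glue_iff` for `cop ψ`: on `u` the second components are `0`
  (`cop_zero_ok`, `cop_zero_run`; colours `n < cups u` by `ok_congr`), on `S`: `d` is in the lift
  set (`ok_congr`: on the cups of `S`, `g (cups u + t) = (f (cups u + t), d t)`), on `v`: the state
  before `v` has second components `0` (by the boundary condition of the lift set) and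
  `cop_zero_ok`; the first components are those of `f` (`cop_fst`, `cop_ok_fst` / `glue_iff` for
  `fox` and `f`; the state `insN ..` must be written as `fun j => (α j, 0)`).  The map `d ↦ g` is
  injective (`d t = 0` for `t ≥ cups S`), so `ncard (liftSet) ≤ num`.
-/

namespace Pool.Agent.Work.MP_3edda8_gt

private theorem th_fin (q C : ℕ) [NeZero q] :
    {d : ℕ → ZMod q | ∀ t, C ≤ t → d t = 0}.Finite := by
  refine (Set.finite_range (fun g : Fin C → ZMod q => fun n : ℕ =>
    if h : n < C then g ⟨n, h⟩ else 0)).subset ?_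
  intro d hd
  refine ⟨fun i => d i, ?_⟩
  funext n
  by_cases h : n < C
  · simp only [dif_pos h]
  · simp only [dif_neg h]
    exact (hd n (not_lt.1 h)).symm

private theorem th_card {α β : Type*} {X : Set α} (hX : X.Finite) {Y : Set β} (hY : Y.Finite)
    (π : α → β) (hπ : ∀ x ∈ X, π x ∈ Y) (B : ℕ) (hB : ∀ y ∈ Y, {x | x ∈ X ∧ π x = y}.ncard ≤ B) :
    X.ncard ≤ Y.ncard * B := by
  classical
  rw [Set.ncard_eq_toFinset_card X hX, Set.ncard_eq_toFinset_card Y hY, mul_comm]
  refine Finset.card_le_mul_card_image_of_maps_to (f := π) (fun x hx => ?_) B (fun y hy => ?_)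
  · rw [Set.Finite.mem_toFinset] at hx ⊢
    exact hπ x hx
  · rw [Set.Finite.mem_toFinset] at hy
    refine le_trans (le_of_eq ?_) (hB y hy)
    rw [← Set.ncard_coe_finset]
    congr 1
    ext x
    simp

private theorem th_fib {p q N : ℕ} [Fact p.Prime] [Fact q.Prime] (ψ : AddChar (ZMod p) (ZMod q))
    (hN : 1 ≤ N) {u S v : List Ev} {a : ℕ} (hS : Typed S 0 (2 * N))
    (hK : Typed (u ++ sh a S ++ v) 0 0) (hP : Pers p N S)
    (hp : num fox (0 : ZMod p) (u ++ sh a S ++ v) ≤ p ^ 2)
    (hq : num fox (0 : ZMod q) (u ++ sh a S ++ v) ≤ q) (f : ℕ → ZMod p)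
    (β : Fin (2 * N) → ZMod q) :
    {g | (g ∈ Col (cop ψ) (0, 0) (u ++ sh a S ++ v) ∧ (fun n => (g n).1) = f) ∧
      (fun j : Fin (2 * N) => (run (cop ψ) S (fun _ => (0, 0))
        (fun n => g (cups u + n)) j).2) = β}.ncard ≤
      (liftSet ψ N S (fun n => f (cups u + n))).ncard := by
  classical
  by_cases hne : ({g | (g ∈ Col (cop ψ) (0, 0) (u ++ sh a S ++ v) ∧ (fun n => (g n).1) = f) ∧
      (fun j : Fin (2 * N) => (run (cop ψ) S (fun _ => (0, 0))
        (fun n => g (cups u + n)) j).2) = β}).Nonempty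
  swap
  · rw [Set.not_nonempty_iff_eq_empty.1 hne, Set.ncard_empty]
    exact Nat.zero_le _
  obtain ⟨g', ⟨hg', hf'⟩, hβ'⟩ := hne
  have hf1 : ∀ n, (g' n).1 = f n := fun n => congrFun hf' n
  have hok : ∀ g : ℕ → ZMod p × ZMod q, g ∈ Col (cop ψ) (0, 0) (u ++ sh a S ++ v) →
      (∀ n, (g n).1 = f n) → ok (cop ψ) S (fun _ => ((0 : ZMod p), (0 : ZMod q)))
        (fun n => (f (cups u + n), (g (cups u + n)).2)) := by
    intro g hg hfg
    have h1 := ((glue_iff (cop ψ) hS a (fun _ => (0, 0)) (fun _ => (0, 0)) g).1 hg.2).2.1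
    have h2 : (fun n => (f (cups u + n), (g (cups u + n)).2)) = fun n => g (cups u + n) := by
      funext n
      exact Prod.ext (hfg _).symm rfl
    rw [h2]
    exact h1
  have e0 : (fun _ : ℕ => ((0 : ZMod p), (1 : ZMod q) * 0 + (-1) * 0)) = fun _ => (0, 0) := by
    funext _
    rw [mul_zero, mul_zero, add_zero]
  let D : (ℕ → ZMod p × ZMod q) → ℕ → ZMod q := fun g t =>
    if t < cups S then 1 * (g (cups u + t)).2 + (-1) * (g' (cups u + t)).2 else 0
  refine Set.ncard_le_ncard_of_injOn D ?_ ?_ ((th_fin q (cups S)).subset fun d hd => hd.1)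
  · rintro g ⟨⟨hg, hfg⟩, hβ⟩
    have hf2 : ∀ n, (g n).1 = f n := fun n => congrFun hfg n
    have hcg : ∀ t < cups S, (f (cups u + t), D g t) = (f (cups u + t),
        1 * (g (cups u + t)).2 + (-1) * (g' (cups u + t)).2) := by
      intro t ht
      show (f (cups u + t), if t < cups S then _ else _) = _
      rw [if_pos ht]
    refine ⟨fun t ht => if_neg (not_lt.2 ht), ?_, ?_⟩
    · rw [ok_congr (cop ψ) S _ _ _ hcg]
      have h3 := cop_ok_lin ψ S (fun _ => 0) (fun n => f (cups u + n)) (fun _ => 0)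
        (fun _ => 0) (fun n => (g (cups u + n)).2) (fun n => (g' (cups u + n)).2) 1 (-1)
        (hok g hg hf2) (hok g' hg' hf1)
      rw [e0] at h3
      exact h3
    · intro j hj
      rw [run_congr (cop ψ) S _ _ _ hcg]
      have h1 := cop_run_lin ψ S (fun _ => 0) (fun n => f (cups u + n)) (fun _ => 0)
        (fun _ => 0) (fun n => (g (cups u + n)).2) (fun n => (g' (cups u + n)).2) 1 (-1) j
      rw [e0] at h1
      have h2 : ∀ g : ℕ → ZMod p × ZMod q, (∀ n, (g n).1 = f n) →
          (fun n => (f (cups u + n), (g (cups u + n)).2)) = fun n => g (cups u + n) := by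
        intro g hfg
        funext n
        exact Prod.ext (hfg _).symm rfl
      rw [h2 g hf2, h2 g' hf1] at h1
      have h4 := congrFun hβ ⟨j, hj⟩
      have h5 := congrFun hβ' ⟨j, hj⟩
      simp only at h4 h5
      rw [h4, h5] at h1
      rw [h1]
      ring
  · rintro g1 ⟨⟨hg1, hfg1⟩, hβ1⟩ g2 ⟨⟨hg2, hfg2⟩, hβ2⟩ hD
    have hfst : ∀ n, (g1 n).1 = (g2 n).1 := fun n =>
      (congrFun hfg1 n).trans (congrFun hfg2 n).symm
    have hb : ∀ j < 2 * N, (run (cop ψ) S (fun _ => (0, 0)) (fun n => g1 (cups u + n)) j).2 =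
        (run (cop ψ) S (fun _ => (0, 0)) (fun n => g2 (cups u + n)) j).2 := fun j hj =>
      (congrFun hβ1 ⟨j, hj⟩).trans (congrFun hβ2 ⟨j, hj⟩).symm
    funext n
    by_cases hn : n < cups u ∨ cups u + cups S ≤ n
    · exact thinA ψ hN hS hK hP hp hq g1 g2 hg1 hg2 hfst hb n hn
    · obtain ⟨t, rfl⟩ : ∃ t, n = cups u + t := ⟨n - cups u, by omega⟩
      have ht : t < cups S := by omega
      have h1 : D g1 t = D g2 t := congrFun hD t
      have h2 : D g1 t = 1 * (g1 (cups u + t)).2 + (-1) * (g' (cups u + t)).2 := if_pos ht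
      have h3 : D g2 t = 1 * (g2 (cups u + t)).2 + (-1) * (g' (cups u + t)).2 := if_pos ht
      rw [h2, h3] at h1
      refine Prod.ext (hfst _) ?_
      linear_combination h1

/-- The common part of `thin` and `thin2`. -/
theorem thin_gen {p q N : ℕ} [Fact p.Prime] [Fact q.Prime] (ψ : AddChar (ZMod p) (ZMod q))
    (hN : 1 ≤ N) {u S v : List Ev} {a : ℕ} (hS : Typed S 0 (2 * N))
    (hK : Typed (u ++ sh a S ++ v) 0 0) (hP : Pers p N S)
    (hp : num fox (0 : ZMod p) (u ++ sh a S ++ v) ≤ p ^ 2)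
    (hq : num fox (0 : ZMod q) (u ++ sh a S ++ v) ≤ q) (B M : ℕ)
    (hB : ∀ f ∈ Col fox (0 : ZMod p) (u ++ sh a S ++ v),
      (liftSet ψ N S (fun n => f (cups u + n))).ncard ≤ B)
    (hM : ∀ f ∈ Col fox (0 : ZMod p) (u ++ sh a S ++ v),
      {β : Fin (2 * N) → ZMod q | ∃ g ∈ Col (cop ψ) (0, 0) (u ++ sh a S ++ v),
        (∀ n, (g n).1 = f n) ∧ ∀ j : Fin (2 * N),
          β j = (run (cop ψ) S (fun _ => (0, 0)) (fun n => g (cups u + n)) j).2}.ncard ≤ M) :
    num (cop ψ) (0, 0) (u ++ sh a S ++ v) ≤ p ^ 2 * (M * B) := by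
  classical
  have hX : (Col (cop ψ) (0, 0) (u ++ sh a S ++ v)).Finite := col_finite _ _ _
  have h1 := th_card hX (col_finite fox (0 : ZMod p) (u ++ sh a S ++ v))
    (fun g => fun n => (g n).1) (fun g hg => ⟨fun n hn => by
      show (g n).1 = 0
      rw [hg.1 n hn], cop_ok_fst ψ _ (fun _ => (0, 0)) g hg.2⟩) (M * B) (fun f hf => ?_)
  · exact h1.trans (Nat.mul_le_mul_right _ hp)
  · have h2 := th_card (X := {g | g ∈ Col (cop ψ) (0, 0) (u ++ sh a S ++ v) ∧
        (fun n => (g n).1) = f}) (hX.subset fun g hg => hg.1)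
      (Set.toFinite {β : Fin (2 * N) → ZMod q | ∃ g ∈ Col (cop ψ) (0, 0) (u ++ sh a S ++ v),
        (∀ n, (g n).1 = f n) ∧ ∀ j : Fin (2 * N),
          β j = (run (cop ψ) S (fun _ => (0, 0)) (fun n => g (cups u + n)) j).2})
      (fun g => fun j : Fin (2 * N) =>
        (run (cop ψ) S (fun _ => (0, 0)) (fun n => g (cups u + n)) j).2)
      (fun g hg => ⟨g, hg.1, fun n => congrFun hg.2 n, fun j => rfl⟩) B
      (fun β _ => (th_fib ψ hN hS hK hP hp hq f β).trans (hB f hf))
    exact h2.trans (Nat.mul_le_mul_right _ (hM f hf))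

theorem thin {p q N : ℕ} [Fact p.Prime] [Fact q.Prime] (ψ : AddChar (ZMod p) (ZMod q))
    (hN : 1 ≤ N) {u S v : List Ev} {a : ℕ} (hS : Typed S 0 (2 * N))
    (hK : Typed (u ++ sh a S ++ v) 0 0) (hP : Pers p N S)
    (hp : num fox (0 : ZMod p) (u ++ sh a S ++ v) ≤ p ^ 2)
    (hq : num fox (0 : ZMod q) (u ++ sh a S ++ v) ≤ q) (B : ℕ)
    (hB : ∀ f ∈ Col fox (0 : ZMod p) (u ++ sh a S ++ v),
      (liftSet ψ N S (fun n => f (cups u + n))).ncard ≤ B) :
    num (cop ψ) (0, 0) (u ++ sh a S ++ v) ≤ p ^ 2 * q ^ (2 * N) * B := by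
  rw [mul_assoc]
  refine thin_gen ψ hN hS hK hP hp hq B (q ^ (2 * N)) hB fun f _ => ?_
  refine (Set.ncard_le_ncard (Set.subset_univ _) Set.finite_univ).trans (le_of_eq ?_)
  rw [Set.ncard_univ, Nat.card_eq_fintype_card, Fintype.card_fun, ZMod.card, Fintype.card_fin]

theorem lift_le {p q N : ℕ} [Fact p.Prime] [Fact q.Prime] (ψ : AddChar (ZMod p) (ZMod q))
    {u S v : List Ev} {a : ℕ} (hS : Typed S 0 (2 * N)) (f : ℕ → ZMod p)
    (hf : f ∈ Col fox (0 : ZMod p) (u ++ sh a S ++ v)) :
    (liftSet ψ N S (fun n => f (cups u + n))).ncard ≤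
      num (cop ψ) (0, 0) (u ++ sh a S ++ v) := by
  classical
  have hcK : cups (u ++ sh a S ++ v) = cups u + cups S + cups v := by
    rw [cups_append, cups_append, cups_sh]
  obtain ⟨hfu, hfS, hfv⟩ := (glue_iff fox hS a (fun _ => 0) (fun _ => 0) f).1 hf.2
  let G : (ℕ → ZMod q) → ℕ → ZMod p × ZMod q := fun d n =>
    (f n, repl (cups u) (cups S) (fun _ => 0) d n)
  refine Set.ncard_le_ncard_of_injOn G ?_ ?_ (col_finite _ _ _)
  · rintro d ⟨hd0, hdok, hdb⟩
    have e1 : ∀ n < cups u, G d n = (f n, 0) := by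
      intro n hn
      exact Prod.ext rfl (if_neg (fun h => by omega))
    have e2 : ∀ n < cups S, G d (cups u + n) = (f (cups u + n), d n) := by
      intro n hn
      refine Prod.ext rfl ?_
      show repl (cups u) (cups S) (fun _ => 0) d (cups u + n) = d n
      unfold repl
      rw [if_pos (by omega)]
      congr 1
      omega
    have e3 : (fun n => G d (cups u + cups S + n)) = fun n => (f (cups u + cups S + n), 0) := by
      funext n
      exact Prod.ext rfl (if_neg (fun h => by omega))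
    have r1 : run (cop ψ) u (fun _ => (0, 0)) (G d) = fun j => (run fox u (fun _ => 0) f j, 0) := by
      rw [run_congr (cop ψ) u _ (G d) (fun n => (f n, 0)) e1]
      exact cop_zero_run ψ u (fun _ => 0) f
    have r2 : run (cop ψ) S (fun _ => (0, 0)) (fun n => G d (cups u + n)) =
        run (cop ψ) S (fun _ => (0, 0)) (fun n => (f (cups u + n), d n)) :=
      run_congr (cop ψ) S _ _ _ e2
    refine ⟨fun n hn => ?_, (glue_iff (cop ψ) hS a (fun _ => (0, 0)) (fun _ => (0, 0)) (G d)).2
      ⟨?_, ?_, ?_⟩⟩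
    · have h1 := hn
      rw [hcK] at h1
      exact Prod.ext (hf.1 n hn) (if_neg (fun h => by omega))
    · rw [ok_congr (cop ψ) u _ (G d) (fun n => (f n, 0)) e1]
      exact (cop_zero_ok ψ u (fun _ => 0) f).2 hfu
    · rw [ok_congr (cop ψ) S _ _ (fun n => (f (cups u + n), d n)) e2]
      exact hdok
    · have r3 : insN a (2 * N) (run (cop ψ) S (fun _ => (0, 0)) (fun n => G d (cups u + n)))
          (run (cop ψ) u (fun _ => (0, 0)) (G d)) = fun j => (insN a (2 * N)
            (run fox S (fun _ => 0) (fun n => f (cups u + n))) (run fox u (fun _ => 0) f) j, 0) := by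
        rw [r1, r2]
        funext j
        unfold insN
        by_cases h1 : j < a
        · rw [if_pos h1, if_pos h1]
        · rw [if_neg h1, if_neg h1]
          by_cases h2 : j < a + 2 * N
          · rw [if_pos h2, if_pos h2]
            refine Prod.ext ?_ (hdb (j - a) (by omega))
            exact cop_fst ψ S (fun _ => (0, 0)) _ _
          · rw [if_neg h2, if_neg h2]
      rw [r3, e3]
      exact (cop_zero_ok ψ v _ _).2 hfv
  · rintro d ⟨hd0, -, -⟩ d' ⟨hd0', -, -⟩ hG
    funext t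
    by_cases ht : t < cups S
    · have h1 := congrArg Prod.snd (congrFun hG (cups u + t))
      have h2 : ∀ e : ℕ → ZMod q, (G e (cups u + t)).2 = e t := by
        intro e
        show repl (cups u) (cups S) (fun _ => 0) e (cups u + t) = e t
        unfold repl
        rw [if_pos (by omega)]
        congr 1
        omega
      rw [h2, h2] at h1
      exact h1
    · rw [hd0 t (not_lt.1 ht), hd0' t (not_lt.1 ht)]

end Pool.Agent.Work.MP_3edda8_gt
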