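import Pool.Agent.Work.MP_3edda8_gt.SK.Sing

/-!
MODULE ThinA (M): two lifts with the same boundary values agree outside of a persistent tangle.

PROOF.  Let `K = u ++ sh a S ++ v`, `Typed u 0 W`, `a ≤ W`, `Typed v (W + 2 N) 0`
(`typed_append`, `typed_sh_iff`).  Put `f n = (g n).1 = (g' n).1`; by `cop_ok_fst`
`f ∈ Col fox 0 K`, so `pers_col` gives `κ` (all colours of `f` outside of `S` and the colours of
the end points of `S` are `κ`).  Put `d n = (g n).2 - (g' n).2`
(`0` for `n ≥ cups K`, as `g, g' ∈ Col`).  By `cop_ok_lin` (coefficients `1, -1`; base state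
`(0, 0)`) `fun n => (f n, d n)` is `ok` on `K`, and by `hb` and `cop_run_lin` its second components
on the end points of `S` vanish.
Let `e = repl (cups u) (cups S) d (fun _ => 0)`.
Claim: `e ∈ Col fox (0 : ZMod q) K`.  Use `glue_iff` for `cop ψ` and `fun n => (f n, d n)`, and
backwards for `fox` and `e`:
 - on `u`: `cop_const` with `κ` (`m = 0`): `ok fox u 0 d`, and the second components of the state
   after `u` are `run fox u 0 d j`, the first ones `κ`, for `j < W`;
 - on `S`: `e` is `0` there, `ok` and `run = 0` (zero colouring, `fox_run_lin` with coefficients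
   `0`, or `const_word`);
 - on `v`: the state before `v` is `insN a (2 N) (..) (..)`; for `j < W + 2 N` its first component
   is `κ` (by `pers_col` on the end points, `cop_fst`) and its second component is the state
   `insN a (2 N) 0 (run fox u 0 d)`; `cop_const` with `m = W + 2 N` and `κ` (the state `x` in
   `cop_const` is this last state, the hypothesis is only needed for `j < m`).
So `e ∈ Col`.  The constant colourings `x` on the `cups K` cups are `q` different elements of
`Col fox (0 : ZMod q) K` (`const_word`; `cups K ≥ cups S ≥ 1`), and by `hq` these are all.  So `e`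
is constant on the cups `< cups K`; it is `0` on the cups of `S`, so `e = 0`, that is `d n = 0`
outside of `S`.
-/

namespace Pool.Agent.Work.MP_3edda8_gt

theorem thinA {p q N : ℕ} [Fact p.Prime] [Fact q.Prime] (ψ : AddChar (ZMod p) (ZMod q))
    (hN : 1 ≤ N) {u S v : List Ev} {a : ℕ} (hS : Typed S 0 (2 * N))
    (hK : Typed (u ++ sh a S ++ v) 0 0) (hP : Pers p N S)
    (hp : num fox (0 : ZMod p) (u ++ sh a S ++ v) ≤ p ^ 2)
    (hq : num fox (0 : ZMod q) (u ++ sh a S ++ v) ≤ q)
    (g g' : ℕ → ZMod p × ZMod q) (hg : g ∈ Col (cop ψ) (0, 0) (u ++ sh a S ++ v))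
    (hg' : g' ∈ Col (cop ψ) (0, 0) (u ++ sh a S ++ v)) (hfst : ∀ n, (g n).1 = (g' n).1)
    (hb : ∀ j < 2 * N, (run (cop ψ) S (fun _ => (0, 0)) (fun n => g (cups u + n)) j).2 =
      (run (cop ψ) S (fun _ => (0, 0)) (fun n => g' (cups u + n)) j).2) :
    ∀ n, (n < cups u ∨ cups u + cups S ≤ n) → g n = g' n := by
  classical
  obtain ⟨l, hl1, hTv⟩ := typed_append.1 hK
  obtain ⟨W, hTu, hTs⟩ := typed_append.1 hl1
  obtain ⟨haW, rfl⟩ := (typed_sh_iff hS hN a W l).1 hTs
  have hcupsS : 1 ≤ cups S := by
    obtain ⟨c, -, -, t, ht, -⟩ := hP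
    omega
  have hcK : cups (u ++ sh a S ++ v) = cups u + cups S + cups v := by
    rw [cups_append, cups_append, cups_sh]
  -- the first components
  have hf0 : ∀ n, cups (u ++ sh a S ++ v) ≤ n → (g n).1 = 0 := by
    intro n hn
    rw [hg.1 n hn]
  have hfok : ok fox (u ++ sh a S ++ v) (fun _ => 0) (fun n => (g n).1) :=
    cop_ok_fst ψ _ (fun _ => (0, 0)) g hg.2
  obtain ⟨κ, hκu, hκv, hκS⟩ := pers_col hN hS hK hP hp (fun n => (g n).1) ⟨hf0, hfok⟩
  -- the difference of the second components
  let d : ℕ → ZMod q := fun n => 1 * (g n).2 + (-1) * (g' n).2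
  let D : ℕ → ZMod p × ZMod q := fun n => ((g n).1, d n)
  have e0 : (fun _ : ℕ => ((0 : ZMod p), (1 : ZMod q) * 0 + (-1) * 0)) = fun _ => (0, 0) := by
    funext _
    rw [mul_zero, mul_zero, add_zero]
  have hg'eq : (fun n => ((g n).1, (g' n).2)) = g' := by
    funext n
    exact Prod.ext (hfst n) rfl
  have hD : ok (cop ψ) (u ++ sh a S ++ v) (fun _ => (0, 0)) D := by
    have h1 : ok (cop ψ) (u ++ sh a S ++ v) (fun _ : ℕ => ((0 : ZMod p), (0 : ZMod q)))
        (fun n => ((g n).1, (g n).2)) := hg.2
    have h2 : ok (cop ψ) (u ++ sh a S ++ v) (fun _ : ℕ => ((0 : ZMod p), (0 : ZMod q)))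
        (fun n => ((g n).1, (g' n).2)) := by
      rw [hg'eq]
      exact hg'.2
    have h3 := cop_ok_lin ψ (u ++ sh a S ++ v) (fun _ => 0) (fun n => (g n).1) (fun _ => 0)
      (fun _ => 0) (fun n => (g n).2) (fun n => (g' n).2) 1 (-1) h1 h2
    rw [e0] at h3
    exact h3
  obtain ⟨hDu, hDS, hDv⟩ := (glue_iff (cop ψ) hS a (fun _ => (0, 0)) (fun _ => (0, 0)) D).1 hD
  -- the part below
  obtain ⟨hu1, hu2⟩ := cop_const ψ hTu κ (fun _ => (0, 0)) (fun _ => 0)
    (fun j hj => absurd hj (Nat.not_lt_zero j)) D d
    (fun n hn => Prod.ext (hκu n hn) rfl)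
  -- the end points of the tangle
  have hSrun : ∀ j < 2 * N, run (cop ψ) S (fun _ => (0, 0)) (fun n => D (cups u + n)) j =
      (κ, 0) := by
    intro j hj
    refine Prod.ext ?_ ?_
    · rw [cop_fst]
      exact hκS j hj
    · have h1 := cop_run_lin ψ S (fun _ => 0) (fun n => (g (cups u + n)).1) (fun _ => 0)
        (fun _ => 0) (fun n => (g (cups u + n)).2) (fun n => (g' (cups u + n)).2) 1 (-1) j
      rw [e0] at h1
      have h2 : (fun n => ((g (cups u + n)).1, (g' (cups u + n)).2)) =
          fun n => g' (cups u + n) := by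
        funext n
        exact Prod.ext (hfst _) rfl
      rw [h2] at h1
      have h3 := hb j hj
      refine h1.trans ?_
      show 1 * (run (cop ψ) S (fun _ => (0, 0)) (fun n => g (cups u + n)) j).2 +
        (-1) * (run (cop ψ) S (fun _ => (0, 0)) (fun n => g' (cups u + n)) j).2 = 0
      rw [h3]
      ring
  -- the part above
  let xv : ℕ → ZMod q := insN a (2 * N) (fun _ => 0) (run fox u (fun _ => 0) d)
  have hsv : ∀ j < W + 2 * N, insN a (2 * N) (run (cop ψ) S (fun _ => (0, 0))
      (fun n => D (cups u + n))) (run (cop ψ) u (fun _ => (0, 0)) D) j = (κ, xv j) := by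
    intro j hj
    show _ = (κ, insN a (2 * N) (fun _ => 0) (run fox u (fun _ => 0) d) j)
    unfold insN
    by_cases h1 : j < a
    · rw [if_pos h1, if_pos h1]
      exact hu2 j (by omega)
    · rw [if_neg h1, if_neg h1]
      by_cases h2 : j < a + 2 * N
      · rw [if_pos h2, if_pos h2]
        exact hSrun (j - a) (by omega)
      · rw [if_neg h2, if_neg h2]
        exact hu2 (j - 2 * N) (by omega)
  obtain ⟨hv1, -⟩ := cop_const ψ hTv κ _ xv hsv (fun n => D (cups u + cups S + n))
    (fun n => d (cups u + cups S + n)) (fun n hn => Prod.ext (hκv n hn) rfl)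
  have hvok := hv1.1 hDv
  -- the extension by zero
  let e : ℕ → ZMod q := repl (cups u) (cups S) d (fun _ => 0)
  have heout : ∀ n, (n < cups u ∨ cups u + cups S ≤ n) → e n = d n := by
    intro n hn
    exact if_neg (fun h => by omega)
  have hein : ∀ n, cups u ≤ n → n < cups u + cups S → e n = 0 := by
    intro n h1 h2
    exact if_pos ⟨h1, h2⟩
  have hx0 : ∀ x : ZMod q, fox x x = x := by
    intro x
    unfold fox
    ring
  have heC : e ∈ Col fox (0 : ZMod q) (u ++ sh a S ++ v) := by
    refine ⟨?_, (glue_iff fox hS a (fun _ => 0) (fun _ => 0) e).2 ⟨?_, ?_, ?_⟩⟩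
    · intro n hn
      have hn' := hn
      rw [hcK] at hn'
      rw [heout n (Or.inr (by omega))]
      show 1 * (g n).2 + (-1) * (g' n).2 = 0
      rw [hg.1 n hn, hg'.1 n hn]
      ring
    · rw [ok_congr fox u (fun _ => 0) e d (fun n hn => heout n (Or.inl hn))]
      exact hu1.1 hDu
    · exact (const_word fox hS 0 (hx0 0) (fun _ => 0) _
        (fun j hj => absurd hj (Nat.not_lt_zero j))
        (fun n hn => hein _ (by omega) (by omega))).1
    · have h1 : insN a (2 * N) (run fox S (fun _ => 0) (fun n => e (cups u + n)))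
          (run fox u (fun _ => 0) e) = xv := by
        have h2 := (const_word fox hS 0 (hx0 0) (fun _ => 0) (fun n => e (cups u + n))
          (fun j hj => absurd hj (Nat.not_lt_zero j))
          (fun n hn => hein _ (by omega) (by omega))).2
        rw [run_congr fox u (fun _ => 0) e d (fun n hn => heout n (Or.inl hn))]
        funext j
        show _ = insN a (2 * N) (fun _ => 0) (run fox u (fun _ => 0) d) j
        unfold insN
        by_cases h3 : j < a
        · rw [if_pos h3, if_pos h3]
        · rw [if_neg h3, if_neg h3]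
          by_cases h4 : j < a + 2 * N
          · rw [if_pos h4, if_pos h4]
            exact h2 (j - a) (by omega)
          · rw [if_neg h4, if_neg h4]
      have h2 : (fun n => e (cups u + cups S + n)) = fun n => d (cups u + cups S + n) := by
        funext n
        exact heout _ (Or.inr (by omega))
      rw [h1, h2]
      exact hvok
  -- the constant colourings
  let cx : ZMod q → ℕ → ZMod q := fun x n => if n < cups (u ++ sh a S ++ v) then x else 0
  have hcx : ∀ x, cx x ∈ Col fox (0 : ZMod q) (u ++ sh a S ++ v) := by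
    intro x
    refine ⟨fun n hn => if_neg (not_lt.2 hn), ?_⟩
    exact (const_word fox hK x (hx0 x) (fun _ => 0) (cx x)
      (fun j hj => absurd hj (Nat.not_lt_zero j)) (fun n hn => if_pos hn)).1
  have hcuK : cups u < cups (u ++ sh a S ++ v) := by
    rw [hcK]
    omega
  have hinj : Function.Injective cx := by
    intro x y hxy
    have h1 := congrFun hxy (cups u)
    have h2 : cx x (cups u) = x := if_pos hcuK
    have h3 : cx y (cups u) = y := if_pos hcuK
    rw [h2, h3] at h1
    exact h1
  have hfin : (Col fox (0 : ZMod q) (u ++ sh a S ++ v)).Finite := col_finite _ _ _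
  have hrange : Set.range cx = Col fox (0 : ZMod q) (u ++ sh a S ++ v) := by
    refine Set.eq_of_subset_of_ncard_le ?_ ?_ hfin
    · rintro _ ⟨x, rfl⟩
      exact hcx x
    · refine le_trans hq (le_of_eq ?_)
      rw [← Set.image_univ, Set.ncard_image_of_injective _ hinj, Set.ncard_univ,
        Nat.card_eq_fintype_card, ZMod.card]
  rw [← hrange] at heC
  obtain ⟨x, hx⟩ := heC
  have hx1 : x = 0 := by
    have h1 := congrFun hx (cups u)
    have h2 : cx x (cups u) = x := if_pos hcuK
    rw [h2, hein _ le_rfl (by omega)] at h1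
    exact h1
  have he0 : ∀ n, e n = 0 := by
    intro n
    rw [← hx, hx1]
    show (if n < cups (u ++ sh a S ++ v) then (0 : ZMod q) else 0) = 0
    split_ifs <;> rfl
  intro n hn
  have h1 := he0 n
  rw [heout n hn] at h1
  have h2 : 1 * (g n).2 + (-1) * (g' n).2 = 0 := h1
  refine Prod.ext (hfst n) ?_
  linear_combination h2

end Pool.Agent.Work.MP_3edda8_gt
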